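import Pool.Agent.H48.MF.Brf
import Pool.Agent.H1.AR.Lt2

/-!
# [H51 MT BRG] product formula for a 2-cocycle on `Γ` which only depends on a homomorphism to a finite group (70-110 lines)

`R = ρ.range` (finite group). For `r : ρ.range` choose `s r : Γ` with `ρ (s r) = r`. `e r r' = E (s r) (s r')`. By `hE`: `e (ρ σ) (ρ τ) = E σ τ`, so `pb e ρ.rangeRestrict = E` (`pb e ρ σ τ = e (ρ σ) (ρ τ)`)
and `e` is a normalised cocycle (`Coc p e`: `h1`, `h2`, `hco` and surjectivity of `Γ → ρ.range`): `brg_e`.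
* `brg`: `H48.MF.brg3f` with `ρ.rangeRestrict` (`FT`: same kernel) and `iv e r r' = e r r' - e r' r` (by definition).
* `brg_lt`: `H1.AR.lt2` for the same `e` (Pool/Agent/H1/AR/Lt2.lean).
-/

set_option autoImplicit false
set_option linter.dupNamespace false

open scoped NumberField Pointwise
open IsDedekindDomain NumberField
open scoped Classical

noncomputable section

namespace H51.MT

open H63.MA H38.BB H38.BG H57.PC H57.BRA H89.BRG H48.MF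

variable {p : ℕ} {K : Type} [Field K] [NumberField K] {Ω : Type}
  [Field Ω] [Algebra K Ω] [IsAlgClosure K Ω] {ζ : K}

theorem brg_e {S : Type} [Group S] (ρ : Gal(Ω/K) →* S) (E : Gal(Ω/K) → Gal(Ω/K) → ZMod p)
    (h1 : ∀ σ, E 1 σ = 0) (h2 : ∀ σ, E σ 1 = 0)
    (hco : ∀ σ τ υ, E τ υ + E σ (τ * υ) = E (σ * τ) υ + E σ τ)
    (hE : ∀ σ σ' τ τ', ρ σ = ρ σ' → ρ τ = ρ τ' → E σ τ = E σ' τ') :
    ∃ e : ρ.range → ρ.range → ZMod p, Coc p e ∧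
      ∀ σ τ, e (ρ.rangeRestrict σ) (ρ.rangeRestrict τ) = E σ τ := by
  choose s hs using fun r : ρ.range => r.2
  refine ⟨fun r r' => E (s r) (s r'), ⟨fun a => ?_, fun a => ?_, fun a b c => ?_⟩,
    fun σ τ => hE _ _ _ _ (hs _) (hs _)⟩
  · show E (s 1) (s a) = 0
    rw [hE (s 1) 1 (s a) (s a) (by rw [hs, map_one]; rfl) rfl]
    exact h1 _
  · show E (s a) (s 1) = 0
    rw [hE (s a) (s a) (s 1) 1 rfl (by rw [hs, map_one]; rfl)]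
    exact h2 _
  · show E (s b) (s c) + E (s a) (s (b * c)) = E (s (a * b)) (s c) + E (s a) (s b)
    rw [hE (s a) (s a) (s (b * c)) (s b * s c) rfl (by rw [hs, map_mul, hs, hs]; rfl),
      hE (s (a * b)) (s a * s b) (s c) (s c) (by rw [hs, map_mul, hs, hs]; rfl) rfl]
    exact hco _ _ _

private theorem ft_range {S : Type} [Group S] {ρ : Gal(Ω/K) →* S} (hρ : H38.ML.FT ρ) :
    H38.ML.FT ρ.rangeRestrict := by
  obtain ⟨E', h, h'⟩ := hρ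
  exact ⟨E', h, fun u hu => MonoidHom.mem_ker.2 (Subtype.ext (MonoidHom.mem_ker.1 (h' hu)))⟩

theorem brg (hp : p.Prime) (hp2 : MOne p K) (hζ : IsPrimitiveRoot ζ p) (hz : Z2 p K)
    {D : RD0 K p ζ} {L : LDs D Ω} (P : DP K Ω) (Fr : FR L) {S : Type} [Group S] [Finite S]
    (ρ : Gal(Ω/K) →* S) (hρ : H38.ML.FT ρ) (E : Gal(Ω/K) → Gal(Ω/K) → ZMod p)
    (h1 : ∀ σ, E 1 σ = 0) (h2 : ∀ σ, E σ 1 = 0)
    (hco : ∀ σ τ υ, E τ υ + E σ (τ * υ) = E (σ * τ) υ + E σ τ)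
    (hE : ∀ σ σ' τ τ', ρ σ = ρ σ' → ρ τ = ρ τ' → E σ τ = E σ' τ')
    (hS : ∀ v ∈ D.S0, Kl E (dec (K := K) (P.P v) : Set Gal(Ω/K)))
    (htm : ∀ v, v ∉ D.S0 → ∀ τ ∈ inr L v, ρ τ ^ p = 1)
    (T : Finset (Pl K)) (hT : ∀ v ∈ T, v ∉ D.S0)
    (hur : ∀ v, v ∉ D.S0 → v ∉ T → ρ (L.t v) = 1)
    {lam : Pl K → ZMod p} (hlam : IsRec p ζ lam) :
    ∑ v ∈ T, lam v * (E (Fr.F v) (L.t v) - E (L.t v) (Fr.F v)) = 0 := by
  obtain ⟨e, he, hpe⟩ := brg_e ρ E h1 h2 hco hE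
  have hpb : pb e ρ.rangeRestrict = E := by
    funext σ τ
    exact hpe σ τ
  have h3 := brg3f hp hp2 hζ hz P Fr he (ft_range hρ) (by rw [hpb]; exact hS)
    (fun v hv τ hτ => Subtype.ext (htm v hv τ hτ)) T hT
    (fun v hv hvT => Subtype.ext (hur v hv hvT)) hlam
  rw [← h3]
  refine Finset.sum_congr rfl fun v _ => ?_
  rw [iv, hpe, hpe]

theorem brg_lt (hp : p.Prime) (hζ : IsPrimitiveRoot ζ p) {S : Type} [Group S] [Finite S]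
    (ρ : Gal(Ω/K) →* S) (hρ : H38.ML.FT ρ) (E : Gal(Ω/K) → Gal(Ω/K) → ZMod p)
    (h1 : ∀ σ, E 1 σ = 0) (h2 : ∀ σ, E σ 1 = 0)
    (hco : ∀ σ τ υ, E τ υ + E σ (τ * υ) = E (σ * τ) υ + E σ τ)
    (hE : ∀ σ σ' τ τ', ρ σ = ρ σ' → ρ τ = ρ τ' → E σ τ = E σ' τ')
    {v : Pl K} (hv : ¬ Above p v) {π : Kˣ} (hπ : ord v π = 1) (L : LD p ζ Ω v π) {F : Gal(Ω/K)}
    (hF : IsFr L F) (htm : ∀ τ ∈ L.P.inertia Gal(Ω/K), ρ τ ^ p = 1) {P' : Ideal (𝓞 Ω)}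
    (hP' : P'.IsPrime) (h' : P'.under (𝓞 K) = v.asIdeal) {F' : Gal(Ω/K)}
    (hF' : ∀ x : 𝓞 Ω, F' • x - x ^ nm v ∈ P') {τ' : Gal(Ω/K)}
    (hτ' : τ' ∈ P'.inertia Gal(Ω/K)) :
    E F' τ' - E τ' F' = kk p ζ π τ' * (E F L.t - E L.t F) := by
  obtain ⟨e, he, hpe⟩ := brg_e ρ E h1 h2 hco hE
  have h3 := (H1.AR.lt2 hp hζ he (ft_range hρ) hv hπ L hF
    (fun τ hτ => Subtype.ext (htm τ hτ)) hP' h' hF' hτ').2
  rw [iv, iv, hpe, hpe, hpe, hpe] at h3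
  exact h3

end H51.MT
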