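import Pool.Agent.H63.MA.ALem
import Pool.Agent.H63.MA.ALowC
import Pool.Agent.H63.MC.CDef

/-!
# [H51 MT LSP] the classes of the primes of prime norm span (60-120 lines)

Let `W` be the span of the `D.q v`, `v` good (`D.Gd v`: outside `S0`, prime norm). If `W = ⊤` a finite set of good primes spans and gives the `α` (see `chb_span` in Pool/Agent/H63/MC/CHb.lean). If `W ≠ ⊤` there is `κ ≠ 0` with `dt κ (D.q v) = 0` for all good `v` (`chb_span`: `Submodule.exists_le_ker_of_lt_top`).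
`alem_ne2` with `E = ∅`: some `v ∉ S0` with `dt κ (D.q v) ≠ 0`. `D.ray_q κ` and `ray_rc` (H63/MA/RayC.lean) give a ray class character `χ : RC K D.M0` with `χ.χ v.asIdeal = ep p (dt κ (D.q v))` for `v ∉ S0`, and `χ.Non`. For `n ∈ GF D y` (squarefree products of good primes): `χ.χ (idl n) = 1` (see `alem_one` in
Pool/Agent/H63/MA/ALem.lean), so by `asq D` (`F = ∅`): `#(GF D y) ≤ C y^(1-δ)` for all `y ≥ 1`. But `#(GF D y) ≥ c y` for large `y` (lower bounds for `GF`: H63/MA/ALowA, ALowB, ALowC, ACntB; or the number of good primes of norm at most `y` is at least `c y / log y` by the prime ideal theorem in the library, or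
the sum of `1 / nm v` over the good primes diverges: `∑_{v good, nm v ≤ Y} 1/nm v ≥ loglog Y - C`, search `loglog` / Mertens, by partial summation against `#{good v, nm v ≤ y} ≤ #(GF D y) ≤ C y^(1-δ)`). Contradiction.
-/

set_option autoImplicit false
set_option linter.dupNamespace false

open scoped NumberField Pointwise
open IsDedekindDomain NumberField
open scoped Classical

noncomputable section

namespace H51.MT

open H63.MA

variable {p : ℕ} {K : Type} [Field K] [NumberField K] {ζ : K}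

private theorem lsp95_key (hp : p.Prime) (D : RD0 K p ζ) (κ : Fin D.r → ZMod p) (hκ : κ ≠ 0)
    (h0 : ∀ v, D.Gd v → dt κ (D.q v) = 0) : False := by
  obtain ⟨v0, hv0S, -, hv0⟩ := alem_ne2 D ∅ (fun w hw => absurd hw (Finset.notMem_empty w)) κ hκ
  obtain ⟨χ, hχ1, hχ2⟩ := ray_rc hp D.M0_ne (D.ray_q κ)
  have hNon : χ.Non := hχ2 ⟨v0, hv0⟩
  obtain ⟨C, A, δ, hC, hA, hδ, hδ1, hasq⟩ := asq D
  obtain ⟨κ1, T₀, hκ1, hone⟩ := acntb_one D
  have hfin : {v : Pl K | v ∈ D.S0 ∨ (nm v : ℝ) ≤ T₀}.Finite :=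
    D.S0.finite_toSet.union (acntb_fin K T₀)
  obtain ⟨F, hF⟩ : ∃ F : Finset (Pl K), ∀ v, v ∈ F ↔ v ∈ D.S0 ∨ (nm v : ℝ) ≤ T₀ :=
    ⟨hfin.toFinset, fun v => by rw [Set.Finite.mem_toFinset]; rfl⟩
  obtain ⟨y1, hy11, hy1⟩ := hone T₀ le_rfl F hF
  have hP0 : 0 < ∏ v ∈ F, (1 - (nm v : ℝ)⁻¹) := acntb_P F
  have hN0 : (1 : ℝ) ≤ (Ideal.absNorm D.M0 : ℝ) := by
    have h1 : Ideal.absNorm D.M0 ≠ 0 := by
      rw [Ne, Ideal.absNorm_eq_zero_iff]
      exact D.M0_ne
    exact_mod_cast Nat.one_le_iff_ne_zero.2 h1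
  have hN0A : 0 < (Ideal.absNorm D.M0 : ℝ) ^ A := Real.rpow_pos_of_pos (by linarith) _
  obtain ⟨y2, hy21, hy2⟩ := acntb_pow (a := κ1 * (∏ v ∈ F, (1 - (nm v : ℝ)⁻¹)) / 2)
    (C := C * (Ideal.absNorm D.M0 : ℝ) ^ A * 2 ^ F.card) (δ := δ)
    (by positivity) (by positivity) hδ
  set y : ℝ := max y1 y2 with hy
  have e1 := hy1 y (le_max_left _ _)
  have e2 := hy2 y (le_max_right _ _)
  have hy1' : 1 ≤ y := hy11.trans (le_max_left _ _)
  have e3 := hasq D.M0 D.M0_ne χ hNon F y hy1'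
  have e4 : ∑ n ∈ (GF D y).filter (fun n => Disjoint n F), χ.χ (idl n) =
      (((GF D y).filter (fun n => Disjoint n F)).card : ℂ) := by
    rw [Finset.cast_card]
    refine Finset.sum_congr rfl fun n hn => ?_
    obtain ⟨hn1, hn2⟩ := Finset.mem_filter.1 hn
    rw [GF, Finset.mem_filter] at hn1
    have hidl : idl n = ∏ v ∈ n, v.asIdeal := rfl
    rw [hidl, map_prod]
    refine Finset.prod_eq_one fun v hv => ?_
    have hg := hn1.2 v hv
    have hd : ¬ v.asIdeal ∣ D.M0 := fun h => hg.1 ((D.M0_dvd v).1 h)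
    rw [hχ1 v hd]
    have h5 : ∑ i, κ i * D.q v i = 0 := h0 v hg
    rw [h5, ep_zero]
  rw [e4, Complex.norm_natCast] at e3
  have e5 : (((GF D y).filter fun n => Disjoint n F ∧ y / 2 < nr n).card : ℝ) ≤
      (((GF D y).filter (fun n => Disjoint n F)).card : ℝ) := by
    exact_mod_cast Finset.card_le_card (fun n hn => by
      rw [Finset.mem_filter] at hn ⊢
      exact ⟨hn.1, hn.2.1⟩)
  have hpos : 0 < κ1 * (∏ v ∈ F, (1 - (nm v : ℝ)⁻¹)) * y := by positivity
  linarith

theorem lsp (hp : p.Prime) (hp2 : MOne p K) (hζ : IsPrimitiveRoot ζ p) (D : RD0 K p ζ) :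
    ∃ T : Finset (Pl K), (∀ v ∈ T, D.Gd v) ∧
      ∀ y : Fin D.r → ZMod p, ∃ α : Pl K → ZMod p, y = ∑ v ∈ T, α v • D.q v := by
  have hF : Fact p.Prime := ⟨hp⟩
  have h1 : Submodule.span (ZMod p) (D.q '' {v : Pl K | D.Gd v}) = ⊤ := by
    by_contra h
    obtain ⟨F, hF0, hF⟩ := Submodule.exists_le_ker_of_lt_top _ (lt_top_iff_ne_top.2 h)
    have hFd : ∀ x : Fin D.r → ZMod p, F x = dt (fun k => F (Pi.single k 1)) x := by
      intro x
      conv_lhs => rw [← Finset.univ_sum_single x]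
      rw [map_sum]
      unfold dt
      refine Finset.sum_congr rfl fun k _ => ?_
      have h2 : (Pi.single k (x k) : Fin D.r → ZMod p) = x k • Pi.single k 1 := by
        rw [← Pi.single_smul, smul_eq_mul, mul_one]
      rw [h2, map_smul, smul_eq_mul, mul_comm]
    refine lsp95_key hp D (fun k => F (Pi.single k 1)) ?_ ?_
    · intro h0
      apply hF0
      apply LinearMap.ext
      intro x
      rw [hFd, h0]
      unfold dt
      simp
    · intro v hv
      rw [← hFd]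
      exact LinearMap.mem_ker.1 (hF (Submodule.subset_span ⟨v, hv, rfl⟩))
  -- every standard basis vector is in the span of a finite set
  have h2 : ∃ T : Finset (Pl K), (∀ v ∈ T, D.Gd v) ∧
      Submodule.span (ZMod p) (D.q '' (T : Set (Pl K))) = ⊤ := by
    have hfin : (D.q '' {v : Pl K | D.Gd v}).Finite := Set.toFinite _
    have hsub : (hfin.toFinset : Set (Fin D.r → ZMod p)) ⊆ D.q '' {v : Pl K | D.Gd v} := by
      rw [Set.Finite.coe_toFinset]
    obtain ⟨T, hT, hT1⟩ := Finset.subset_set_image_iff.1 hsub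
    refine ⟨T, fun v hv => hT hv, ?_⟩
    rw [← Finset.coe_image, hT1, Set.Finite.coe_toFinset]
    exact h1
  obtain ⟨T, hT, hT1⟩ := h2
  refine ⟨T, hT, fun y => ?_⟩
  have h3 : y ∈ Submodule.span (ZMod p) (D.q '' (T : Set (Pl K))) := by
    rw [hT1]
    trivial
  obtain ⟨c, hc⟩ := (Submodule.mem_span_image_finset_iff_exists_fun' (ZMod p)).1 h3
  exact ⟨c, hc.symm⟩

end H51.MT
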