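import Pool.Agent.H51.MT.Lft

/-!
# [H51 MT LFS] existence of adapted lifts (40-70 lines)

* `lfu`: `Cv`: `pr φ₁ σ = e x_v * ρ σ * (e x_v)⁻¹` on `dec (P v)`, `ρ = rh X c g`. `r_v ∈ G` with `pr r_v = e x_v` (`Gm.prs`; `r_v ∈ T`: `gm_T`). `lft` with `φ' v σ = r_v⁻¹ * φ₁ σ * r_v` (`MulAut.conj r_v⁻¹` composed with `φ₁`, `φ' v = φ₁` for `v ∉ S0`).
* `lfs`: `lft` with `φ' v = φ'` for all `v`: `pr (φ' σ) = rh X c g' σ = rh X c g σ` on `dec (P v)`; `hcq` is `Cq` of `AL` (`φ₁ σ = r * φ' σ * r⁻¹`).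
-/

set_option autoImplicit false
set_option linter.dupNamespace false

open scoped NumberField Pointwise
open IsDedekindDomain NumberField
open scoped Classical

noncomputable section

namespace H51.MT

open H63.MA H38.BB H38.BG H57.PC H57.BRA H89.BRG H1.AR H48.MF H48.MG

variable {p u w N : ℕ} {G R Q : Type} [Group G] [Group R] [Group Q] [Fintype Q]
  (Gm : GM p u w N G R Q) {K : Type} [Field K] [NumberField K] {Ω : Type} [Field Ω] [Algebra K Ω]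
  [IsAlgClosure K Ω] {ζ : K} (X : AD Gm.M K Ω ζ)

theorem lfu [Finite G] [Finite R] (hp : p.Prime) (hp2 : MOne p K) (hζ : IsPrimitiveRoot ζ p)
    (hz : Z2 p K) {c : Gal(Ω/K) →* R} (hc : X.IsC c) {g : Finset X.Lb} (hg : X.Ok g)
    (hev : ∀ a ∈ g, X.ev (rh X c g) a = 0) {φ₁ : Gal(Ω/K) →* G} (hφ₁ : H38.ML.FT φ₁)
    (hcv : Cv X.D.S0 X.P Gm.M (rh X c g) (Gm.pr.comp φ₁)) :
    ∃ (φ : Gal(Ω/K) →* G) (ε : Pl K → Fin w → ZMod p), AL Gm X φ₁ c g φ ε := by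
  have h1 : ∀ v, ∃ r : G, v ∈ X.D.S0 → (r ∈ Gm.T ∧ ∀ σ ∈ dec (K := K) (X.P.P v),
      Gm.pr (φ₁ σ) = Gm.pr r * rh X c g σ * (Gm.pr r)⁻¹) := by
    intro v
    by_cases hv : v ∈ X.D.S0
    · obtain ⟨x, hx⟩ := hcv v hv
      obtain ⟨r, hr⟩ := Gm.prs (Gm.M.e x)
      refine ⟨r, fun _ => ⟨(gm_T Gm r).2 ⟨x, hr⟩, fun σ hσ => ?_⟩⟩
      rw [hr]
      exact hx σ hσ
    · exact ⟨1, fun h => absurd h hv⟩
  choose r hr using h1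
  obtain ⟨φ, ε, h2, -⟩ := lft Gm X hp hp2 hζ hz hc hg hev hφ₁
    (fun v => (MulAut.conj (r v)⁻¹).toMonoidHom.comp φ₁)
    (fun v _ => H38.ML.ft_comp _ _ hφ₁)
    (fun v hv σ hσ => by
      show Gm.pr ((r v)⁻¹ * φ₁ σ * (r v)⁻¹⁻¹) = rh X c g σ
      rw [map_mul, map_mul, map_inv, map_inv, map_inv, inv_inv, (hr v hv).2 σ hσ]
      group)
    (fun v hv => ⟨r v, (hr v hv).1, fun σ _ => by
      show φ₁ σ = r v * ((r v)⁻¹ * φ₁ σ * (r v)⁻¹⁻¹) * (r v)⁻¹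
      group⟩)
  exact ⟨φ, ε, h2⟩

theorem lfs [Finite G] [Finite R] (hp : p.Prime) (hp2 : MOne p K) (hζ : IsPrimitiveRoot ζ p)
    (hz : Z2 p K) {c : Gal(Ω/K) →* R} (hc : X.IsC c) {g g' : Finset X.Lb} (hg : X.Ok g)
    (hev : ∀ a ∈ g, X.ev (rh X c g) a = 0) {φ₁ : Gal(Ω/K) →* G} (hφ₁ : H38.ML.FT φ₁)
    {φ' : Gal(Ω/K) →* G} {ε' : Pl K → Fin w → ZMod p} (h' : AL Gm X φ₁ c g' φ' ε')
    (hgg : ∀ v ∈ X.D.S0, ∀ σ ∈ dec (K := K) (X.P.P v), rh X c g σ = rh X c g' σ) :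
    ∃ (φ : Gal(Ω/K) →* G) (ε : Pl K → Fin w → ZMod p), AL Gm X φ₁ c g φ ε ∧
      ∀ v ∈ X.D.S0, ∀ σ ∈ dec (K := K) (X.P.P v), φ σ = φ' σ := by
  exact lft Gm X hp hp2 hζ hz hc hg hev hφ₁ (fun _ => φ') (fun _ _ => h'.ft)
    (fun v hv σ hσ => by rw [h'.pr σ, hgg v hv σ hσ]) (fun v hv => h'.cq v hv)

theorem al_ev [Finite G] [Finite R] (hp : p.Prime) (hζ : IsPrimitiveRoot ζ p)
    {c : Gal(Ω/K) →* R} (hc : X.IsC c) {g : Finset X.Lb} (hg : X.Ok g) {φ₁ φ : Gal(Ω/K) →* G}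
    {ε : Pl K → Fin w → ZMod p} (h : AL Gm X φ₁ c g φ ε) : ∀ a ∈ g, X.ev (rh X c g) a = 0 := by
  intro a ha
  have hG := hg.1 a ha
  have hv := un_not X hG.1
  have h1 := (ing_conj X.L hv (ltb_prime X hG) (ltb_under X hG) φ).1.1 (h.pw _ hv)
  have h2 := ltb_com X hG φ h.ft fun τ hτ => by rw [pow_two, pow_mul, h1 τ hτ, one_pow]
  have h3 : Gm.pr (φ (X.fb a)) * Gm.pr (φ (X.t a)) = Gm.pr (φ (X.t a)) * Gm.pr (φ (X.fb a)) := by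
    rw [← map_mul, h2, map_mul]
  have h4 := gm_comm Gm h3
  rw [h2] at h4
  have h5 : Gm.z (fun k => iv (Gm.M.c k) (Gm.pr (φ (X.fb a))) (Gm.pr (φ (X.t a)))) = Gm.z 0 := by
    rw [gm_z0]
    exact right_eq_mul.1 h4
  have h6 := Gm.zinj h5
  funext k
  have h7 := congrFun h6 k
  rw [h.pr, h.pr, par_t X hp hζ hc hg (rh_tw Gm X hp hζ hc g) ha] at h7
  show iv (Gm.M.c k) (Gm.M.e (Gm.M.y a.1)) (rh X c g (X.fb a)) = 0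
  rw [iv_swap, h7]
  exact neg_zero

end H51.MT
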