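import Pool.Agent.H51.MT.Una
import Pool.Agent.H1.AR.ChC

/-!
# H51/MT: the map `V' → V` and the pairing `Lm η` on `V' × V`

* `yv Dg e = q y_j` for `e = q H j`; `vp Dg : V' → V` linear, `vp (bs e) = yv e`, `vp (q x) = q (vp x)`, `vp (y' j) = y j`, `vp (mm X a σ) = X.bt a σ`.
* `Ea Dg η`: `η : Q → Z^*` additive, `η (H j)` vanishes on `om (y j) V`.
* `Lm Dg η (bs e) v = η q (om (q y_j) v)` for `e = q H j`: `Lm (q x) (q v) = Lm x v + η q (om (vp x) v)`, `Lm (y' j) v = 0`.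
* `tb X B a b = B (y a) (bt b (fb a))`, `Iv Dg B`: `B` is invariant. `Pb X η b a = Lm (mm b (fb a)) (y a)`. `Be η x x' = Lm x' (vp x) + Lm x (vp x')`, `qe η x = Lm x (vp x)`. `Bt θ x x' = θ (om (vp x) (vp x'))`.
-/

set_option autoImplicit false
set_option linter.dupNamespace false

open scoped NumberField
open IsDedekindDomain
open scoped Classical

noncomputable section

namespace H51.MT

open H63.MA H38.BB H38.BG H57.PC H57.BRA H89.BRG H1.AR

variable {p u w N : ℕ} {R Q : Type} [Group R] [Group Q]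

theorem dt_add' {m : ℕ} (θ x y : Fin m → ZMod p) : dt θ (x + y) = dt θ x + dt θ y := by
  unfold dt
  rw [← Finset.sum_add_distrib]
  exact Finset.sum_congr rfl fun k _ => mul_add _ _ _

theorem dt_ladd {m : ℕ} (θ θ' x : Fin m → ZMod p) : dt (θ + θ') x = dt θ x + dt θ' x := by
  unfold dt
  rw [← Finset.sum_add_distrib]
  exact Finset.sum_congr rfl fun k _ => add_mul _ _ _

theorem dt_smul' {m : ℕ} (θ : Fin m → ZMod p) (c : ZMod p) (x : Fin m → ZMod p) :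
    dt θ (c • x) = c * dt θ x := by
  unfold dt
  rw [Finset.mul_sum]
  refine Finset.sum_congr rfl fun k _ => ?_
  rw [Pi.smul_apply, smul_eq_mul]
  ring

theorem dt_lsmul {m : ℕ} (θ : Fin m → ZMod p) (c : ZMod p) (x : Fin m → ZMod p) :
    dt (c • θ) x = c * dt θ x := by
  unfold dt
  rw [Finset.mul_sum]
  refine Finset.sum_congr rfl fun k _ => ?_
  rw [Pi.smul_apply, smul_eq_mul]
  ring

theorem dt_zero' {m : ℕ} (θ : Fin m → ZMod p) : dt θ (0 : Fin m → ZMod p) = 0 := by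
  unfold dt
  exact Finset.sum_eq_zero fun k _ => mul_zero _

theorem dt_lzero {m : ℕ} (x : Fin m → ZMod p) : dt (0 : Fin m → ZMod p) x = 0 := by
  unfold dt
  exact Finset.sum_eq_zero fun k _ => zero_mul _

theorem dt_neg' {m : ℕ} (θ x : Fin m → ZMod p) : dt θ (-x) = -dt θ x := by
  rw [← neg_one_smul (ZMod p) x, dt_smul']
  ring

theorem dt_lneg {m : ℕ} (θ x : Fin m → ZMod p) : dt (-θ) x = -dt θ x := by
  rw [← neg_one_smul (ZMod p) θ, dt_lsmul]
  ring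

theorem dt_lsub {m : ℕ} (θ θ' x : Fin m → ZMod p) : dt (θ - θ') x = dt θ x - dt θ' x := by
  rw [sub_eq_add_neg, dt_ladd, dt_lneg, sub_eq_add_neg]

theorem dt_sub' {m : ℕ} (θ x y : Fin m → ZMod p) : dt θ (x - y) = dt θ x - dt θ y := by
  rw [sub_eq_add_neg, dt_add', dt_neg', sub_eq_add_neg]

theorem dt_sum' {m : ℕ} {ι : Type} (θ : Fin m → ZMod p) (s : Finset ι) (f : ι → Fin m → ZMod p) :
    dt θ (∑ i ∈ s, f i) = ∑ i ∈ s, dt θ (f i) := by
  induction s using Finset.induction_on with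
  | empty => rw [Finset.sum_empty, Finset.sum_empty, dt_zero']
  | insert a s ha ih => rw [Finset.sum_insert ha, Finset.sum_insert ha, dt_add', ih]

/-- the conditions on the functionals -/
structure Ea (Dg : MG p u w N R Q) (η : Q → Fin w → ZMod p) : Prop where
  mul : ∀ q q', η (q * q') = η q + η q'
  van : ∀ j, ∀ h ∈ Dg.H j, ∀ x, dt (η h) (Dg.om (Dg.y j) x) = 0

theorem Ea.one {Dg : MG p u w N R Q} {η : Q → Fin w → ZMod p} (h : Ea Dg η) : η 1 = 0 := by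
  have h1 := h.mul 1 1
  rw [mul_one] at h1
  exact left_eq_add.1 h1

theorem Ea.inv {Dg : MG p u w N R Q} {η : Q → Fin w → ZMod p} (h : Ea Dg η) (q : Q) :
    η q⁻¹ = -η q := by
  have h1 := h.mul q⁻¹ q
  rw [inv_mul_cancel, h.one] at h1
  exact eq_neg_of_add_eq_zero_left h1.symm

theorem om_self (Dg : MG p u w N R Q) (x : Fin u → ZMod p) : Dg.om x x = 0 := by
  funext k
  rw [← Dg.iv_om]
  exact sub_self _

theorem om_neg (Dg : MG p u w N R Q) (x y : Fin u → ZMod p) : Dg.om x y = -Dg.om y x := by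
  funext k
  rw [Pi.neg_apply, ← Dg.iv_om, ← Dg.iv_om]
  unfold iv
  ring

/-- invariant forms -/
def Iv (Dg : MG p u w N R Q)
    (B : (Fin u → ZMod p) →ₗ[ZMod p] (Fin u → ZMod p) →ₗ[ZMod p] ZMod p) : Prop :=
  ∀ q x y, B (Dg.act q x) (Dg.act q y) = B x y

/-- the vector of a point -/
def yv (Dg : MG p u w N R Q) (e : Σ j : Fin N, Q ⧸ Dg.H j) : Fin u → ZMod p :=
  Dg.act (Quotient.out e.2) (Dg.y e.1)

theorem yv_mk (Dg : MG p u w N R Q) (j : Fin N) (q : Q) :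
    yv Dg ⟨j, (QuotientGroup.mk q : Q ⧸ Dg.H j)⟩ = Dg.act q (Dg.y j) := by
  unfold yv
  obtain ⟨h, hh⟩ := QuotientGroup.mk_out_eq_mul (Dg.H j) q
  change Dg.act (Quotient.out (QuotientGroup.mk q : Q ⧸ Dg.H j)) (Dg.y j) = _
  rw [hh, Dg.act_mul, Dg.fixy j _ h.2]

variable [Fintype Q]

theorem yv_em (Dg : MG p u w N R Q) (q : Q) (e : Ei Dg) : yv Dg (em Dg q e) = Dg.act q (yv Dg e) := by
  obtain ⟨j, c⟩ := e
  induction c using QuotientGroup.induction_on with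
  | H s =>
    have h3 : em Dg q ⟨j, (QuotientGroup.mk s : Q ⧸ Dg.H j)⟩ = ⟨j, QuotientGroup.mk (q * s)⟩ := rfl
    rw [h3, yv_mk, yv_mk, Dg.act_mul]

/-- the map to `V` -/
def vp (Dg : MG p u w N R Q) : (Fin (uE Dg) → ZMod p) →ₗ[ZMod p] (Fin u → ZMod p) where
  toFun x := ∑ k, x k • yv Dg ((ix Dg).symm k)
  map_add' x y := by
    rw [← Finset.sum_add_distrib]
    exact Finset.sum_congr rfl fun k _ => by rw [Pi.add_apply, add_smul]
  map_smul' c x := by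
    rw [RingHom.id_apply, Finset.smul_sum]
    exact Finset.sum_congr rfl fun k _ => by rw [Pi.smul_apply, smul_eq_mul, mul_smul]

theorem vp_apply (Dg : MG p u w N R Q) (x : Fin (uE Dg) → ZMod p) :
    vp Dg x = ∑ k, x k • yv Dg ((ix Dg).symm k) := rfl

theorem vp_bs (Dg : MG p u w N R Q) (e : Ei Dg) : vp Dg (bs Dg e) = yv Dg e := by
  rw [vp_apply, Finset.sum_eq_single (ix Dg e)]
  · unfold bs
    rw [Pi.single_eq_same, one_smul, Equiv.symm_apply_apply]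
  · intro k _ hk
    unfold bs
    rw [Pi.single_eq_of_ne hk, zero_smul]
  · intro h
    exact absurd (Finset.mem_univ _) h

/-- sums over the points -/
theorem sum_em {A : Type} [AddCommMonoid A] (Dg : MG p u w N R Q) (q : Q) (f : Ei Dg → A) :
    ∑ k, f ((ix Dg).symm k) = ∑ k, f (em Dg q ((ix Dg).symm k)) := by
  rw [Equiv.sum_comp (ix Dg).symm f, Equiv.sum_comp (ix Dg).symm fun e => f (em Dg q e)]
  refine (Fintype.sum_bijective (em Dg q) ?_ _ _ fun e => rfl).symm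
  refine ⟨fun e e' h => ?_, fun e => ⟨em Dg q⁻¹ e, ?_⟩⟩
  · have h1 := congrArg (em Dg q⁻¹) h
    rwa [em_inv, em_inv] at h1
  · rw [← em_mul, mul_inv_cancel, em_one]

theorem pe_em (Dg : MG p u w N R Q) (q : Q) (x : Fin (uE Dg) → ZMod p) (e : Ei Dg) :
    pe Dg q x (ix Dg (em Dg q e)) = x (ix Dg e) := by
  rw [pe_apply, Equiv.symm_apply_apply, em_inv]

theorem vp_pe (Dg : MG p u w N R Q) (q : Q) (x : Fin (uE Dg) → ZMod p) :
    vp Dg (pe Dg q x) = Dg.act q (vp Dg x) := by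
  have h1 := sum_em Dg q fun e => pe Dg q x (ix Dg e) • yv Dg e
  simp only [Equiv.apply_symm_apply] at h1
  rw [vp_apply, h1, vp_apply, map_sum]
  refine Finset.sum_congr rfl fun k _ => ?_
  rw [pe_em, Equiv.apply_symm_apply, yv_em, map_smul]

theorem vp_y (Dg : MG p u w N R Q) (j : Fin N) : vp Dg ((Un Dg).y j) = Dg.y j := by
  change vp Dg (bs Dg ⟨j, QuotientGroup.mk 1⟩) = _
  rw [vp_bs, yv_mk, Dg.act_one]

/-- the pairing -/
def Lm (Dg : MG p u w N R Q) (η : Q → Fin w → ZMod p) :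
    (Fin (uE Dg) → ZMod p) →ₗ[ZMod p] (Fin u → ZMod p) →ₗ[ZMod p] ZMod p :=
  LinearMap.mk₂ (ZMod p) (fun x v => ∑ k, x k * dt (η (Quotient.out ((ix Dg).symm k).2))
    (Dg.om (yv Dg ((ix Dg).symm k)) v))
    (fun x x' v => by
      rw [← Finset.sum_add_distrib]
      exact Finset.sum_congr rfl fun k _ => by rw [Pi.add_apply, add_mul])
    (fun c x v => by
      rw [smul_eq_mul, Finset.mul_sum]
      exact Finset.sum_congr rfl fun k _ => by rw [Pi.smul_apply, smul_eq_mul, mul_assoc])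
    (fun x v v' => by
      rw [← Finset.sum_add_distrib]
      exact Finset.sum_congr rfl fun k _ => by rw [map_add, dt_add', mul_add])
    (fun c x v => by
      rw [smul_eq_mul, Finset.mul_sum]
      exact Finset.sum_congr rfl fun k _ => by
        rw [map_smul, dt_smul']
        ring)

theorem Lm_apply (Dg : MG p u w N R Q) (η : Q → Fin w → ZMod p) (x : Fin (uE Dg) → ZMod p)
    (v : Fin u → ZMod p) : Lm Dg η x v = ∑ k, x k * dt (η (Quotient.out ((ix Dg).symm k).2))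
    (Dg.om (yv Dg ((ix Dg).symm k)) v) := rfl

/-- the coefficient of a point -/
def lc (Dg : MG p u w N R Q) (η : Q → Fin w → ZMod p) (e : Ei Dg) (v : Fin u → ZMod p) : ZMod p :=
  dt (η (Quotient.out e.2)) (Dg.om (yv Dg e) v)

theorem lc_mk (Dg : MG p u w N R Q) {η : Q → Fin w → ZMod p} (hη : Ea Dg η) (j : Fin N) (q : Q)
    (v : Fin u → ZMod p) : lc Dg η ⟨j, (QuotientGroup.mk q : Q ⧸ Dg.H j)⟩ v =
      dt (η q) (Dg.om (Dg.act q (Dg.y j)) v) := by
  unfold lc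
  rw [yv_mk]
  obtain ⟨h, hh⟩ := QuotientGroup.mk_out_eq_mul (Dg.H j) q
  change dt (η (Quotient.out (QuotientGroup.mk q : Q ⧸ Dg.H j))) _ = _
  have h1 : Dg.om (Dg.act q (Dg.y j)) v = Dg.om (Dg.y j) (Dg.act q⁻¹ v) := by
    rw [← om_act Dg q⁻¹, ← Dg.act_mul, inv_mul_cancel, Dg.act_one]
  rw [hh, hη.mul, dt_ladd, h1, hη.van j _ h.2, add_zero]

theorem lc_em (Dg : MG p u w N R Q) {η : Q → Fin w → ZMod p} (hη : Ea Dg η) (q : Q) (e : Ei Dg)
    (v : Fin u → ZMod p) : lc Dg η (em Dg q e) (Dg.act q v) =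
      lc Dg η e v + dt (η q) (Dg.om (yv Dg e) v) := by
  obtain ⟨j, c⟩ := e
  induction c using QuotientGroup.induction_on with
  | H s =>
    have h3 : em Dg q ⟨j, (QuotientGroup.mk s : Q ⧸ Dg.H j)⟩ = ⟨j, QuotientGroup.mk (q * s)⟩ := rfl
    rw [h3, lc_mk Dg hη, lc_mk Dg hη, yv_mk, Dg.act_mul, om_act, hη.mul, dt_ladd, add_comm]

theorem Lm_act (Dg : MG p u w N R Q) {η : Q → Fin w → ZMod p} (hη : Ea Dg η) (q : Q)
    (x : Fin (uE Dg) → ZMod p) (v : Fin u → ZMod p) :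
    Lm Dg η (pe Dg q x) (Dg.act q v) = Lm Dg η x v + dt (η q) (Dg.om (vp Dg x) v) := by
  have h1 := sum_em Dg q fun e => pe Dg q x (ix Dg e) * lc Dg η e (Dg.act q v)
  simp only [Equiv.apply_symm_apply] at h1
  have h2 : Lm Dg η (pe Dg q x) (Dg.act q v) =
      ∑ k, pe Dg q x k * lc Dg η ((ix Dg).symm k) (Dg.act q v) := rfl
  have h3 : Lm Dg η x v = ∑ k, x k * lc Dg η ((ix Dg).symm k) v := rfl
  rw [h2, h1, h3, vp_apply, map_sum, LinearMap.sum_apply, dt_sum', ← Finset.sum_add_distrib]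
  refine Finset.sum_congr rfl fun k _ => ?_
  rw [pe_em, Equiv.apply_symm_apply, lc_em Dg hη, map_smul, LinearMap.smul_apply, dt_smul', mul_add]

theorem Lm_y (Dg : MG p u w N R Q) {η : Q → Fin w → ZMod p} (hη : Ea Dg η) (j : Fin N)
    (v : Fin u → ZMod p) : Lm Dg η ((Un Dg).y j) v = 0 := by
  have h3 : Lm Dg η ((Un Dg).y j) v = ∑ k, bs Dg ⟨j, QuotientGroup.mk 1⟩ k * lc Dg η ((ix Dg).symm k) v := rfl
  rw [h3, Finset.sum_eq_single (ix Dg ⟨j, QuotientGroup.mk 1⟩)]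
  · rw [Equiv.symm_apply_apply, lc_mk Dg hη, hη.one, dt_lzero, mul_zero]
  · intro k _ hk
    unfold bs
    rw [Pi.single_eq_of_ne hk, zero_mul]
  · intro h
    exact absurd (Finset.mem_univ _) h

/-- the symmetric form of `η` -/
def Be (Dg : MG p u w N R Q) (η : Q → Fin w → ZMod p) :
    (Fin (uE Dg) → ZMod p) →ₗ[ZMod p] (Fin (uE Dg) → ZMod p) →ₗ[ZMod p] ZMod p :=
  (Lm Dg η).compl₂ (vp Dg) + ((Lm Dg η).compl₂ (vp Dg)).flip

theorem Be_apply (Dg : MG p u w N R Q) (η : Q → Fin w → ZMod p) (x x' : Fin (uE Dg) → ZMod p) :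
    Be Dg η x x' = Lm Dg η x (vp Dg x') + Lm Dg η x' (vp Dg x) := rfl

/-- the quadratic form of `η` -/
def qe (Dg : MG p u w N R Q) (η : Q → Fin w → ZMod p) (x : Fin (uE Dg) → ZMod p) : ZMod p :=
  Lm Dg η x (vp Dg x)

theorem qe_add (Dg : MG p u w N R Q) (η : Q → Fin w → ZMod p) (x x' : Fin (uE Dg) → ZMod p) :
    qe Dg η (x + x') = qe Dg η x + qe Dg η x' + Be Dg η x x' := by
  rw [Be_apply]
  unfold qe
  rw [map_add, map_add, LinearMap.add_apply, map_add, map_add]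
  ring

theorem qe_act (Dg : MG p u w N R Q) {η : Q → Fin w → ZMod p} (hη : Ea Dg η) (q : Q)
    (x : Fin (uE Dg) → ZMod p) : qe Dg η ((Un Dg).act q x) = qe Dg η x := by
  change Lm Dg η (pe Dg q x) (vp Dg (pe Dg q x)) = _
  rw [vp_pe, Lm_act Dg hη, om_self, dt_zero', add_zero]
  rfl

theorem Be_iv (Dg : MG p u w N R Q) {η : Q → Fin w → ZMod p} (hη : Ea Dg η) :
    Iv (Un Dg) (Be Dg η) := by
  intro q x x'
  change Be Dg η (pe Dg q x) (pe Dg q x') = _
  rw [Be_apply, vp_pe, vp_pe, Lm_act Dg hη, Lm_act Dg hη, om_neg Dg (vp Dg x') (vp Dg x), dt_neg',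
    Be_apply]
  ring

/-- the form of a functional -/
def Bt (Dg : MG p u w N R Q) (θ : Fin w → ZMod p) :
    (Fin (uE Dg) → ZMod p) →ₗ[ZMod p] (Fin (uE Dg) → ZMod p) →ₗ[ZMod p] ZMod p :=
  LinearMap.mk₂ (ZMod p) (fun x x' => dt θ (Dg.om (vp Dg x) (vp Dg x')))
    (fun x y z => by rw [map_add, map_add, LinearMap.add_apply, dt_add'])
    (fun c x z => by rw [map_smul, map_smul, LinearMap.smul_apply, dt_smul', smul_eq_mul])
    (fun x y z => by rw [map_add, map_add, dt_add'])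
    (fun c x z => by rw [map_smul, map_smul, dt_smul', smul_eq_mul])

theorem Bt_apply (Dg : MG p u w N R Q) (θ : Fin w → ZMod p) (x x' : Fin (uE Dg) → ZMod p) :
    Bt Dg θ x x' = dt θ (Dg.om (vp Dg x) (vp Dg x')) := rfl

theorem Bt_iv (Dg : MG p u w N R Q) (θ : Fin w → ZMod p) : Iv (Un Dg) (Bt Dg θ) := by
  intro q x x'
  change Bt Dg θ (pe Dg q x) (pe Dg q x') = _
  rw [Bt_apply, vp_pe, vp_pe, om_act, Bt_apply]

variable {Dg : MG p u w N R Q} {K : Type} [Field K] [NumberField K] {Ω : Type} [Field Ω]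
  [Algebra K Ω] {ζ : K}

theorem vp_mm (X : AD Dg K Ω ζ) (a : X.Lb) (σ : Gal(Ω/K)) : vp Dg (mm X a σ) = X.bt a σ := by
  unfold mm AD.bt AD.cor
  rw [map_sum]
  refine Finset.sum_congr rfl fun c _ => ?_
  rw [map_smul]
  congr 1
  change vp Dg (pe Dg (X.φQ (X.rep a.1 c)) ((Un Dg).y a.1)) = _
  rw [vp_pe, vp_y]

/-- the bilinear symbol -/
def tb (X : AD Dg K Ω ζ)
    (B : (Fin u → ZMod p) →ₗ[ZMod p] (Fin u → ZMod p) →ₗ[ZMod p] ZMod p) (a b : X.Lb) : ZMod p :=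
  B (Dg.y a.1) (X.bt b (X.fb a))

/-- the phase of a pair -/
def Pb (X : AD Dg K Ω ζ) (η : Q → Fin w → ZMod p) (b a : X.Lb) : ZMod p :=
  Lm Dg η (mm X b (X.fb a)) (Dg.y a.1)

theorem Pb_tb (X : AD Dg K Ω ζ) {η : Q → Fin w → ZMod p} (hη : Ea Dg η) (b a : X.Lb) :
    Pb X η b a = tb (UX X) (Be Dg η) a b := by
  change _ = Be Dg η ((Un Dg).y a.1) (mm X b (X.fb a))
  rw [Be_apply, Lm_y Dg hη, vp_y, zero_add]
  rfl

theorem sy_tb (X : AD Dg K Ω ζ) (θ : Fin w → ZMod p) (a b : X.Lb) :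
    dt θ (X.sy a b) = tb (UX X) (Bt Dg θ) a b := by
  change _ = Bt Dg θ ((Un Dg).y a.1) (mm X b (X.fb a))
  rw [Bt_apply, vp_y, vp_mm]
  rfl

end H51.MT
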