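import Pool.Agent.H51.MT.Unb
import Pool.Agent.H1.AR.Sty
import Pool.Agent.H1.AR.FrA

/-!
# [H51 MT STA] refined states (60-90 lines)

`Stt X`: class, class vector, and for every `v ∈ S0` an element of `V'`. For a class `j` and a class vector `κ` let `rf X j κ` be a good label of class `j` with class vector `κ` if there is one. For a good label `a`: `sty_bet` for `UX X`, `g = {rf}`, `g' = {a}` (`Ok` families; `qt` of a single label is given by the class vector: `qvec`) at `v ∈ S0`,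
`P = X.P.P v`: `mm a σ = mm rf σ + M - pe (φQ σ) M` for `σ ∈ dec (P v)` (`(UX X).bet {a} = mm X a`, `Finset.sum_singleton`). `stt X a` has the component `M` at `v` (chosen).
* `stt_bt`: for good labels of equal state: same class and class vector, so the same `rf`, and the same `M`.
* `stt_v`: `vp_mm`.
-/

set_option autoImplicit false
set_option linter.dupNamespace false

open scoped NumberField Pointwise
open IsDedekindDomain NumberField
open scoped Classical

noncomputable section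

namespace H51.MT

open H63.MA H38.BB H38.BG H57.PC H57.BRA H89.BRG H1.AR

variable {p u w N : ℕ} {R Q : Type} [Group R] [Group Q]
variable [Fintype Q] {Dg : MG p u w N R Q} {K : Type} [Field K] [NumberField K] {Ω : Type}
  [Field Ω] [Algebra K Ω] [IsAlgClosure K Ω] {ζ : K} (X : AD Dg K Ω ζ)

/-- states -/
abbrev Stt : Type :=
  Fin N × ((Σ j : Fin N, Fin (X.A j).D.r) → ZMod p) × (X.D.S0 → Fin (uE Dg) → ZMod p)

/-- the reference label -/
def rf (j : Fin N) (κ : (Σ j : Fin N, Fin (X.A j).D.r) → ZMod p) : Option X.Lb :=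
  if h : ∃ a : X.Lb, X.Gd a ∧ a.1 = j ∧ qvec X a = κ then some h.choose else none

/-- the element `M` -/
def mst (a : X.Lb) (v : X.D.S0) : Fin (uE Dg) → ZMod p :=
  if h : ∃ M : Fin (uE Dg) → ZMod p, ∃ b, rf X a.1 (qvec X a) = some b ∧
    ∀ σ ∈ dec (K := K) (X.P.P v), mm X a σ = mm X b σ + M - pe Dg (X.φQ σ) M then h.choose else 0

/-- the state of a label -/
def stt (a : X.Lb) : Stt X := (a.1, qvec X a, mst X a)

omit [Fintype Q] [IsAlgClosure K Ω] in
private theorem sta_ok {a : X.Lb} (ha : X.Gd a) : X.Ok {a} := by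
  refine ⟨fun b hb => ?_, fun b hb b' hb' h => ?_⟩
  · rw [Finset.mem_singleton.1 hb]
    exact ha
  · exact absurd ((Finset.mem_singleton.1 hb).trans (Finset.mem_singleton.1 hb').symm) h

omit [Fintype Q] [IsAlgClosure K Ω] in
private theorem sta_qt {a c : X.Lb} (h : qvec X a = qvec X c) (j : Fin N) :
    X.qt {a} j = X.qt {c} j := by
  have key : ∀ (a : X.Lb) (k : Fin (X.A j).D.r), X.qt {a} j k = qvec X a ⟨j, k⟩ := by
    intro a k
    unfold AD.qt
    rw [Finset.sum_singleton]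
    unfold qvec
    by_cases h1 : a.1 = j
    · rw [dif_pos h1, dif_pos h1]
    · rw [dif_neg h1, dif_neg h1]
      rfl
  funext k
  rw [key, key, h]

omit [IsAlgClosure K Ω] in
private theorem sta_bet (a : X.Lb) (σ : Gal(Ω/K)) : (UX X).bet {a} σ = mm X a σ := by
  exact Finset.sum_singleton (fun b : (UX X).Lb => (UX X).bt b σ) a

omit [Fintype Q] [IsAlgClosure K Ω] in
private theorem sta_rf {a : X.Lb} (ha : X.Gd a) :
    ∃ c, rf X a.1 (qvec X a) = some c ∧ X.Gd c ∧ qvec X c = qvec X a := by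
  have h : ∃ c : X.Lb, X.Gd c ∧ c.1 = a.1 ∧ qvec X c = qvec X a := ⟨a, ha, rfl, rfl⟩
  refine ⟨h.choose, ?_, h.choose_spec.1, h.choose_spec.2.2⟩
  unfold rf
  rw [dif_pos h]

private theorem sta_spec (hp : p.Prime) (hp2 : MOne p K) (hζ : IsPrimitiveRoot ζ p) {a : X.Lb}
    (ha : X.Gd a) (v : X.D.S0) : ∃ c, rf X a.1 (qvec X a) = some c ∧
      ∀ σ ∈ dec (K := K) (X.P.P v), mm X a σ = mm X c σ + mst X a v - pe Dg (X.φQ σ) (mst X a v) := by
  obtain ⟨c, h1, h2, h3⟩ := sta_rf X ha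
  have h4 : ∃ M : Fin (uE Dg) → ZMod p, ∃ b, rf X a.1 (qvec X a) = some b ∧
      ∀ σ ∈ dec (K := K) (X.P.P v), mm X a σ = mm X b σ + M - pe Dg (X.φQ σ) M := by
    obtain ⟨M, hM⟩ := sty_bet (UX X) hp hp2 hζ (g := {c}) (g' := {a}) (sta_ok X h2) (sta_ok X ha)
      (fun j => sta_qt X h3 j) (v := v) v.2 (X.P.prime v) (X.P.under v)
    refine ⟨M, c, h1, fun σ hσ => ?_⟩
    have h5 := hM σ hσ
    rw [sta_bet, sta_bet] at h5
    exact h5
  have h6 : mst X a v = h4.choose := by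
    unfold mst
    rw [dif_pos h4]
  rw [h6]
  exact h4.choose_spec

theorem stt_bt (hp : p.Prime) (hp2 : MOne p K) (hζ : IsPrimitiveRoot ζ p) {a b : X.Lb}
    (ha : X.Gd a) (hb : X.Gd b) (h : stt X a = stt X b) : ∀ v ∈ X.D.S0,
      ∀ σ ∈ dec (K := K) (X.P.P v), mm X a σ = mm X b σ := by
  intro v hv σ hσ
  have e1 : a.1 = b.1 := congrArg Prod.fst h
  have e2 : qvec X a = qvec X b := congrArg (fun z : Stt X => z.2.1) h
  have e3 : mst X a = mst X b := congrArg (fun z : Stt X => z.2.2) h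
  obtain ⟨c, h1, h2⟩ := sta_spec X hp hp2 hζ ha ⟨v, hv⟩
  obtain ⟨c', h3, h4⟩ := sta_spec X hp hp2 hζ hb ⟨v, hv⟩
  have h5 : c = c' := by
    rw [e1, e2, h3] at h1
    exact (Option.some.inj h1).symm
  rw [h2 σ hσ, h4 σ hσ, e3, h5]

theorem stt_v (hp : p.Prime) (hp2 : MOne p K) (hζ : IsPrimitiveRoot ζ p) {a b : X.Lb}
    (ha : X.Gd a) (hb : X.Gd b) (h : stt X a = stt X b) : ∀ v ∈ X.D.S0,
      ∀ σ ∈ dec (K := K) (X.P.P v), X.bt a σ = X.bt b σ := by
  intro v hv σ hσ
  rw [← vp_mm, ← vp_mm, stt_bt X hp hp2 hζ ha hb h v hv σ hσ]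

end H51.MT
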