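import Pool.Agent.H51.MT.Tba
import Pool.Agent.H1.AR.Nta

/-!
# [H51 MT TBC] bilinear symbols separate families over different primes (80-120 lines)

`h = h₁ ∪ h₂`, `κ b = (if b ∈ h₁ then 1 else 0) - (if b ∈ h₂ then 1 else 0)`, so `∑ b ∈ h, κ b * tb X B a b = ∑ b ∈ h₁, tb a b - ∑ b ∈ h₂, tb a b`. `y` from `tba`, `tba_val`. If `y` is not a `p`-th power: `nta` with
`f z = ∑ b ∈ h, κ b * tb X B ⟨i, z⟩ b` and `B = S`. If `y` is a `p`-th power: `kk y γ = 0` for all `γ` (`kk_eq_zero_iff`). By `hne` there is a prime `v` under exactly one of `h₁`, `h₂`; let `b` be the label over `v` (in `h₁` or `h₂`; all other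
`b' ∈ h` have `un b' ≠ un b`, because `h₁`, `h₂` are `Ok`), `κ b = 1` or `-1`. As in `nt1` (Pool/Agent/H1/AR/Ntb.lean): `g` with `φQ g = q`, `τ = g * X.t b * g⁻¹ = rsK γ` (`ine_res`), `bt b τ = act q (y b)` (`cy_conj`, `ltb_y`), `bt b' τ = 0` for the others (`ine_bt`). So
`0 = kk y γ = κ b * B (y i) (act q (y j)) ≠ 0` (`ZMod p` is a field).
-/

set_option autoImplicit false
set_option linter.dupNamespace false

open scoped NumberField Pointwise
open IsDedekindDomain NumberField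
open scoped Classical

noncomputable section

namespace H51.MT

open H63.MA H38.BB H38.BG H57.PC H57.BRA H89.BRG H1.AR

variable {p u w N : ℕ} {R Q : Type} [Group R] [Group Q]
variable [Fintype Q] {Dg : MG p u w N R Q} {K : Type} [Field K] [NumberField K] {Ω : Type}
  [Field Ω] [Algebra K Ω] [IsAlgClosure K Ω] {ζ : K} (X : AD Dg K Ω ζ)

theorem tbc (hp : p.Prime) (hp2 : MOne p K) (hζ : IsPrimitiveRoot ζ p)
    {B : (Fin u → ZMod p) →ₗ[ZMod p] (Fin u → ZMod p) →ₗ[ZMod p] ZMod p} (hB : Iv Dg B)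
    (i j : Fin N) (hq : ∃ q, B (Dg.y i) (Dg.act q (Dg.y j)) ≠ 0) {h₁ h₂ : Finset X.Lb}
    (h1 : X.Ok h₁) (h2 : X.Ok h₂) (hj1 : ∀ b ∈ h₁, b.1 = j) (hj2 : ∀ b ∈ h₂, b.1 = j)
    (hne : h₁.image X.un ≠ h₂.image X.un) (S : Finset (Pl K)) :
    ∃ a : Pl (X.F i), X.Gd ⟨i, a⟩ ∧ X.un ⟨i, a⟩ ∉ S ∧
      ∑ b ∈ h₁, tb X B ⟨i, a⟩ b ≠ ∑ b ∈ h₂, tb X B ⟨i, a⟩ b := by
  obtain ⟨κ, hκ⟩ : ∃ κ : X.Lb → ZMod p,
      ∀ b, κ b = (if b ∈ h₁ then 1 else 0) - (if b ∈ h₂ then 1 else 0) := ⟨_, fun _ => rfl⟩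
  have hsum : ∀ f : X.Lb → ZMod p, ∑ b ∈ h₁ ∪ h₂, κ b * f b = ∑ b ∈ h₁, f b - ∑ b ∈ h₂, f b := by
    intro f
    have h3 : ∀ b ∈ h₁ ∪ h₂, κ b * f b = (if b ∈ h₁ then f b else 0) - (if b ∈ h₂ then f b else 0) := by
      intro b _
      rw [hκ, sub_mul, ite_mul, ite_mul, one_mul, zero_mul]
    rw [Finset.sum_congr rfl h3, Finset.sum_sub_distrib, Finset.sum_ite_mem, Finset.sum_ite_mem,
      Finset.inter_eq_right.2 Finset.subset_union_left, Finset.inter_eq_right.2 Finset.subset_union_right]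
  obtain ⟨y, hy⟩ := tba X hp hζ hB i (h₁ ∪ h₂) κ
  have hN : Ntr X i (fun z => ∑ b ∈ h₁ ∪ h₂, κ b * tb X B ⟨i, z⟩ b) := by
    refine nta X hp hp2 hζ i (Y := y) (fun hY => ?_) fun x hx _ => tba_val X B i (h₁ ∪ h₂) κ hy hx
    -- the label over a prime under exactly one of the families
    have hex : ∃ b ∈ h₁ ∪ h₂, κ b ≠ 0 ∧ (∀ b' ∈ h₁ ∪ h₂, X.un b' = X.un b → b' = b) ∧
        b.1 = j ∧ X.Gd b := by
      have h3 : ∃ v, ¬ (v ∈ h₁.image X.un ↔ v ∈ h₂.image X.un) := by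
        by_contra hcon
        push Not at hcon
        exact hne (Finset.ext hcon)
      obtain ⟨v, hv⟩ := h3
      have hp1 : (1 : ZMod p) ≠ 0 := by
        have : Fact p.Prime := ⟨hp⟩
        exact one_ne_zero
      by_cases hv1 : v ∈ h₁.image X.un
      · have hv2 : v ∉ h₂.image X.un := fun h => hv ⟨fun _ => h, fun _ => hv1⟩
        obtain ⟨b, hb, hbv⟩ := Finset.mem_image.1 hv1
        have hb2 : b ∉ h₂ := fun h => hv2 (Finset.mem_image.2 ⟨b, h, hbv⟩)
        refine ⟨b, Finset.mem_union_left _ hb, ?_, ?_, hj1 b hb, h1.1 b hb⟩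
        · rw [hκ, if_pos hb, if_neg hb2, sub_zero]
          exact hp1
        · intro b' hb' hu
          rcases Finset.mem_union.1 hb' with h | h
          · by_contra hbb
            exact h1.2 b' h b hb hbb hu
          · exact absurd (Finset.mem_image.2 ⟨b', h, hu.trans hbv⟩) hv2
      · have hv2 : v ∈ h₂.image X.un := by
          by_contra h
          exact hv ⟨fun h' => absurd h' hv1, fun h' => absurd h' h⟩
        obtain ⟨b, hb, hbv⟩ := Finset.mem_image.1 hv2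
        have hb1 : b ∉ h₁ := fun h => hv1 (Finset.mem_image.2 ⟨b, h, hbv⟩)
        refine ⟨b, Finset.mem_union_right _ hb, ?_, ?_, hj2 b hb, h2.1 b hb⟩
        · rw [hκ, if_neg hb1, if_pos hb, zero_sub]
          exact neg_ne_zero.2 hp1
        · intro b' hb' hu
          rcases Finset.mem_union.1 hb' with h | h
          · exact absurd (Finset.mem_image.2 ⟨b', h, hu.trans hbv⟩) hv1
          · by_contra hbb
            exact h2.2 b' h b hb hbb hu
    obtain ⟨b, hb, hκb, hbu, hbj, hGb⟩ := hex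
    have hG : ∀ b' ∈ h₁ ∪ h₂, X.Gd b' := by
      intro b' hb'
      rcases Finset.mem_union.1 hb' with h | h
      · exact h1.1 b' h
      · exact h2.1 b' h
    have := fld_clo X i
    obtain ⟨q, hq⟩ := hq
    obtain ⟨g, hg⟩ := X.sur q
    have hv := un_not X hGb.1
    have hP := ltb_prime X hGb
    have ht := ltb_t X hGb
    have hφt : X.φQ (X.t b) = 1 := ine_phi X hv hP (ltb_under X hGb) ht
    have hP' : (g • PL X b).IsPrime := Ideal.IsPrime.smul g
    have hmem : ∀ x : 𝓞 Ω, x ∈ g • PL X b ↔ g⁻¹ • x ∈ PL X b := fun x =>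
      Ideal.mem_pointwise_smul_iff_inv_smul_mem
    have hu : (g • PL X b).under (𝓞 K) = (X.un b).asIdeal := by
      rw [← ltb_under X hGb]
      ext x
      change algebraMap (𝓞 K) (𝓞 Ω) x ∈ g • PL X b ↔ algebraMap (𝓞 K) (𝓞 Ω) x ∈ PL X b
      rw [hmem]
      have h1 : g⁻¹ • algebraMap (𝓞 K) (𝓞 Ω) x = algebraMap (𝓞 K) (𝓞 Ω) x := by
        apply NumberField.RingOfIntegers.ext
        exact g⁻¹.commutes (x : K)
      rw [h1]
    have hin : g * X.t b * g⁻¹ ∈ (g • PL X b).inertia Gal(Ω/K) := by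
      intro x
      change (g * X.t b * g⁻¹) • x - x ∈ g • PL X b
      rw [hmem, smul_sub, mul_smul, mul_smul, inv_smul_smul]
      exact ht (g⁻¹ • x)
    obtain ⟨γ, hγ, hγin⟩ := ine_res X hv hP' hu hin i
    have hbt : X.bt b (g * X.t b * g⁻¹) = Dg.act q (Dg.y j) := by
      rw [cy_conj X (bt_cy X hp hζ b) g hφt, ltb_y X hp hζ hGb, hg, hbj]
    have h5 := (kk_eq_zero_iff (Ω := Ω) hp (fld_zeta X hζ i) y).2 hY γ
    rw [hy γ, hγ, Finset.sum_eq_single b, hbt] at h5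
    · have : Fact p.Prime := ⟨hp⟩
      rcases mul_eq_zero.1 h5 with h | h
      · exact hκb h
      · exact hq h
    · intro b' hb' hne'
      rw [ine_bt X hp hζ hv (hG b' hb').1 (fun h => hne' (hbu b' hb' h)) hP' hu hin, map_zero,
        mul_zero]
    · intro h
      exact absurd hb h
  obtain ⟨a, ha, haS, hne'⟩ := hN S
  refine ⟨a, ha, haS, fun h => hne' ?_⟩
  change ∑ b ∈ h₁ ∪ h₂, κ b * tb X B ⟨i, a⟩ b = 0
  rw [hsum, h, sub_self]

end H51.MT
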