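import Pool.Agent.H51.MT.Tbd

/-!
# [H51 MT TBE] reciprocity for bilinear symbols (100-140 lines)

* `tbr`: `brg` with `E σ τ = Eb X B a b σ τ - Eb X B a' b' σ τ`, the product of the homomorphisms of `eb_fin` for `(a, b)` and `(a', b')`, `T = {un a, un b, un a', un b'}`, `lam` from `exists_rec_one K hp hp2 hζ` (`lam v = 1` for `v ∤ p` of prime norm; `ltb_na`, `ltb_nm`). On `dec (P v)`, `v ∈ S0`: `E = 0` by `h1`, `h2`
  (`Kl` with the function `0`). The sum over `T` of `lam v * (Eb a b (F v) (t v) - Eb a b (t v) (F v))`: for `v ≠ un a, un b` the value is `0` (`eb_fin`: `ρ (t v) = 1 = ρ 1`, so `Eb (F v) (t v) = Eb (F v) 1 = 0`), at `un a`, `un b` (different): `- tb a b + tb flip b a` by `eb_loc1`, `eb_loc2`.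
* `tbs`: `brg` with `E = Eb X B a b`, `T = {un a, un b}`. On `dec (P v)`: `bt a = bt b = β` and `B x y = q (x + y) - q x - q y`: `Eb σ τ = B (β σ) (σ β τ) = q (β (σ τ)) - q (β σ) - q (σ β τ)`, `q (σ β τ) = q (β τ)`: it is the coboundary of `∓ q ∘ bt a` (`Kl`: see the definition in Pool/Agent/H57/BRA/Def.lean for the sign; finite level:
  `(bt_cy X hp hζ a).lev`). `B` is symmetric (`hq` for `x + y` and `y + x`) and invariant (`hq`, `hqi`). The sum is `- tb a b + tb flip b a`, `tb flip b a = tb b a`.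
-/

set_option autoImplicit false
set_option linter.dupNamespace false

open scoped NumberField Pointwise
open IsDedekindDomain NumberField
open scoped Classical

noncomputable section

namespace H51.MT

open H63.MA H38.BB H38.BG H57.PC H57.BRA H89.BRG H1.AR

variable {p u w N : ℕ} {R Q : Type} [Group R] [Group Q]
variable [Fintype Q] {Dg : MG p u w N R Q} {K : Type} [Field K] [NumberField K] {Ω : Type}
  [Field Ω] [Algebra K Ω] [IsAlgClosure K Ω] {ζ : K} (X : AD Dg K Ω ζ)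

/-- the sum over a set containing the two places -/
theorem eb_sum [Finite R] (hp : p.Prime) (hζ : IsPrimitiveRoot ζ p) (hz : Z2 p K)
    {c : Gal(Ω/K) →* R} (hc : X.IsC c)
    {B : (Fin u → ZMod p) →ₗ[ZMod p] (Fin u → ZMod p) →ₗ[ZMod p] ZMod p} (hB : Iv Dg B)
    {a b : X.Lb} (ha : X.Gd a) (hb : X.Gd b) (hab : X.un a ≠ X.un b) {lam : Pl K → ZMod p}
    (hone : ∀ v : Pl K, ¬ Above p v → (nm v).Prime → lam v = 1) (T : Finset (Pl K))
    (hT : ∀ v ∈ T, v ∉ X.D.S0) (haT : X.un a ∈ T) (hbT : X.un b ∈ T) :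
    ∑ v ∈ T, lam v * (Eb X B a b (X.Fr.F v) (X.L.t v) - Eb X B a b (X.L.t v) (X.Fr.F v)) =
      -tb X B a b + tb X B.flip b a := by
  obtain ⟨ρ, -, h2, -, h4⟩ := eb_fin X hp hζ hc B ha hb
  have h5 : ({X.un a, X.un b} : Finset (Pl K)) ⊆ T := by
    intro v hv
    rcases Finset.mem_insert.1 hv with rfl | h
    · exact haT
    · rw [Finset.mem_singleton.1 h]
      exact hbT
  have hl : ∀ d : X.Lb, X.Gd d → lam (X.un d) = 1 := fun d hd =>
    hone _ (ltb_na X hd).2 (by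
      rw [← ltb_nm X hd]
      exact hd.2)
  rw [← Finset.sum_subset h5 (fun v hv hvT => ?_), Finset.sum_pair hab, hl a ha, hl b hb, one_mul,
    one_mul, eb_loc1 X hp hζ hz hc hB ha hb hab, eb_loc2 X hp hζ hz hc hB ha hb hab]
  have h6 : ρ (X.L.t v) = ρ 1 := by
    rw [map_one]
    refine h4 v (hT v hv) (fun h => hvT ?_) (fun h => hvT ?_)
    · rw [← h]
      exact Finset.mem_insert_self _ _
    · rw [← h]
      exact Finset.mem_insert_of_mem (Finset.mem_singleton_self _)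
  rw [h2 (X.Fr.F v) (X.Fr.F v) (X.L.t v) 1 rfl h6, h2 (X.L.t v) 1 (X.Fr.F v) (X.Fr.F v) h6 rfl,
    (eb_one X hp hζ B a b _).1, (eb_one X hp hζ B a b _).2, sub_zero, mul_zero]

omit [NumberField K] [IsAlgClosure K Ω] in
theorem eb_zero_lev : Lev (fun _ : Gal(Ω/K) => (0 : ZMod p)) :=
  ⟨⊥, inferInstance, fun _ _ _ => rfl⟩

theorem tbr [Finite R] (hp : p.Prime) (hp2 : MOne p K) (hζ : IsPrimitiveRoot ζ p) (hz : Z2 p K)
    {c : Gal(Ω/K) →* R} (hc : X.IsC c)
    {B : (Fin u → ZMod p) →ₗ[ZMod p] (Fin u → ZMod p) →ₗ[ZMod p] ZMod p} (hB : Iv Dg B)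
    {a b a' b' : X.Lb} (ha : X.Gd a) (hb : X.Gd b) (hab : X.un a ≠ X.un b) (ha' : X.Gd a')
    (hb' : X.Gd b') (hab' : X.un a' ≠ X.un b')
    (h1 : ∀ v ∈ X.D.S0, ∀ σ ∈ dec (K := K) (X.P.P v), X.bt a σ = X.bt a' σ)
    (h2 : ∀ v ∈ X.D.S0, ∀ σ ∈ dec (K := K) (X.P.P v), X.bt b σ = X.bt b' σ) :
    tb X B a b - tb X B.flip b a = tb X B a' b' - tb X B.flip b' a' := by
  obtain ⟨lam, hlam, hone⟩ := exists_rec_one K hp hp2 hζ
  obtain ⟨ρ, r1, r2, r3, r4⟩ := eb_fin X hp hζ hc B ha hb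
  obtain ⟨ρ', s1, s2, s3, s4⟩ := eb_fin X hp hζ hc B ha' hb'
  obtain ⟨T, hTd⟩ : ∃ T : Finset (Pl K), T = {X.un a, X.un b, X.un a', X.un b'} := ⟨_, rfl⟩
  have m1 : X.un a ∈ T := by rw [hTd]; simp
  have m2 : X.un b ∈ T := by rw [hTd]; simp
  have m3 : X.un a' ∈ T := by rw [hTd]; simp
  have m4 : X.un b' ∈ T := by rw [hTd]; simp
  have hT : ∀ v ∈ T, v ∉ X.D.S0 := by
    intro v hv
    rw [hTd] at hv
    simp only [Finset.mem_insert, Finset.mem_singleton] at hv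
    rcases hv with rfl | rfl | rfl | rfl
    · exact un_not X ha.1
    · exact un_not X hb.1
    · exact un_not X ha'.1
    · exact un_not X hb'.1
  have key := brg hp hp2 hζ hz (D := X.D) (L := X.L) X.P X.Fr (ρ.prod ρ') (eb_prod r1 s1)
    (fun σ τ => Eb X B a b σ τ - Eb X B a' b' σ τ)
    (fun σ => by
      rw [(eb_one X hp hζ B a b σ).1, (eb_one X hp hζ B a' b' σ).1, sub_zero])
    (fun σ => by
      rw [(eb_one X hp hζ B a b σ).2, (eb_one X hp hζ B a' b' σ).2, sub_zero])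
    (fun σ τ υ => by
      linear_combination eb_co X hp hζ hB a b σ τ υ - eb_co X hp hζ hB a' b' σ τ υ)
    (fun σ σ' τ τ' h h' => by
      rw [r2 σ σ' τ τ' (congrArg Prod.fst h) (congrArg Prod.fst h'),
        s2 σ σ' τ τ' (congrArg Prod.snd h) (congrArg Prod.snd h')])
    (fun v hv => ⟨fun _ => 0, eb_zero_lev, fun σ hσ τ hτ => by
      change (0 : ZMod p) = 0 + 0 + (Eb X B a b σ τ - Eb X B a' b' σ τ)
      unfold Eb
      rw [h1 v hv σ hσ, h2 v hv τ hτ, sub_self, add_zero, add_zero]⟩)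
    (fun v hv τ hτ => by
      change (ρ τ ^ p, ρ' τ ^ p) = 1
      rw [r3 v hv τ hτ, s3 v hv τ hτ]
      rfl)
    T hT
    (fun v hv hvT => by
      change (ρ (X.L.t v), ρ' (X.L.t v)) = 1
      rw [r4 v hv (fun h => hvT (h ▸ m1)) (fun h => hvT (h ▸ m2)),
        s4 v hv (fun h => hvT (h ▸ m3)) (fun h => hvT (h ▸ m4))]
      rfl) hlam
  have e1 := eb_sum X hp hζ hz hc hB ha hb hab hone T hT m1 m2
  have e2 := eb_sum X hp hζ hz hc hB ha' hb' hab' hone T hT m3 m4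
  have e3 : ∑ v ∈ T, lam v * ((Eb X B a b (X.Fr.F v) (X.L.t v) - Eb X B a' b' (X.Fr.F v) (X.L.t v)) -
      (Eb X B a b (X.L.t v) (X.Fr.F v) - Eb X B a' b' (X.L.t v) (X.Fr.F v))) =
      (-tb X B a b + tb X B.flip b a) - (-tb X B a' b' + tb X B.flip b' a') := by
    rw [← e1, ← e2, ← Finset.sum_sub_distrib]
    exact Finset.sum_congr rfl fun v _ => by ring
  have e4 := e3.symm.trans key
  linear_combination -e4

theorem tbs [Finite R] (hp : p.Prime) (hp2 : MOne p K) (hζ : IsPrimitiveRoot ζ p) (hz : Z2 p K)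
    {c : Gal(Ω/K) →* R} (hc : X.IsC c)
    {B : (Fin u → ZMod p) →ₗ[ZMod p] (Fin u → ZMod p) →ₗ[ZMod p] ZMod p}
    (q : (Fin u → ZMod p) → ZMod p) (hq : ∀ x y, q (x + y) = q x + q y + B x y)
    (hqi : ∀ g x, q (Dg.act g x) = q x) {a b : X.Lb} (ha : X.Gd a) (hb : X.Gd b)
    (hab : X.un a ≠ X.un b)
    (h1 : ∀ v ∈ X.D.S0, ∀ σ ∈ dec (K := K) (X.P.P v), X.bt a σ = X.bt b σ) :
    tb X B a b = tb X B b a := by
  have hsym : ∀ x y, B x y = B y x := by
    intro x y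
    have e1 := hq x y
    have e2 := hq y x
    rw [add_comm y x] at e2
    linear_combination e2 - e1
  have hB : Iv Dg B := by
    intro g x y
    have e1 := hq (Dg.act g x) (Dg.act g y)
    rw [← map_add, hqi, hqi, hqi] at e1
    linear_combination hq x y - e1
  obtain ⟨lam, hlam, hone⟩ := exists_rec_one K hp hp2 hζ
  obtain ⟨ρ, r1, r2, r3, r4⟩ := eb_fin X hp hζ hc B ha hb
  obtain ⟨T, hTd⟩ : ∃ T : Finset (Pl K), T = {X.un a, X.un b} := ⟨_, rfl⟩
  have m1 : X.un a ∈ T := by rw [hTd]; simp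
  have m2 : X.un b ∈ T := by rw [hTd]; simp
  have hT : ∀ v ∈ T, v ∉ X.D.S0 := by
    intro v hv
    rw [hTd] at hv
    simp only [Finset.mem_insert, Finset.mem_singleton] at hv
    rcases hv with rfl | rfl
    · exact un_not X ha.1
    · exact un_not X hb.1
  have key := brg hp hp2 hζ hz (D := X.D) (L := X.L) X.P X.Fr ρ r1 (Eb X B a b)
    (fun σ => (eb_one X hp hζ B a b σ).1) (fun σ => (eb_one X hp hζ B a b σ).2)
    (eb_co X hp hζ hB a b) r2
    (fun v hv => by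
      obtain ⟨E, hE, hl⟩ := (bt_cy X hp hζ a).lev
      refine ⟨fun σ => q (X.bt a σ), ⟨E, hE, fun σ τ hτ => by
        change q (X.bt a (σ * τ)) = q (X.bt a σ)
        rw [hl σ τ hτ]⟩, fun σ hσ τ hτ => ?_⟩
      change q (X.bt a (σ * τ)) = q (X.bt a σ) + q (X.bt a τ) + Eb X B a b σ τ
      unfold Eb
      rw [(bt_cy X hp hζ a).co σ τ, ← h1 v hv τ hτ, hq, hqi])
    r3 T hT (fun v hv hvT => r4 v hv (fun h => hvT (h ▸ m1)) (fun h => hvT (h ▸ m2))) hlam
  rw [eb_sum X hp hζ hz hc hB ha hb hab hone T hT m1 m2] at key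
  have e1 : tb X B.flip b a = tb X B b a := by
    unfold tb
    rw [LinearMap.flip_apply, hsym]
  rw [e1] at key
  linear_combination -key

end H51.MT
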