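import Pool.Agent.H51.MT.Tbb
import Pool.Agent.H51.MT.Tbc
import Pool.Agent.H51.MT.Tbe
import Pool.Agent.H51.MT.Sta
import Pool.Agent.H1.AR.Frm

/-!
# [H51 MT BLW] the fields of the bilinear data (110-160 lines)

`X : AD Dg K Ω ζ`, `UX X` the permutation data (same fields, labels, `un`, `fb` by `rfl`), `P b a = Pb X η b a = tb (UX X) (Be η) a b` (`Pb_tb`), `θ . sy a b = tb (UX X) (Bt θ) a b` (`sy_tb`). `m0_isC X` is the homomorphism needed for `tbr`, `tbs` over `UX X`; `(UX X).Gd = X.Gd` by `rfl`.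
* `blk i j θ`: some `q` with `(θ - η q) (om (y i) (q y j)) ≠ 0`; equivalently `(Bt θ + Be η) (y' i) (pe q (y' j)) ≠ 0`: `Be (y' i) (pe q (y' j)) = Lm (y' i) _ + Lm (pe q (y' j)) (y i) = 0 + Lm (pe q (y' j)) (act q (act q⁻¹ (y i))) = η q (om (y j) (act q⁻¹ (y i))) = - η q (om (y i) (act q (y j)))` (`Be_apply`, `Lm_act`, `Lm_y`, `om_act`, `om_neg`): `blk_iff`.
* `blk_symm`: `q⁻¹`, `om_act`, `om_neg`, `hη.inv`. `blk_sub`, `blk_add`: linear.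
* `bxs_sym`: for every coordinate `k` (`θ = Pi.single k 1`): `tbr` for `UX X`, `B = Bt θ`, `B.flip = - B` (`om_neg`), the labels `a, b` and the chosen labels of the same states; `stt_bt`.
* `bxp_sym`: `tbr` for `B = Be η` (`B.flip = B`). `bxp_self`: if there are such labels `a, b` of state `x`: `tbs` for `UX X`, `q = qe η` (`qe_add`, `qe_act`): `Pb b a = Pb a b`.
* `bchr`: `tbb` for `UX X`, `B = Bt θ + Be η` (invariant: `Bt_iv`, `Be_iv`); bound: `hI.mod` (as in `frm_chr`, Pool/Agent/H1/AR/Frm.lean). `bsep`: `tbc` for `UX X`, `blk_iff`, `S = h₁.image un ∪ h₂.image un`.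
-/

set_option autoImplicit false
set_option linter.dupNamespace false

open scoped NumberField Pointwise
open IsDedekindDomain NumberField
open scoped Classical

noncomputable section

namespace H51.MT

open H63.MA H38.BB H38.BG H57.PC H57.BRA H89.BRG H1.AR

variable {p u w N : ℕ} {R Q : Type} [Group R] [Group Q]
variable [Fintype Q] {Dg : MG p u w N R Q} {K : Type} [Field K] [NumberField K] {Ω : Type}
  [Field Ω] [Algebra K Ω] [IsAlgClosure K Ω] {ζ : K} (X : AD Dg K Ω ζ)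

variable [Fintype (Co X)] {d : ℕ} {D qq : ℝ}

/-- linked classes -/
def blk (Dg : MG p u w N R Q) (η : Q → Fin w → ZMod p) (i j : Fin N) (θ : Fin w → ZMod p) : Prop :=
  ∃ q, dt (θ - η q) (Dg.om (Dg.y i) (Dg.act q (Dg.y j))) ≠ 0

theorem blk_symm {η : Q → Fin w → ZMod p} (hη : Ea Dg η) (i j : Fin N) (θ : Fin w → ZMod p)
    (h : blk Dg η i j θ) : blk Dg η j i (-θ) := by
  obtain ⟨q, hq⟩ := h
  refine ⟨q⁻¹, fun h0 => hq ?_⟩
  have h1 : Dg.om (Dg.y j) (Dg.act q⁻¹ (Dg.y i)) = -Dg.om (Dg.y i) (Dg.act q (Dg.y j)) := by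
    rw [← om_neg Dg (Dg.act q (Dg.y j)) (Dg.y i), ← om_act Dg q (Dg.y j) (Dg.act q⁻¹ (Dg.y i)), ← Dg.act_mul,
      mul_inv_cancel, Dg.act_one]
  rw [h1, hη.inv, dt_neg', dt_lsub, dt_lneg, dt_lneg] at h0
  rw [dt_lsub]
  linear_combination h0

theorem blk_sub (η : Q → Fin w → ZMod p) (i j : Fin N) (θ θ' : Fin w → ZMod p)
    (h : ¬ blk Dg η i j θ) (h' : ¬ blk Dg η i j θ') : Van Dg i j (θ - θ') := by
  intro q
  have h1 : dt (θ - η q) (Dg.om (Dg.y i) (Dg.act q (Dg.y j))) = 0 := by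
    by_contra h0
    exact h ⟨q, h0⟩
  have h2 : dt (θ' - η q) (Dg.om (Dg.y i) (Dg.act q (Dg.y j))) = 0 := by
    by_contra h0
    exact h' ⟨q, h0⟩
  rw [dt_lsub] at h1 h2 ⊢
  linear_combination h1 - h2

theorem blk_add (η : Q → Fin w → ZMod p) (i j : Fin N) (θ θ' : Fin w → ZMod p)
    (h : ¬ blk Dg η i j θ) (h' : Van Dg i j θ') : ¬ blk Dg η i j (θ + θ') := by
  rintro ⟨q, hq⟩
  refine h ⟨q, fun h0 => hq ?_⟩
  have h2 := h' q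
  rw [dt_lsub] at h0 ⊢
  rw [dt_ladd]
  linear_combination h0 + h2

/-- the value of the form at conjugates of the base vectors -/
private theorem blw_val {η : Q → Fin w → ZMod p} (hη : Ea Dg η) (i j : Fin N) (θ : Fin w → ZMod p) (q : Q) :
    (Bt Dg θ + Be Dg η) ((Un Dg).y i) ((Un Dg).act q ((Un Dg).y j)) =
      dt (θ - η q) (Dg.om (Dg.y i) (Dg.act q (Dg.y j))) := by
  have h0 : (Un Dg).act q ((Un Dg).y j) = pe Dg q ((Un Dg).y j) := rfl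
  have h1 : Dg.om (Dg.y j) (Dg.act q⁻¹ (Dg.y i)) = -Dg.om (Dg.y i) (Dg.act q (Dg.y j)) := by
    rw [← om_neg Dg (Dg.act q (Dg.y j)) (Dg.y i), ← om_act Dg q (Dg.y j) (Dg.act q⁻¹ (Dg.y i)), ← Dg.act_mul,
      mul_inv_cancel, Dg.act_one]
  have h2 : Lm Dg η (pe Dg q ((Un Dg).y j)) (Dg.y i) = -dt (η q) (Dg.om (Dg.y i) (Dg.act q (Dg.y j))) := by
    have h3 := Lm_act Dg hη q ((Un Dg).y j) (Dg.act q⁻¹ (Dg.y i))
    rw [← Dg.act_mul, mul_inv_cancel, Dg.act_one, Lm_y Dg hη, vp_y, h1, dt_neg', zero_add] at h3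
    exact h3
  rw [h0, LinearMap.add_apply, LinearMap.add_apply, Bt_apply, Be_apply, vp_y, vp_pe, vp_y, Lm_y Dg hη, h2, dt_lsub]
  ring

/-- the antisymmetry of `Bt` -/
private theorem blw_bt (θ : Fin w → ZMod p) : (Bt Dg θ).flip = -Bt Dg θ := by
  refine LinearMap.ext fun x => LinearMap.ext fun y => ?_
  rw [LinearMap.flip_apply, LinearMap.neg_apply, LinearMap.neg_apply, Bt_apply, Bt_apply, om_neg, dt_neg']

/-- the symmetry of `Be` -/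
private theorem blw_be (η : Q → Fin w → ZMod p) : (Be Dg η).flip = Be Dg η := by
  refine LinearMap.ext fun x => LinearMap.ext fun y => ?_
  rw [LinearMap.flip_apply, Be_apply, Be_apply, add_comm]

/-- the sum of the two symbols -/
private theorem blw_sum {η : Q → Fin w → ZMod p} (hη : Ea Dg η) (θ : Fin w → ZMod p) (a b : X.Lb) :
    tb (UX X) (Bt Dg θ + Be Dg η) a b = θ ⬝ᵥ X.sy a b + Pb X η b a := by
  have h1 : θ ⬝ᵥ X.sy a b = tb (UX X) (Bt Dg θ) a b := sy_tb X θ a b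
  rw [h1, Pb_tb X hη]
  rfl

private theorem blw_iv {η : Q → Fin w → ZMod p} (hη : Ea Dg η) (θ : Fin w → ZMod p) :
    Iv (Un Dg) (Bt Dg θ + Be Dg η) := by
  intro q x y
  rw [LinearMap.add_apply, LinearMap.add_apply, LinearMap.add_apply, LinearMap.add_apply, Bt_iv, Be_iv Dg hη]

/-- the symmetry defect of `sy` -/
def bxs (x y : Stt X) : Fin w → ZMod p :=
  if h : ∃ z : X.Lb × X.Lb, X.Gd z.1 ∧ X.Gd z.2 ∧ X.un z.1 ≠ X.un z.2 ∧ stt X z.1 = x ∧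
    stt X z.2 = y then X.sy h.choose.1 h.choose.2 + X.sy h.choose.2 h.choose.1 else 0

theorem bxs_sym [Finite R] [NeZero p] (hp : p.Prime) (hp2 : MOne p K) (hζ : IsPrimitiveRoot ζ p)
    (hz : Z2 p K) {a b : X.Lb} (ha : X.Gd a) (hb : X.Gd b) (hab : X.un a ≠ X.un b) :
    X.sy a b + X.sy b a = bxs X (stt X a) (stt X b) := by
  have h : ∃ z : X.Lb × X.Lb, X.Gd z.1 ∧ X.Gd z.2 ∧ X.un z.1 ≠ X.un z.2 ∧ stt X z.1 = stt X a ∧
    stt X z.2 = stt X b := ⟨(a, b), ha, hb, hab, rfl, rfl⟩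
  unfold bxs
  rw [dif_pos h]
  obtain ⟨z, hz1⟩ : ∃ z, z = h.choose := ⟨_, rfl⟩
  have hsp := h.choose_spec
  rw [← hz1] at hsp ⊢
  obtain ⟨a', b'⟩ := z
  obtain ⟨ha', hb', hab', e1, e2⟩ := hsp
  funext k
  have h1 := tbr (UX X) hp hp2 hζ hz (m0_isC X) (Bt_iv Dg (Pi.single k 1)) (a := a) (b := b) (a' := a') (b' := b')
    ha hb hab ha' hb' hab' (stt_bt X hp hp2 hζ ha ha' e1.symm) (stt_bt X hp hp2 hζ hb hb' e2.symm)
  have h2 : ∀ a b : X.Lb, tb (UX X) (Bt Dg (Pi.single k 1)) a b = X.sy a b k := by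
    intro a b
    rw [← sy_tb]
    unfold dt
    rw [Finset.sum_eq_single k]
    · rw [Pi.single_eq_same, one_mul]
    · intro k' _ hk
      rw [Pi.single_eq_of_ne hk, zero_mul]
    · intro hk
      exact absurd (Finset.mem_univ _) hk
  have h3 : ∀ a b : X.Lb, tb (UX X) (Bt Dg (Pi.single k 1)).flip a b = -X.sy a b k := by
    intro a b
    rw [blw_bt, ← h2]
    rfl
  rw [h2, h2, h3, h3] at h1
  rw [Pi.add_apply, Pi.add_apply]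
  linear_combination h1

/-- the symmetry defect of `Pb` -/
def bxp (η : Q → Fin w → ZMod p) (x y : Stt X) : ZMod p :=
  if h : ∃ z : X.Lb × X.Lb, X.Gd z.1 ∧ X.Gd z.2 ∧ X.un z.1 ≠ X.un z.2 ∧ stt X z.1 = x ∧
    stt X z.2 = y then Pb X η h.choose.2 h.choose.1 - Pb X η h.choose.1 h.choose.2 else 0

theorem bxp_sym [Finite R] [NeZero p] (hp : p.Prime) (hp2 : MOne p K) (hζ : IsPrimitiveRoot ζ p)
    (hz : Z2 p K) {η : Q → Fin w → ZMod p} (hη : Ea Dg η) {a b : X.Lb} (ha : X.Gd a)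
    (hb : X.Gd b) (hab : X.un a ≠ X.un b) :
    Pb X η b a = Pb X η a b + bxp X η (stt X a) (stt X b) := by
  have h : ∃ z : X.Lb × X.Lb, X.Gd z.1 ∧ X.Gd z.2 ∧ X.un z.1 ≠ X.un z.2 ∧ stt X z.1 = stt X a ∧
    stt X z.2 = stt X b := ⟨(a, b), ha, hb, hab, rfl, rfl⟩
  unfold bxp
  rw [dif_pos h]
  obtain ⟨z, hz1⟩ : ∃ z, z = h.choose := ⟨_, rfl⟩
  have hsp := h.choose_spec
  rw [← hz1] at hsp ⊢
  obtain ⟨a', b'⟩ := z
  obtain ⟨ha', hb', hab', e1, e2⟩ := hsp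
  have h1 := tbr (UX X) hp hp2 hζ hz (m0_isC X) (Be_iv Dg hη) (a := a) (b := b) (a' := a') (b' := b')
    ha hb hab ha' hb' hab' (stt_bt X hp hp2 hζ ha ha' e1.symm) (stt_bt X hp hp2 hζ hb hb' e2.symm)
  rw [blw_be, ← Pb_tb X hη, ← Pb_tb X hη, ← Pb_tb X hη, ← Pb_tb X hη] at h1
  linear_combination h1

theorem bxp_self [Finite R] [NeZero p] (hp : p.Prime) (hp2 : MOne p K) (hζ : IsPrimitiveRoot ζ p)
    (hz : Z2 p K) {η : Q → Fin w → ZMod p} (hη : Ea Dg η) (x : Stt X) : bxp X η x x = 0 := by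
  unfold bxp
  split_ifs with h
  · obtain ⟨z, hz1⟩ : ∃ z, z = h.choose := ⟨_, rfl⟩
    have hsp := h.choose_spec
    rw [← hz1] at hsp ⊢
    obtain ⟨a', b'⟩ := z
    obtain ⟨ha', hb', hab', e1, e2⟩ := hsp
    have h1 := tbs (UX X) hp hp2 hζ hz (m0_isC X) (qe Dg η) (qe_add Dg η) (qe_act Dg hη) (a := a') (b := b')
      ha' hb' hab' (stt_bt X hp hp2 hζ ha' hb' (e1.trans e2.symm))
    rw [← Pb_tb X hη, ← Pb_tb X hη] at h1
    rw [h1, sub_self]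
  · rfl

theorem bchr (hI : FI X d D qq) {η : Q → Fin w → ZMod p} (hη : Ea Dg η) (i : Fin N)
    (θ : Fin w → ZMod p) (h : Finset X.Lb) (hh : ∀ b ∈ h, X.Gd b) :
    ∃ (𝔣 : Ideal (𝓞 (X.F i))) (χ : RC (X.F i) 𝔣), 𝔣 ≠ ⊥ ∧
      (Ideal.absNorm 𝔣 : ℝ) ≤ D * nr (h.image X.un) ^ d ∧
      ∀ a : Pl (X.F i), X.Gd ⟨i, a⟩ → X.un ⟨i, a⟩ ∉ h.image X.un →
        χ.χ a.asIdeal = ep p (∑ b ∈ h, (θ ⬝ᵥ X.sy ⟨i, a⟩ b + Pb X η b ⟨i, a⟩)) := by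
  obtain ⟨𝔣, χ, h1, h2, h3⟩ := tbb (UX X) hI.hp hI.hp2 hI.hζ (blw_iv hη θ) i h hh d (hI.deg i)
  refine ⟨𝔣, χ, h1, ?_, fun a ha hu => ?_⟩
  · have h4 : (Ideal.absNorm 𝔣 : ℝ) ≤ ((p ^ (3 * (d * Module.finrank ℚ K)) * (∏ v ∈ X.D.S0, nm v) ^ d : ℕ) : ℝ) *
        ((∏ v ∈ h.image X.un, nm v : ℕ) : ℝ) ^ d := by
      exact_mod_cast h2
    refine h4.trans ?_
    have h5 : ((∏ v ∈ h.image X.un, nm v : ℕ) : ℝ) = nr (h.image X.un) := by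
      unfold nr
      push_cast
      rfl
    rw [h5]
    refine mul_le_mul_of_nonneg_right hI.mod ?_
    rw [← h5]
    positivity
  · have h4 := h3 a ha hu
    have h5 : ∑ b ∈ h, tb (UX X) (Bt Dg θ + Be Dg η) ⟨i, a⟩ b =
        ∑ b ∈ h, (θ ⬝ᵥ X.sy ⟨i, a⟩ b + Pb X η b ⟨i, a⟩) :=
      Finset.sum_congr rfl fun b _ => blw_sum X hη θ ⟨i, a⟩ b
    rw [← h5]
    exact h4

theorem bsep (hp : p.Prime) (hp2 : MOne p K) (hζ : IsPrimitiveRoot ζ p)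
    {η : Q → Fin w → ZMod p} (hη : Ea Dg η) (i j : Fin N) (θ : Fin w → ZMod p)
    (hl : blk Dg η i j θ) {h₁ h₂ : Finset X.Lb} (h1 : X.Ok h₁) (h2 : X.Ok h₂)
    (hj1 : ∀ b ∈ h₁, b.1 = j) (hj2 : ∀ b ∈ h₂, b.1 = j) (hne : h₁.image X.un ≠ h₂.image X.un) :
    ∃ a : Pl (X.F i), X.Gd ⟨i, a⟩ ∧ X.un ⟨i, a⟩ ∉ h₁.image X.un ∧ X.un ⟨i, a⟩ ∉ h₂.image X.un ∧
      ∑ b ∈ h₁, (θ ⬝ᵥ X.sy ⟨i, a⟩ b + Pb X η b ⟨i, a⟩) ≠
        ∑ b ∈ h₂, (θ ⬝ᵥ X.sy ⟨i, a⟩ b + Pb X η b ⟨i, a⟩) := by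
  obtain ⟨q, hq⟩ := hl
  rw [← blw_val hη] at hq
  obtain ⟨a, ha1, ha2, ha3⟩ := tbc (UX X) hp hp2 hζ (blw_iv hη θ) i j ⟨q, hq⟩ (h₁ := h₁) (h₂ := h₂) h1 h2 hj1 hj2
    hne (h₁.image X.un ∪ h₂.image X.un)
  have ha2' : X.un ⟨i, a⟩ ∉ h₁.image X.un ∪ h₂.image X.un := ha2
  rw [Finset.mem_union, not_or] at ha2'
  refine ⟨a, ha1, ha2'.1, ha2'.2, fun h0 => ha3 ?_⟩
  have h5 : ∀ h : Finset X.Lb, ∑ b ∈ h, tb (UX X) (Bt Dg θ + Be Dg η) ⟨i, a⟩ b =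
        ∑ b ∈ h, (θ ⬝ᵥ X.sy ⟨i, a⟩ b + Pb X η b ⟨i, a⟩) := fun h =>
      Finset.sum_congr rfl fun b _ => blw_sum X hη θ ⟨i, a⟩ b
  exact (h5 h₁).trans (h0.trans (h5 h₂).symm)

end H51.MT
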