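import Pool.Agent.H63.MA.GDef

/-!
# [H51 MT LAL] linear algebra (50-90 lines)

`k` a field. The linear functional `ℓ n = ∑ g, n g * O g` on `I →₀ k` vanishes on the kernel of the linear map `L n = (b ↦ ∑_{B g = b} n g, a ↦ ∑_{a ∈ A g} n g)` to `(P →₀ k) × (J →₀ k)` (e.g. `L (single g 1) = (single (B g) 1, ∑ a ∈ A g, single a 1)`: `Finsupp.linearCombination`). So there is a linear functional `ψ` on the target with
`ψ ∘ L = ℓ` (over a field: `LinearMap.range_dualMap_eq_dualAnnihilator_ker`, or extend the functional induced on the range by `LinearMap.exists_extend`). `F b = ψ (single b 1, 0)`, `s a = ψ (0, single a 1)`; evaluate at `single g 1`.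
-/

set_option autoImplicit false
set_option linter.dupNamespace false

open scoped NumberField Pointwise
open IsDedekindDomain NumberField
open scoped Classical

noncomputable section

namespace H51.MT

open H63.MA

theorem lal {k I J P : Type} [Field k] (O : I → k) (A : I → Finset J) (B : I → P)
    (h : ∀ (S : Finset I) (n : I → k), (∀ a, ∑ g ∈ S, (if a ∈ A g then n g else 0) = 0) →
      (∀ b, ∑ g ∈ S, (if B g = b then n g else 0) = 0) → ∑ g ∈ S, n g * O g = 0) :
    ∃ (F : P → k) (s : J → k), ∀ g, O g = F (B g) + ∑ a ∈ A g, s a := by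
  obtain ⟨v, hv⟩ : ∃ v : I → (P →₀ k) × (J →₀ k), ∀ g, v g =
      (Finsupp.single (B g) 1, ∑ a ∈ A g, Finsupp.single a 1) := ⟨_, fun _ => rfl⟩
  obtain ⟨L, hL⟩ : ∃ L : (I →₀ k) →ₗ[k] (P →₀ k) × (J →₀ k), L = Finsupp.linearCombination k v :=
    ⟨_, rfl⟩
  obtain ⟨l, hl⟩ : ∃ l : Module.Dual k (I →₀ k), l = Finsupp.linearCombination k O := ⟨_, rfl⟩
  have hker : l ∈ (LinearMap.ker L).dualAnnihilator := by
    rw [Submodule.mem_dualAnnihilator]
    intro n hn
    rw [LinearMap.mem_ker, hL, Finsupp.linearCombination_apply, Finsupp.sum] at hn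
    rw [hl, Finsupp.linearCombination_apply, Finsupp.sum]
    refine Eq.trans (Finset.sum_congr rfl fun g _ => smul_eq_mul _ _) (h n.support n ?_ ?_)
    · intro a
      have h1 := congrArg (fun x => x.2 a) hn
      simp only [Prod.snd_sum, Prod.smul_snd, Finsupp.coe_finsetSum, Finset.sum_apply,
        Finsupp.smul_apply, hv, smul_eq_mul, Prod.snd_zero, Finsupp.coe_zero, Pi.zero_apply] at h1
      refine Eq.trans (Finset.sum_congr rfl fun g _ => ?_) h1
      have h2 : ∑ c ∈ A g, (Finsupp.single c (1 : k)) a = if a ∈ A g then 1 else 0 := by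
        simp only [Finsupp.single_apply]
        rw [Finset.sum_ite_eq' (A g) a]
      rw [h2]
      split_ifs <;> simp
    · intro b
      have h1 := congrArg (fun x => x.1 b) hn
      simp only [Prod.fst_sum, Prod.smul_fst, Finsupp.coe_finsetSum, Finset.sum_apply,
        Finsupp.smul_apply, hv, smul_eq_mul, Prod.fst_zero, Finsupp.coe_zero, Pi.zero_apply] at h1
      refine Eq.trans (Finset.sum_congr rfl fun g _ => ?_) h1
      rw [Finsupp.single_apply]
      split_ifs <;> simp
  rw [← LinearMap.range_dualMap_eq_dualAnnihilator_ker] at hker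
  obtain ⟨ψ, hψ⟩ := hker
  refine ⟨fun b => ψ (Finsupp.single b 1, 0), fun a => ψ (0, Finsupp.single a 1), fun g => ?_⟩
  have h1 := LinearMap.congr_fun hψ (Finsupp.single g 1)
  rw [LinearMap.dualMap_apply, hL, hl, Finsupp.linearCombination_single,
    Finsupp.linearCombination_single, one_smul, one_smul, hv] at h1
  rw [← h1]
  have h2 : ((Finsupp.single (B g) (1 : k), ∑ a ∈ A g, Finsupp.single a (1 : k)) : (P →₀ k) × (J →₀ k)) =
      (Finsupp.single (B g) 1, 0) + ∑ a ∈ A g, ((0 : P →₀ k), Finsupp.single a (1 : k)) := by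
    refine Prod.ext ?_ ?_
    · simp [Prod.fst_sum]
    · simp [Prod.snd_sum]
  rw [h2, map_add, map_sum]

end H51.MT
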