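import Pool.Agent.H51.MT.Crb
import Pool.Agent.H51.MT.Lal
import Pool.Agent.H51.MT.Lfs

/-!
# [H51 MT CRC] the structure theorem (70-110 lines)

`I` = the `Ok` families `g` for which there is an adapted lift (a subtype). For every profile `π` of such a family fix one such family `g_π` and an adapted lift `φ_π`. For `g ∈ I` of profile `π`: `lfs` (`g' = g_π`; `sze_rh`; `al_ev`) gives an adapted lift `φ g`, `ε g` with `φ g = φ_π` on the decomposition groups of `S0`. `lal` with `k = ZMod p`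
(field: `Fact p.Prime`), `O g = Oe X η (ε g) + ∑_{a, b} .. + ∑ sl a`, `A g = g`, `B g = pfl g`: the hypothesis is `crb` (`S` the image in the families; extend `φ`, `ε` to all families by choice; `Finset.sum_map` / `Subtype`). Then `Oe X η ε = Oe X η (ε g)` for every adapted lift (`hind`), `F`, `s a - sl a`.
-/

set_option autoImplicit false
set_option linter.dupNamespace false

open scoped NumberField Pointwise
open IsDedekindDomain NumberField
open scoped Classical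

noncomputable section

namespace H51.MT

open H63.MA H38.BB H38.BG H57.PC H57.BRA H89.BRG H1.AR H48.MF H48.MG

variable {p u w N : ℕ} {G R Q : Type} [Group G] [Group R] [Group Q] [Fintype Q]
  (Gm : GM p u w N G R Q) {K : Type} [Field K] [NumberField K] {Ω : Type} [Field Ω] [Algebra K Ω]
  [IsAlgClosure K Ω] {ζ : K} (X : AD Gm.M K Ω ζ)

theorem crc [Finite G] [Finite R] [NeZero p] (hp : p.Prime) (hp2 : MOne p K)
    (hζ : IsPrimitiveRoot ζ p) (hz : Z2 p K) {c : Gal(Ω/K) →* R} (hc : X.IsC c)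
    {η : Q → Fin w → ZMod p} (hη : Ea Gm.M η) {φ₁ : Gal(Ω/K) →* G} (hφ₁ : H38.ML.FT φ₁)
    (hind : ∀ g, X.Ok g → ∀ φ φ' ε ε', AL Gm X φ₁ c g φ ε → AL Gm X φ₁ c g φ' ε' →
      Oe X η ε = Oe X η ε') :
    ∃ (F : (Stt X → ZMod (me G p)) → ZMod p) (s : X.Lb → ZMod p), ∀ g, X.Ok g →
      ∀ φ ε, AL Gm X φ₁ c g φ ε →
        Oe X η ε + (∑ a ∈ g, ∑ b ∈ g, if olt X a b then Pb X η b a else 0) =
          F (pfl Gm X (me G p) g) + ∑ a ∈ g, s a := by
  have : Fact p.Prime := ⟨hp⟩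
  -- the families with an adapted lift
  obtain ⟨P, hP⟩ : ∃ P : Finset X.Lb → Prop, ∀ g, P g ↔ (X.Ok g ∧ ∃ φ ε, AL Gm X φ₁ c g φ ε) :=
    ⟨_, fun _ => Iff.rfl⟩
  -- representatives of the profiles
  have hr : ∀ π : Stt X → ZMod (me G p), ∃ (g' : Finset X.Lb) (φ' : Gal(Ω/K) →* G)
      (ε' : Pl K → Fin w → ZMod p), (∃ g, P g ∧ pfl Gm X (me G p) g = π) →
        (X.Ok g' ∧ pfl Gm X (me G p) g' = π ∧ AL Gm X φ₁ c g' φ' ε') := by
    intro π
    by_cases h : ∃ g, P g ∧ pfl Gm X (me G p) g = π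
    · obtain ⟨g, hg, hπ⟩ := h
      obtain ⟨hok, φ, ε, hal⟩ := (hP g).1 hg
      exact ⟨g, φ, ε, fun _ => ⟨hok, hπ, hal⟩⟩
    · exact ⟨∅, 1, 0, fun h' => absurd h' h⟩
  choose gr φr εr hrr using hr
  have hex : ∀ g : Finset X.Lb, ∃ (φ : Gal(Ω/K) →* G) (ε : Pl K → Fin w → ZMod p), P g →
      (AL Gm X φ₁ c g φ ε ∧ ∀ v ∈ X.D.S0, ∀ σ ∈ dec (K := K) (X.P.P v),
        φ σ = φr (pfl Gm X (me G p) g) σ) := by
    intro g
    by_cases h : P g
    · obtain ⟨hok, φ0, ε0, hal0⟩ := (hP g).1 h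
      obtain ⟨h1, h2, h3⟩ := hrr (pfl Gm X (me G p) g) ⟨g, h, rfl⟩
      obtain ⟨φ, ε, h4, h5⟩ := lfs Gm X hp hp2 hζ hz hc hok (al_ev Gm X hp hζ hc hok hal0) hφ₁ h3
        (sze_rh hp hp2 hζ hc hok.1 h1.1 h2.symm)
      exact ⟨φ, ε, fun _ => ⟨h4, h5⟩⟩
    · exact ⟨1, 0, fun h' => absurd h' h⟩
  choose φ ε hφ using hex
  obtain ⟨F, s, hFs⟩ := lal (k := ZMod p) (I := {g : Finset X.Lb // P g}) (J := X.Lb)
    (P := Stt X → ZMod (me G p))
    (fun g => Oe X η (ε g.1) + (∑ a ∈ g.1, ∑ b ∈ g.1, if olt X a b then Pb X η b a else 0) +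
      ∑ a ∈ g.1, sl Gm X c η a) (fun g => g.1) (fun g => pfl Gm X (me G p) g.1) (by
    intro S n hn1 hn2
    obtain ⟨n', hn'⟩ : ∃ n' : Finset X.Lb → ZMod p, ∀ g : {g : Finset X.Lb // P g}, n' g.1 = n g := by
      refine ⟨fun g => if h : P g then n ⟨g, h⟩ else 0, fun g => ?_⟩
      simp only [g.2, dif_pos]
    have hmem : ∀ g ∈ S.map (Function.Embedding.subtype P), P g := by
      intro g hg
      obtain ⟨g', -, rfl⟩ := Finset.mem_map.1 hg
      exact g'.2
    have h1 := crb Gm X hp hp2 hζ hz hc hη (φ₁ := φ₁) (S.map (Function.Embedding.subtype P))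
      (fun g hg => ((hP g).1 (hmem g hg)).1) φ ε (fun g hg => (hφ g (hmem g hg)).1)
      (fun g hg g' hg' hgg v hv σ hσ => by
        rw [(hφ g (hmem g hg)).2 v hv σ hσ, (hφ g' (hmem g' hg')).2 v hv σ hσ, hgg]) n'
      (fun a => by
        rw [Finset.sum_map]
        refine Eq.trans ?_ (hn1 a)
        refine Finset.sum_congr rfl fun g _ => ?_
        show (if a ∈ g.1 then n' g.1 else 0) = _
        rw [hn' g]
        congr)
      (fun π => by
        rw [Finset.sum_map]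
        refine Eq.trans ?_ (hn2 π)
        refine Finset.sum_congr rfl fun g _ => ?_
        show (if pfl Gm X (me G p) g.1 = π then n' g.1 else 0) = _
        rw [hn' g]
        congr)
    rw [Finset.sum_map] at h1
    refine Eq.trans ?_ h1
    refine Finset.sum_congr rfl fun g _ => ?_
    show _ = n' g.1 * _
    rw [hn' g]
    rfl)
  refine ⟨F, fun a => s a - sl Gm X c η a, fun g hg φ' ε' hal => ?_⟩
  have hPg : P g := (hP g).2 ⟨hg, φ', ε', hal⟩
  have h1 := hFs ⟨g, hPg⟩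
  simp only at h1
  have h2 := hind g hg φ' (φ g) ε' (ε g) hal (hφ g hPg).1
  rw [h2, Finset.sum_sub_distrib, ← add_sub_assoc, ← h1]
  ring

end H51.MT
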