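import Pool.Agent.H51.MT.Blw
import Pool.Agent.H51.MT.Crc
import Pool.Agent.H51.MS.Defs

/-!
# H51/MT: the bilinear data of the frame and the structure theorem (ST) (MP_b39724_nt)

* `blx`: the bilinear data of the frame `frm X hI` for generic `η`.
* `stm`: for generic `η` there are bilinear data `B`, an order `O`, a modulus `m` such that for all `c`: `Oe X η ε = Fc (prf B m g) + ∑_{a ∈ g} s a - pph B O g` for all adapted lifts.
-/

set_option autoImplicit false
set_option linter.dupNamespace false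

open scoped NumberField Pointwise
open IsDedekindDomain NumberField
open scoped Classical

noncomputable section

namespace H51.MT

open H63.MA H38.BB H38.BG H57.PC H57.BRA H89.BRG H1.AR H48.MF H48.MG

section bl

variable {p u w N : ℕ} {R Q : Type} [Group R] [Group Q]
variable [Fintype Q] {Dg : MG p u w N R Q} {K : Type} [Field K] [NumberField K] {Ω : Type}
  [Field Ω] [Algebra K Ω] [IsAlgClosure K Ω] {ζ : K} (X : AD Dg K Ω ζ)

variable [Fintype (Co X)] {d : ℕ} {D qq : ℝ}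

/-- the bilinear data of the frame -/
def blx [Finite R] (hI : FI X d D qq) {η : Q → Fin w → ZMod p} (hη : Ea Dg η) :
    H51.MS.Bl (frm X hI) where
  St := Stt X
  fS := by
    haveI : NeZero p := ⟨hI.hp.ne_zero⟩
    infer_instance
  st := stt X
  P := Pb X η
  lk := blk Dg η
  lk_symm := blk_symm hη
  lk_sub := fun i j θ θ' h h' => blk_sub η i j θ θ' h h'
  lk_add := fun i j θ θ' h h' => blk_add η i j θ θ' h h'
  Xs := bxs X
  sym_s := fun a b ha hb hab => by
    haveI : NeZero p := ⟨hI.hp.ne_zero⟩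
    exact bxs_sym X hI.hp hI.hp2 hI.hζ hI.hz ((frm_gd X hI.hp a).1 ha) ((frm_gd X hI.hp b).1 hb) hab
  Xp := bxp X η
  sym_P := fun a b ha hb hab => by
    haveI : NeZero p := ⟨hI.hp.ne_zero⟩
    exact bxp_sym X hI.hp hI.hp2 hI.hζ hI.hz hη ((frm_gd X hI.hp a).1 ha) ((frm_gd X hI.hp b).1 hb) hab
  Xp_self := fun x => by
    haveI : NeZero p := ⟨hI.hp.ne_zero⟩
    exact bxp_self X hI.hp hI.hp2 hI.hζ hI.hz hη x
  D' := D
  one_le_D' := hI.one_le_D
  d' := d
  chr := fun i j θ h hh _ => by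
    obtain ⟨𝔣, χ, h1, h2, h3⟩ := bchr X hI hη i θ h fun b hb => (frm_gd X hI.hp b).1 (hh.1 b hb)
    exact ⟨𝔣, χ, h1, h2, fun a ha hu => h3 a ((frm_gd X hI.hp _).1 ha) hu⟩
  sep := fun i j θ hl h₁ h₂ h1 h2 hj1 hj2 hne => by
    obtain ⟨a, ha, h3, h4, h5⟩ := bsep X hI.hp hI.hp2 hI.hζ hη i j θ hl ((frm_ok X hI.hp h₁).1 h1)
      ((frm_ok X hI.hp h₂).1 h2) hj1 hj2 hne
    exact ⟨a, (frm_gd X hI.hp _).2 ha, h3, h4, h5⟩

end bl

variable {p u w N : ℕ} {G R Q : Type} [Group G] [Group R] [Group Q] [Fintype Q]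
  (Gm : GM p u w N G R Q) {K : Type} [Field K] [NumberField K] {Ω : Type} [Field Ω] [Algebra K Ω]
  [IsAlgClosure K Ω] {ζ : K} (X : AD Gm.M K Ω ζ)

omit [Fintype Q] in
theorem gnr_ea {η : Q → Fin w → ZMod p} (hη : Gnr Gm η) : Ea Gm.M η where
  mul := hη.mul
  van := fun j h hh x => hη.del j h hh _ (zj_sub Gm j ⟨x, rfl⟩)

variable [Fintype (Co X)] {d : ℕ} {D qq : ℝ}

theorem stm [Finite G] [Finite R] (hI : FI X d D qq) {η : Q → Fin w → ZMod p} (hη : Gnr Gm η)
    {φ₁ : Gal(Ω/K) →* G} (hφ₁ : H38.ML.FT φ₁) :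
    ∃ (B : H51.MS.Bl (frm X hI)) (O : H51.MS.Or B) (m : ℕ) (_ : NeZero m),
      (∀ (i j : Fin N) (θ : Fin w → ZMod p), B.lk i j θ ↔ ∃ q, dt (θ - η q) (Gm.M.om (Gm.M.y i) (Gm.M.act q (Gm.M.y j))) ≠ 0) ∧
      ∀ c : Co X, (∀ g, X.Ok g → ∀ φ φ' ε ε', AL Gm X φ₁ c.1 g φ ε → AL Gm X φ₁ c.1 g φ' ε' →
        Oe X η ε = Oe X η ε') →
      ∃ (Fc : (B.St → ZMod m) → ZMod p) (s : X.Lb → ZMod p), ∀ g, X.Ok g → ∀ φ ε,
        AL Gm X φ₁ c.1 g φ ε → Oe X η ε = Fc (H51.MS.prf B m g) + ∑ a ∈ g, s a -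
          (show ZMod p from H51.MS.pph B O g) := by
  have hne0 : NeZero p := ⟨hI.hp.ne_zero⟩
  have hm : NeZero (me G p) := me_ne hI.hp
  refine ⟨blx X hI (gnr_ea Gm hη), ⟨olt X, fun a b hab => ⟨olt_asym X a b, fun h => ?_⟩,
    fun a b a' b' h1 h2 h3 => ?_⟩, me G p, hm, fun i j θ => Iff.rfl, fun c hc => ?_⟩
  · rcases olt_tri X a b (fun h' => hab (by rw [h'])) with h' | h'
    · exact h'
    · exact absurd h' h
  · have h1' : stt X a = stt X a' := h1
    have h2' : stt X b = stt X b' := h2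
    have h3' : stt X a ≠ stt X b := h3
    have h4 : ns X (stt X a) ≠ ns X (stt X b) := fun h => h3' ((ns X).injective h)
    unfold olt
    rw [← h1', ← h2']
    simp only [h4, false_and, or_false]
  · obtain ⟨F, s, h⟩ := crc Gm X hI.hp hI.hp2 hI.hζ hI.hz c.2 (gnr_ea Gm hη) hφ₁ hc
    refine ⟨F, s, fun g hg φ ε hal => ?_⟩
    have h1 := h g hg φ ε hal
    have h2 : H51.MS.pph (blx X hI (gnr_ea Gm hη)) ⟨olt X, fun a b hab => ⟨olt_asym X a b, fun h => (by
        rcases olt_tri X a b (fun h' => hab (by rw [h'])) with h' | h'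
        · exact h'
        · exact absurd h' h)⟩, fun a b a' b' h1 h2 h3 => (by
        have h1' : stt X a = stt X a' := h1
        have h2' : stt X b = stt X b' := h2
        have h3' : stt X a ≠ stt X b := h3
        have h4 : ns X (stt X a) ≠ ns X (stt X b) := fun h => h3' ((ns X).injective h)
        unfold olt
        rw [← h1', ← h2']
        simp only [h4, false_and, or_false])⟩ g =
        ∑ a ∈ g, ∑ b ∈ g, if olt X a b then Pb X η b a else 0 := by
      unfold H51.MS.pph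
      refine Finset.sum_congr rfl fun a ha => Finset.sum_congr rfl fun b hb => ?_
      by_cases hab : olt X a b
      · have hne : a ≠ b := by
          rintro rfl
          exact olt_asym X a a hab hab
        rw [if_pos hab]
        exact if_pos ⟨hg.2 a ha b hb hne, hab⟩
      · rw [if_neg hab]
        exact if_neg fun h' => hab h'.2
    have h3 : H51.MS.prf (blx X hI (gnr_ea Gm hη)) (me G p) g = pfl Gm X (me G p) g := by
      funext x
      unfold H51.MS.prf pfl
      congr 2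
      ext a
      exact ⟨fun h => Finset.mem_filter.2 (Finset.mem_filter.1 h),
        fun h => Finset.mem_filter.2 (Finset.mem_filter.1 h)⟩
    rw [h2, h3]
    exact eq_sub_of_add_eq h1

end H51.MT
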