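import Pool.Agent.H51.MT.Lli
import Pool.Agent.H48.MF.Grf

/-!
# [H51 MT NFA] products of blocks (90-140 lines)

`nf l x r = (∏_{a ∈ l} sec (e (x a))) * sec r` (in the order of the list).
* `sec_one`: `sec 1 * sec 1 = z (c 1 1) * sec 1`, `c k 1 1 = 0` (`(Gm.M.coc k).l1`), `gm_z0`.
* `nf_pr`: `Gm.sec_pr`, `Gm.M.eadd`, `gm_e0`.
* `nf_kap`: `sec r * sec (e x) = z (kap r x) * sec (e (act (π r) x)) * sec r`: both `sec r * sec (e x)` and `sec (e (act (π r) x)) * sec r` are `z (..) * sec (r * e x)` (`sec_mul`, `Gm.M.conj`: `r * e x = e (act (π r) x) * r`).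
* `nf_cc`: `sec_mul`, `eadd`. `nf_om`: `gm_comm` (`pr (sec (e x)) = e x`, commuting), `Gm.M.iv_om`.
* `nf_mul`: induction on `l` for the product of the blocks: with `y' = act (π r) ∘ y`: `(∏ sec (e (x a))) * (∏ sec (e (y' a))) = z (∑_a cc (x a) (y' a) + ps l (fun a b => om (x b) (y' a))) * ∏ sec (e (x a + y' a))` (move `sec (e (y' a))` of the first label `a` to the left of the blocks `x b` of the later labels `b`: `nf_om`),
  and `sec r * ∏ sec (e (y a)) = z (∑_a kap r (y a)) * (∏ sec (e (y' a))) * sec r` (`nf_kap`); then `sec r * sec s` (`sec_mul`). `z` is central and additive.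
-/

set_option autoImplicit false
set_option linter.dupNamespace false

open scoped NumberField Pointwise
open IsDedekindDomain NumberField
open scoped Classical

noncomputable section

namespace H51.MT

open H63.MA H38.BB H38.BG H57.PC H57.BRA H89.BRG H1.AR H48.MF

variable {p u w N : ℕ} {G R Q : Type} [Group G] [Group R] [Group Q] (Gm : GM p u w N G R Q)

/-- the cochain of the action -/
def kap (r : R) (x : Fin u → ZMod p) : Fin w → ZMod p := fun k =>
  Gm.M.c k r (Gm.M.e x) - Gm.M.c k (Gm.M.e (Gm.M.act (Gm.M.π r) x)) r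

/-- the cocycle on `V` -/
def cc (x y : Fin u → ZMod p) : Fin w → ZMod p := fun k => Gm.M.c k (Gm.M.e x) (Gm.M.e y)

/-- the cocycle on `R` -/
def cr (r s : R) : Fin w → ZMod p := fun k => Gm.M.c k r s

/-- the product of the blocks -/
def nf {ι : Type} (l : List ι) (x : ι → Fin u → ZMod p) (r : R) : G :=
  (l.map fun a => Gm.sec (Gm.M.e (x a))).prod * Gm.sec r

theorem sec_one : Gm.sec 1 = 1 := by
  have h := Gm.sec_mul 1 1
  have h0 : (fun k => Gm.M.c k 1 1) = 0 := funext fun k => (Gm.M.coc k).l1 1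
  rw [h0, gm_z0, mul_one, one_mul] at h
  exact mul_eq_left.1 h

theorem nf_pr {ι : Type} (l : List ι) (x : ι → Fin u → ZMod p) (r : R) :
    Gm.pr (nf Gm l x r) = Gm.M.e ((l.map x).sum) * r := by
  unfold nf
  rw [map_mul, Gm.sec_pr]
  congr 1
  induction l with
  | nil =>
    rw [List.map_nil, List.prod_nil, List.map_nil, List.sum_nil, map_one, gm_e0]
  | cons a l ih =>
    rw [List.map_cons, List.prod_cons, map_mul, Gm.sec_pr, ih, List.map_cons, List.sum_cons,
      Gm.M.eadd]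

theorem z_swap (a : Fin w → ZMod p) (g h : G) : g * (Gm.z a * h) = Gm.z a * (g * h) := by
  rw [← mul_assoc, ← Gm.zcen a g, mul_assoc]

theorem nf_om (x y : Fin u → ZMod p) : Gm.sec (Gm.M.e x) * Gm.sec (Gm.M.e y) =
    Gm.z (Gm.M.om x y) * (Gm.sec (Gm.M.e y) * Gm.sec (Gm.M.e x)) := by
  have h : Gm.pr (Gm.sec (Gm.M.e x)) * Gm.pr (Gm.sec (Gm.M.e y)) =
      Gm.pr (Gm.sec (Gm.M.e y)) * Gm.pr (Gm.sec (Gm.M.e x)) := by
    rw [Gm.sec_pr, Gm.sec_pr, ← Gm.M.eadd, ← Gm.M.eadd, add_comm]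
  have h1 := gm_comm Gm h
  have h2 : (fun k => iv (Gm.M.c k) (Gm.pr (Gm.sec (Gm.M.e x))) (Gm.pr (Gm.sec (Gm.M.e y)))) =
      Gm.M.om x y := by
    funext k
    rw [Gm.sec_pr, Gm.sec_pr, Gm.M.iv_om]
  rw [h2] at h1
  exact h1

theorem nf_cc (x y : Fin u → ZMod p) : Gm.sec (Gm.M.e x) * Gm.sec (Gm.M.e y) =
    Gm.z (cc Gm x y) * Gm.sec (Gm.M.e (x + y)) := by
  rw [Gm.sec_mul, Gm.M.eadd]
  rfl

theorem nf_kap (r : R) (x : Fin u → ZMod p) : Gm.sec r * Gm.sec (Gm.M.e x) =
    Gm.z (kap Gm r x) * (Gm.sec (Gm.M.e (Gm.M.act (Gm.M.π r) x)) * Gm.sec r) := by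
  have h1 : r * Gm.M.e x = Gm.M.e (Gm.M.act (Gm.M.π r) x) * r := by
    rw [← Gm.M.conj, inv_mul_cancel_right]
  rw [Gm.sec_mul, Gm.sec_mul, ← mul_assoc, ← Gm.zadd, ← h1]
  congr 2
  funext k
  simp only [kap, Pi.add_apply]
  ring

theorem nf_mv {ι : Type} (l : List ι) (x : ι → Fin u → ZMod p) (v : Fin u → ZMod p) :
    (l.map fun a => Gm.sec (Gm.M.e (x a))).prod * Gm.sec (Gm.M.e v) =
      Gm.z ((l.map fun b => Gm.M.om (x b) v).sum) *
        (Gm.sec (Gm.M.e v) * (l.map fun a => Gm.sec (Gm.M.e (x a))).prod) := by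
  induction l with
  | nil =>
    rw [List.map_nil, List.prod_nil, List.map_nil, List.sum_nil, gm_z0, one_mul, one_mul, mul_one]
  | cons a l ih =>
    rw [List.map_cons, List.prod_cons, List.map_cons, List.sum_cons, mul_assoc, ih, z_swap,
      ← mul_assoc (Gm.sec (Gm.M.e (x a))), nf_om, add_comm, Gm.zadd]
    simp only [mul_assoc]

theorem nf_blk {ι : Type} (l : List ι) (x y : ι → Fin u → ZMod p) :
    (l.map fun a => Gm.sec (Gm.M.e (x a))).prod * (l.map fun a => Gm.sec (Gm.M.e (y a))).prod =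
      Gm.z ((l.map fun a => cc Gm (x a) (y a)).sum + ps l (fun a b => Gm.M.om (x b) (y a))) *
        (l.map fun a => Gm.sec (Gm.M.e (x a + y a))).prod := by
  induction l with
  | nil =>
    rw [List.map_nil, List.map_nil, List.map_nil, List.map_nil, List.prod_nil, List.sum_nil]
    have h : ps ([] : List ι) (fun a b => Gm.M.om (x b) (y a)) = 0 := rfl
    rw [h, add_zero, gm_z0]
  | cons a l ih =>
    have h : ps (a :: l) (fun a b => Gm.M.om (x b) (y a)) =
        (l.map fun b => Gm.M.om (x b) (y a)).sum + ps l (fun a b => Gm.M.om (x b) (y a)) := rfl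
    rw [h, List.map_cons, List.prod_cons, List.map_cons, List.prod_cons, List.map_cons,
      List.sum_cons, List.map_cons, List.prod_cons]
    have h1 : ∀ A P B P' : G, A * P * (B * P') = A * (P * B) * P' := fun A P B P' => by
      simp only [mul_assoc]
    rw [h1, nf_mv, z_swap]
    have h2 : ∀ Z A B P P' : G, Z * (A * (B * P)) * P' = Z * (A * B) * (P * P') :=
      fun Z A B P P' => by simp only [mul_assoc]
    rw [h2, nf_cc, ih]
    have h3 : ∀ Z Z' A P : G, ∀ b : Fin w → ZMod p,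
        Z * (Z' * A) * (Gm.z b * P) = Z * Z' * Gm.z b * (A * P) := fun Z Z' A P b => by
      rw [z_swap, ← Gm.zcen b (Z * Z')]
      simp only [mul_assoc]
    rw [h3, ← Gm.zadd, ← Gm.zadd]
    congr 2
    abel

theorem nf_act {ι : Type} (l : List ι) (y : ι → Fin u → ZMod p) (r : R) :
    Gm.sec r * (l.map fun a => Gm.sec (Gm.M.e (y a))).prod =
      Gm.z ((l.map fun a => kap Gm r (y a)).sum) *
        ((l.map fun a => Gm.sec (Gm.M.e (Gm.M.act (Gm.M.π r) (y a)))).prod * Gm.sec r) := by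
  induction l with
  | nil =>
    rw [List.map_nil, List.prod_nil, List.map_nil, List.sum_nil, List.map_nil, List.prod_nil,
      gm_z0, one_mul, one_mul, mul_one]
  | cons a l ih =>
    rw [List.map_cons, List.prod_cons, List.map_cons, List.sum_cons, List.map_cons,
      List.prod_cons, ← mul_assoc, nf_kap, Gm.zadd]
    have h1 : ∀ Z A B P : G, Z * (A * B) * P = Z * (A * (B * P)) := fun Z A B P => by
      simp only [mul_assoc]
    rw [h1, ih, z_swap]
    simp only [mul_assoc]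

theorem nf_mul {ι : Type} (l : List ι) (x y : ι → Fin u → ZMod p) (r s : R) :
    nf Gm l x r * nf Gm l y s =
      Gm.z ((l.map fun a => kap Gm r (y a) + cc Gm (x a) (Gm.M.act (Gm.M.π r) (y a))).sum +
        ps l (fun a b => Gm.M.om (x b) (Gm.M.act (Gm.M.π r) (y a))) + cr Gm r s) *
      nf Gm l (fun a => x a + Gm.M.act (Gm.M.π r) (y a)) (r * s) := by
  unfold nf
  have h1 : ∀ A P B P' : G, A * P * (B * P') = A * (P * B) * P' := fun A P B P' => by
    simp only [mul_assoc]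
  rw [h1, nf_act, z_swap]
  have h2 : ∀ Z A B P P' : G, Z * (A * (B * P)) * P' = Z * (A * B * (P * P')) :=
    fun Z A B P P' => by simp only [mul_assoc]
  rw [h2, nf_blk, Gm.sec_mul, List.sum_map_add]
  have h3 : ∀ A B : G, ∀ a b : Fin w → ZMod p,
      Gm.z a * A * (Gm.z b * B) = Gm.z (a + b) * (A * B) := fun A B a b => by
    rw [z_swap, add_comm a b, Gm.zadd]
    simp only [mul_assoc]
  rw [h3, ← mul_assoc, ← Gm.zadd]
  congr 2
  have h4 : (fun k => Gm.M.c k r s) = cr Gm r s := rfl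
  rw [h4]
  abel

end H51.MT
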