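import Pool.Agent.H51.MT.Unb
import Pool.Agent.H51.MT.Nfa
import Pool.Agent.H48.MF.Lfe

/-!
# [H51 MT OMA] the cochain of a lift (110-160 lines)

`l` a list of labels, `φ : Γ → G` over `e (∑_{a ∈ l} bt a σ) * c σ` (`hpr`). `ff σ` is the element of `Z` with `φ σ = z (ff σ) * nf l (bt · σ) (c σ)`. `om1 σ τ = η (φQ σ) (ff τ) + ∑_{a before b} Lm (mm b σ) (act (φQ σ) (bt a τ))`.
* `zz_z`: `Gm.zinj`. `ff_spec`: `nf_pr`, `gm_fib`.
* `ff_mul`: `φ (σ τ) = φ σ * φ τ`, `ff_spec`, `zcen`, `nf_mul` (`π (c σ) = φQ σ`: `hc.pi`), `bt a (σ τ) = bt a σ + act (φQ σ) (bt a τ)` (`bt_cy`), `zinj`.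
* `om1_co`: `hη.mul`: `η (φQ (σ τ)) = η (φQ σ) + η (φQ τ)`. The part of `η` and `ff`: `η τ (ff υ) + η σ (ff (τ υ)) - η (σ τ) (ff υ) - η σ (ff τ) = η σ (ff (τ υ) - ff υ - ff τ) = η σ (∑_a ph1 a τ υ + ps (om (bt b τ) (τ bt a υ)) + cr (c τ) (c υ))` (`ff_mul`). The part of a pair `(a, b)`: with `m = mm b`, `β = bt a`:
  `Lm (m τ) (τ β υ) + Lm (m σ) (σ β (τ υ)) - Lm (m (σ τ)) (σ τ β υ) - Lm (m σ) (σ β τ) = - η σ (om (bt b τ) (τ β υ))`: `m (σ τ) = m σ + pe (φQ σ) (m τ)` (`bt_cy` for `UX X`), `β (τ υ) = β τ + τ β υ`, `Lm_act` (`Lm (σ m τ) (σ (τ β υ)) = Lm (m τ) (τ β υ) + η σ (om (vp (m τ)) (τ β υ))`), `vp_mm`. Sum over the pairs: `ps_add`, `ps_hom`.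
* `om1_one`: `η 1 = 0` (`Ea.one`), `mm b 1 = 0`, `bt a 1 = 0` (`cy_one`), `ff 1 = 0`: `nf l 0 1 = 1` (`sec_one`, `gm_e0`).
* `om1_fin`: all ingredients are functions of `φ τ`, `c σ`, `c τ`, `mm b σ`, `mm a τ` (`bt a τ = vp (mm a τ)`: `vp_mm`; `φQ σ = π (c σ)`).
-/

set_option autoImplicit false
set_option linter.dupNamespace false

open scoped NumberField Pointwise
open IsDedekindDomain NumberField
open scoped Classical

noncomputable section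

namespace H51.MT

open H63.MA H38.BB H38.BG H57.PC H57.BRA H89.BRG H1.AR H48.MF

variable {p u w N : ℕ} {G R Q : Type} [Group G] [Group R] [Group Q] [Fintype Q]
  (Gm : GM p u w N G R Q) {K : Type} [Field K] [NumberField K] {Ω : Type} [Field Ω] [Algebra K Ω]
  [IsAlgClosure K Ω] {ζ : K} (X : AD Gm.M K Ω ζ)

/-- the coordinate in `Z` -/
def zz (x : G) : Fin w → ZMod p := if h : ∃ a, Gm.z a = x then h.choose else 0

omit [Fintype Q] in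
theorem zz_z (a : Fin w → ZMod p) : zz Gm (Gm.z a) = a := by
  have h : ∃ b, Gm.z b = Gm.z a := ⟨a, rfl⟩
  unfold zz
  rw [dif_pos h]
  exact Gm.zinj h.choose_spec

/-- the coordinate of a lift -/
def ff (c : Gal(Ω/K) →* R) (l : List X.Lb) (φ : Gal(Ω/K) →* G) (σ : Gal(Ω/K)) : Fin w → ZMod p :=
  zz Gm (φ σ * (nf Gm l (fun a => X.bt a σ) (c σ))⁻¹)

/-- the contribution of a label to the cocycle -/
def ph1 (c : Gal(Ω/K) →* R) (a : X.Lb) (σ τ : Gal(Ω/K)) : Fin w → ZMod p :=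
  kap Gm (c σ) (X.bt a τ) + cc Gm (X.bt a σ) (Gm.M.act (X.φQ σ) (X.bt a τ))

/-- the cochain of a lift -/
def om1 (c : Gal(Ω/K) →* R) (η : Q → Fin w → ZMod p) (l : List X.Lb) (φ : Gal(Ω/K) →* G)
    (σ τ : Gal(Ω/K)) : ZMod p := dt (η (X.φQ σ)) (ff Gm X c l φ τ) +
  ps l (fun a b => Lm Gm.M η (mm X b σ) (Gm.M.act (X.φQ σ) (X.bt a τ)))

theorem ff_spec {c : Gal(Ω/K) →* R} {l : List X.Lb} {φ : Gal(Ω/K) →* G}
    (hpr : ∀ σ, Gm.pr (φ σ) = Gm.M.e ((l.map fun a => X.bt a σ).sum) * c σ) (σ : Gal(Ω/K)) :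
    φ σ = Gm.z (ff Gm X c l φ σ) * nf Gm l (fun a => X.bt a σ) (c σ) := by
  obtain ⟨a, ha⟩ := gm_fib Gm (x := φ σ) (y := nf Gm l (fun a => X.bt a σ) (c σ))
    (by rw [hpr, nf_pr])
  have h : ff Gm X c l φ σ = a := by
    unfold ff
    rw [ha, mul_inv_cancel_right, zz_z]
  rw [h]
  exact ha

theorem ff_mul (hp : p.Prime) (hζ : IsPrimitiveRoot ζ p) {c : Gal(Ω/K) →* R} (hc : X.IsL c)
    {l : List X.Lb} {φ : Gal(Ω/K) →* G}
    (hpr : ∀ σ, Gm.pr (φ σ) = Gm.M.e ((l.map fun a => X.bt a σ).sum) * c σ) (σ τ : Gal(Ω/K)) :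
    ff Gm X c l φ (σ * τ) = ff Gm X c l φ σ + ff Gm X c l φ τ +
      ((l.map fun a => ph1 Gm X c a σ τ).sum +
        ps l (fun a b => Gm.M.om (X.bt b σ) (Gm.M.act (X.φQ σ) (X.bt a τ))) +
        cr Gm (c σ) (c τ)) := by
  have h1 := ff_spec Gm X hpr (σ * τ)
  have h2 : φ (σ * τ) = Gm.z (ff Gm X c l φ σ + ff Gm X c l φ τ) *
      (nf Gm l (fun a => X.bt a σ) (c σ) * nf Gm l (fun a => X.bt a τ) (c τ)) := by
    rw [map_mul, ff_spec Gm X hpr σ, ff_spec Gm X hpr τ, z_swap, add_comm, Gm.zadd]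
    simp only [mul_assoc]
  rw [nf_mul, ← mul_assoc, ← Gm.zadd, h1] at h2
  have h3 : (fun a => X.bt a (σ * τ)) =
      fun a => X.bt a σ + Gm.M.act (Gm.M.π (c σ)) (X.bt a τ) := by
    funext a
    rw [(bt_cy X hp hζ a).co, hc.pi]
  rw [h3, map_mul] at h2
  have h4 := Gm.zinj (mul_right_cancel h2)
  rw [h4, hc.pi]
  rfl

theorem om1_co (hp : p.Prime) (hζ : IsPrimitiveRoot ζ p) {c : Gal(Ω/K) →* R} (hc : X.IsL c)
    {η : Q → Fin w → ZMod p} (hη : Ea Gm.M η) {l : List X.Lb} {φ : Gal(Ω/K) →* G}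
    (hpr : ∀ σ, Gm.pr (φ σ) = Gm.M.e ((l.map fun a => X.bt a σ).sum) * c σ)
    (σ τ υ : Gal(Ω/K)) :
    om1 Gm X c η l φ τ υ + om1 Gm X c η l φ σ (τ * υ) - om1 Gm X c η l φ (σ * τ) υ -
      om1 Gm X c η l φ σ τ =
    dt (η (X.φQ σ)) ((l.map fun a => ph1 Gm X c a τ υ).sum + cr Gm (c τ) (c υ)) := by
  have hps : ps l (fun a b => Lm Gm.M η (mm X b τ) (Gm.M.act (X.φQ τ) (X.bt a υ))) +
      ps l (fun a b => Lm Gm.M η (mm X b σ) (Gm.M.act (X.φQ σ) (X.bt a (τ * υ)))) +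
      dt (η (X.φQ σ)) (ps l (fun a b => Gm.M.om (X.bt b τ) (Gm.M.act (X.φQ τ) (X.bt a υ)))) =
      ps l (fun a b => Lm Gm.M η (mm X b (σ * τ)) (Gm.M.act (X.φQ (σ * τ)) (X.bt a υ))) +
      ps l (fun a b => Lm Gm.M η (mm X b σ) (Gm.M.act (X.φQ σ) (X.bt a τ))) := by
    let hd : (Fin w → ZMod p) →+ ZMod p :=
      { toFun := dt (η (X.φQ σ))
        map_zero' := dt_zero' _
        map_add' := fun x y => dt_add' _ x y }
    have h0 : dt (η (X.φQ σ)) (ps l (fun a b => Gm.M.om (X.bt b τ)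
        (Gm.M.act (X.φQ τ) (X.bt a υ)))) = ps l (fun a b => dt (η (X.φQ σ))
          (Gm.M.om (X.bt b τ) (Gm.M.act (X.φQ τ) (X.bt a υ)))) := ps_hom hd l _
    rw [h0, ← ps_add, ← ps_add, ← ps_add]
    refine ps_congr l _ _ fun a _ b _ => ?_
    have h1 : X.bt a (τ * υ) = X.bt a τ + Gm.M.act (X.φQ τ) (X.bt a υ) :=
      (bt_cy X hp hζ a).co τ υ
    have h2 : mm X b (σ * τ) = mm X b σ + pe Gm.M (X.φQ σ) (mm X b τ) :=
      (bt_cy (UX X) hp hζ b).co σ τ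
    rw [h1, h2, map_mul, Gm.M.act_mul, map_add, map_add, map_add, LinearMap.add_apply,
      Lm_act Gm.M hη, vp_mm]
    ring
  have hf := ff_mul Gm X hp hζ hc hpr τ υ
  unfold om1
  rw [hf]
  rw [map_mul X.φQ σ τ] at hps ⊢
  rw [hη.mul, dt_ladd]
  simp only [dt_add'] at hps ⊢
  linear_combination hps

theorem om1_one (hp : p.Prime) (hζ : IsPrimitiveRoot ζ p) {c : Gal(Ω/K) →* R}
    {η : Q → Fin w → ZMod p} (hη : Ea Gm.M η) (l : List X.Lb) (φ : Gal(Ω/K) →* G)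
    (σ : Gal(Ω/K)) : om1 Gm X c η l φ 1 σ = 0 ∧ om1 Gm X c η l φ σ 1 = 0 := by
  have hps0 : ps l (fun _ _ => (0 : ZMod p)) = 0 := by
    have h := ps_add l (fun _ _ => (0 : ZMod p)) (fun _ _ => (0 : ZMod p))
    rw [add_zero] at h
    exact left_eq_add.1 h
  constructor
  · unfold om1
    have h1 : ps l (fun a b => Lm Gm.M η (mm X b 1) (Gm.M.act (X.φQ 1) (X.bt a σ))) = 0 := by
      rw [← hps0]
      refine ps_congr l _ _ fun a _ b _ => ?_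
      have h2 : mm X b 1 = 0 := cy_one (UX X) (bt_cy (UX X) hp hζ b)
      rw [h2, map_zero, LinearMap.zero_apply]
    rw [h1, map_one, hη.one, dt_lzero, add_zero]
  · unfold om1
    have h0 : ∀ a, X.bt a 1 = 0 := fun a => cy_one X (bt_cy X hp hζ a)
    have h1 : ps l (fun a b => Lm Gm.M η (mm X b σ) (Gm.M.act (X.φQ σ) (X.bt a 1))) = 0 := by
      rw [← hps0]
      refine ps_congr l _ _ fun a _ b _ => ?_
      rw [h0, map_zero, map_zero]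
    have h2 : nf Gm l (fun a => X.bt a 1) (c 1) = 1 := by
      unfold nf
      rw [map_one, sec_one, mul_one]
      refine List.prod_eq_one fun x hx => ?_
      obtain ⟨a, _, rfl⟩ := List.mem_map.1 hx
      change Gm.sec (Gm.M.e (X.bt a 1)) = 1
      rw [h0, gm_e0, sec_one]
    have h3 : ff Gm X c l φ 1 = 0 := by
      unfold ff
      rw [h2, map_one, inv_one, mul_one, ← gm_z0 Gm, zz_z]
    rw [h1, h3, dt_zero', add_zero]

theorem om1_fin {c : Gal(Ω/K) →* R} (hc : X.IsL c) (η : Q → Fin w → ZMod p)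
    (l : List X.Lb) (φ : Gal(Ω/K) →* G) {σ σ' τ τ' : Gal(Ω/K)} (h1 : φ τ = φ τ')
    (h2 : c σ = c σ') (h3 : c τ = c τ') (h4 : ∀ a ∈ l, mm X a σ = mm X a σ')
    (h5 : ∀ a ∈ l, mm X a τ = mm X a τ') : om1 Gm X c η l φ σ τ = om1 Gm X c η l φ σ' τ' := by
  have hq : X.φQ σ = X.φQ σ' := by rw [← hc.pi, ← hc.pi, h2]
  have hb : ∀ a ∈ l, X.bt a τ = X.bt a τ' := fun a ha => by
    rw [← vp_mm, ← vp_mm, h5 a ha]
  have hn : nf Gm l (fun a => X.bt a τ) (c τ) = nf Gm l (fun a => X.bt a τ') (c τ') := by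
    unfold nf
    rw [h3]
    congr 2
    refine List.map_congr_left fun a ha => ?_
    change Gm.sec (Gm.M.e (X.bt a τ)) = Gm.sec (Gm.M.e (X.bt a τ'))
    rw [hb a ha]
  have hff : ff Gm X c l φ τ = ff Gm X c l φ τ' := by
    unfold ff
    rw [hn, h1]
  unfold om1
  rw [hq, hff]
  congr 1
  refine ps_congr l _ _ fun a ha b hb' => ?_
  rw [h4 b hb', hb a ha]

end H51.MT
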