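import Pool.Agent.H51.MT.Sto
import Pool.Agent.H51.MT.Oma
import Pool.Agent.H48.MG.Defs

/-!
# [H51 MT SZE] at `S0` everything depends only on the profile (90-140 lines)

`me G p = 2 * p * exponent G`, `pfl X m g x` = number of labels of `g` of state `x`, modulo `m`. Let `g`, `g'` be families of good labels with the same profile modulo `me G p`, `σ ∈ dec (P v)`, `v ∈ S0`. For a function `f` of good labels which only depends on the state (`stt_bt`, `stt_v`: `mm a σ`, `bt a σ`) write `f a = f' (ns (stt a))`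
(`f' x = f b` for a chosen good label `b` of state `x`, `0` or `1` if there is none).
* `sze_sum`: `∑ a ∈ g, f a = ∑ x, (number of labels of state x) • f' x`; the number modulo `p` is given (`p ∣ me G p`, `ZMod.castHom` or `ZMod.natCast_eq_natCast_iff`), values in a module over `ZMod p`.
* `sze_nf`: `prd_eq` for the list `(so X g).map (ns ∘ stt)` (`so_st`, `so_cnt`) and `f' = sec (e (bt ..))`: powers in `G` depend on the exponent modulo `exponent G` (`Monoid.pow_exponent_eq_one`, `pow_eq_pow_iff_modEq`/`pow_mod_orderOf`).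
* `sze_ps`: `ps_map`, `ps_cnt`, values in `ZMod p`: `count x * count y` modulo `p`, `(count x).choose 2 = count x * (count x - 1) / 2` modulo `p` is determined by `count x` modulo `2 * p`.
* `sze_rh`: `rh_tw`: `rh X c g σ = e (bet g σ) * c σ`, `sze_sum`.
* `sze_om`: `ff` by `sze_nf` and `hφ`; the pairs: `Lm (mm b σ) (act (φQ σ) (bt a τ))` is a function of the states (`sze_ps`).
-/

set_option autoImplicit false
set_option linter.dupNamespace false

open scoped NumberField Pointwise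
open IsDedekindDomain NumberField
open scoped Classical

noncomputable section

namespace H51.MT

open H63.MA H38.BB H38.BG H57.PC H57.BRA H89.BRG H1.AR H48.MF H48.MG

variable {p u w N : ℕ} {G R Q : Type} [Group G] [Group R] [Group Q] [Fintype Q]
  (Gm : GM p u w N G R Q) {K : Type} [Field K] [NumberField K] {Ω : Type} [Field Ω] [Algebra K Ω]
  [IsAlgClosure K Ω] {ζ : K} (X : AD Gm.M K Ω ζ)

/-- the modulus of the profiles -/
def me (G : Type) [Group G] (p : ℕ) : ℕ := 2 * p * Monoid.exponent G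

theorem me_ne [Finite G] (hp : p.Prime) : NeZero (me G p) := by
  refine ⟨?_⟩
  unfold me
  exact mul_ne_zero (mul_ne_zero two_ne_zero hp.ne_zero) Monoid.exponent_ne_zero_of_finite

/-- the profile of a family -/
def pfl (m : ℕ) (g : Finset X.Lb) (x : Stt X) : ZMod m :=
  ((g.filter fun a => stt X a = x).card : ZMod m)

variable {Gm X}

omit [IsAlgClosure K Ω] in
private theorem sze_md {g g' : Finset X.Lb} (h : pfl Gm X (me G p) g = pfl Gm X (me G p) g')
    (x : Stt X) : (g.filter fun a => stt X a = x).card ≡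
      (g'.filter fun a => stt X a = x).card [MOD me G p] :=
  (ZMod.natCast_eq_natCast_iff _ _ _).1 (congrFun h x)

private theorem sze_p : p ∣ me G p := ⟨2 * Monoid.exponent G, by unfold me; ring⟩

private theorem sze_2p : 2 * p ∣ me G p := ⟨Monoid.exponent G, rfl⟩

/-- the list of the states -/
private def sze_l [NeZero p] (g : Finset X.Lb) : List (Fin (Fintype.card (Stt X))) :=
  (so X g).map fun a => ns X (stt X a)

private theorem sze_ct [NeZero p] {g g' : Finset X.Lb}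
    (h : pfl Gm X (me G p) g = pfl Gm X (me G p) g') (x : Fin (Fintype.card (Stt X))) :
    (sze_l g).count x ≡ (sze_l g').count x [MOD me G p] := by
  have h1 : ∀ g : Finset X.Lb, (sze_l g).count x =
      (g.filter fun a => stt X a = (ns X).symm x).card := by
    intro g
    have h2 := so_cnt X g ((ns X).symm x)
    rw [Equiv.apply_symm_apply] at h2
    exact h2
  rw [h1 g, h1 g']
  exact sze_md h _

private theorem sze_ch {m n n' : ℕ} (h : n ≡ n' [MOD 2 * m]) :
    n.choose 2 ≡ n'.choose 2 [MOD m] := by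
  apply Nat.ModEq.mul_left_cancel' (c := 2) two_ne_zero
  have h0 : ∀ k : ℕ, 2 * k.choose 2 + k = k * k := by
    intro k
    induction k with
    | zero => rfl
    | succ k ih =>
      rw [Nat.choose_succ_succ' k 1, Nat.choose_one_right]
      nlinarith
  have h1 : 2 * n.choose 2 + n ≡ 2 * n'.choose 2 + n' [MOD 2 * m] := by
    rw [h0, h0]
    exact h.mul h
  exact Nat.ModEq.add_right_cancel h h1

omit [IsAlgClosure K Ω] in
private theorem sze_f1 {n : ℕ} (e : Stt X ≃ Fin n) {B : Type} [Inhabited B] (f : X.Lb → B)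
    (hf : ∀ a b, X.Gd a → X.Gd b → stt X a = stt X b → f a = f b) :
    ∃ f' : Fin n → B, ∀ a, X.Gd a → f' (e (stt X a)) = f a := by
  refine ⟨fun x => if h : ∃ b, X.Gd b ∧ e (stt X b) = x then f h.choose else default,
    fun a ha => ?_⟩
  have h : ∃ b, X.Gd b ∧ e (stt X b) = e (stt X a) := ⟨a, ha, rfl⟩
  beta_reduce
  rw [dif_pos h]
  exact hf _ _ h.choose_spec.1 ha (e.injective h.choose_spec.2)

omit [IsAlgClosure K Ω] in
private theorem sze_f2 {n : ℕ} (e : Stt X ≃ Fin n) (F : X.Lb → X.Lb → ZMod p)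
    (hF : ∀ a b a' b', X.Gd a → X.Gd b → X.Gd a' → X.Gd b' → stt X a = stt X a' →
      stt X b = stt X b' → F a b = F a' b') :
    ∃ F' : Fin n → Fin n → ZMod p, ∀ a b, X.Gd a → X.Gd b →
      F' (e (stt X a)) (e (stt X b)) = F a b := by
  refine ⟨fun x y => if h : ∃ z : X.Lb × X.Lb, X.Gd z.1 ∧ X.Gd z.2 ∧ e (stt X z.1) = x ∧
    e (stt X z.2) = y then F h.choose.1 h.choose.2 else 0, fun a b ha hb => ?_⟩
  have h : ∃ z : X.Lb × X.Lb, X.Gd z.1 ∧ X.Gd z.2 ∧ e (stt X z.1) = e (stt X a) ∧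
    e (stt X z.2) = e (stt X b) := ⟨(a, b), ha, hb, rfl, rfl⟩
  beta_reduce
  rw [dif_pos h]
  obtain ⟨h1, h2, h3, h4⟩ := h.choose_spec
  exact hF _ _ _ _ h1 h2 ha hb (e.injective h3) (e.injective h4)

private theorem sze_fr [NeZero p] (Gm : GM p u w N G R Q) : Finite R := by
  choose s hs using Gm.M.πs
  refine Finite.of_surjective (fun z : Q × (Fin u → ZMod p) => Gm.M.e z.2 * s z.1) fun r => ?_
  obtain ⟨x, hx⟩ := (Gm.M.eker (r * (s (Gm.M.π r))⁻¹)).1
    (by rw [map_mul, map_inv, hs, mul_inv_cancel])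
  refine ⟨(Gm.M.π r, x), ?_⟩
  show Gm.M.e x * s (Gm.M.π r) = r
  rw [hx, inv_mul_cancel_right]

private theorem sze_fg [NeZero p] (Gm : GM p u w N G R Q) : Finite G := by
  have := sze_fr Gm
  refine Finite.of_surjective (fun z : R × (Fin w → ZMod p) => Gm.z z.2 * Gm.sec z.1) fun x => ?_
  obtain ⟨a, ha⟩ := gm_fib Gm (x := x) (y := Gm.sec (Gm.pr x)) (by rw [Gm.sec_pr])
  exact ⟨(Gm.pr x, a), ha.symm⟩

theorem sze_sum [NeZero p] {g g' : Finset X.Lb} (hg : ∀ a ∈ g, X.Gd a) (hg' : ∀ a ∈ g', X.Gd a)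
    (h : pfl Gm X (me G p) g = pfl Gm X (me G p) g') {A : Type} [AddCommGroup A] [Module (ZMod p) A]
    (f : X.Lb → A) (hf : ∀ a b, X.Gd a → X.Gd b → stt X a = stt X b → f a = f b) :
    ∑ a ∈ g, f a = ∑ a ∈ g', f a := by
  rw [← Finset.sum_fiberwise g (stt X) f, ← Finset.sum_fiberwise g' (stt X) f]
  refine Finset.sum_congr rfl fun x _ => ?_
  have hmp : (((g.filter fun a => stt X a = x).card : ℕ) : ZMod p) =
      ((g'.filter fun a => stt X a = x).card : ℕ) :=
    (ZMod.natCast_eq_natCast_iff _ _ _).2 ((sze_md h x).of_dvd sze_p)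
  by_cases hb : ∃ b, X.Gd b ∧ stt X b = x
  · obtain ⟨b, hb1, hb2⟩ := hb
    have h1 : ∀ g : Finset X.Lb, (∀ a ∈ g, X.Gd a) → ∑ a ∈ g with stt X a = x, f a =
        (((g.filter fun a => stt X a = x).card : ℕ) : ZMod p) • f b := by
      intro g hg
      rw [Nat.cast_smul_eq_nsmul, ← Finset.sum_const]
      refine Finset.sum_congr rfl fun a ha => ?_
      rw [Finset.mem_filter] at ha
      exact hf a b (hg a ha.1) hb1 (ha.2.trans hb2.symm)
    rw [h1 g hg, h1 g' hg', hmp]
  · have h1 : ∀ g : Finset X.Lb, (∀ a ∈ g, X.Gd a) → ∑ a ∈ g with stt X a = x, f a = 0 := by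
      intro g hg
      refine Finset.sum_eq_zero fun a ha => ?_
      rw [Finset.mem_filter] at ha
      exact absurd ⟨a, hg a ha.1, ha.2⟩ hb
    rw [h1 g hg, h1 g' hg']

theorem sze_prd [Finite G] [NeZero p] {g g' : Finset X.Lb} (hg : ∀ a ∈ g, X.Gd a)
    (hg' : ∀ a ∈ g', X.Gd a) (h : pfl Gm X (me G p) g = pfl Gm X (me G p) g') (f : X.Lb → G)
    (hf : ∀ a b, X.Gd a → X.Gd b → stt X a = stt X b → f a = f b) :
    ((so X g).map f).prod = ((so X g').map f).prod := by
  have : Inhabited G := ⟨1⟩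
  obtain ⟨f', hf'⟩ := sze_f1 (ns X) f hf
  have key : ∀ g : Finset X.Lb, (∀ a ∈ g, X.Gd a) → ((so X g).map f).prod =
      ((List.finRange _).map fun x => f' x ^ (sze_l g).count x).prod := by
    intro g hg
    rw [← prd_eq (sze_l g) (so_st X g) f']
    unfold sze_l
    rw [List.map_map]
    congr 1
    exact List.map_congr_left fun a ha => (hf' a (hg a ((so_mem X g a).1 ha))).symm
  rw [key g hg, key g' hg']
  congr 1
  refine List.map_congr_left fun x _ => ?_
  exact pow_eq_pow_iff_modEq.2 ((sze_ct h x).of_dvd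
    ((Monoid.order_dvd_exponent _).trans (Dvd.intro_left _ rfl)))

theorem sze_ps [NeZero p] {g g' : Finset X.Lb} (hg : ∀ a ∈ g, X.Gd a) (hg' : ∀ a ∈ g', X.Gd a)
    (h : pfl Gm X (me G p) g = pfl Gm X (me G p) g') (F : X.Lb → X.Lb → ZMod p)
    (hF : ∀ a b a' b', X.Gd a → X.Gd b → X.Gd a' → X.Gd b' → stt X a = stt X a' →
      stt X b = stt X b' → F a b = F a' b') :
    ps (so X g) F = ps (so X g') F := by
  obtain ⟨F', hF'⟩ := sze_f2 (ns X) F hF
  have key : ∀ g : Finset X.Lb, (∀ a ∈ g, X.Gd a) → ps (so X g) F = ps (sze_l g) F' := by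
    intro g hg
    unfold sze_l
    rw [ps_map]
    exact ps_congr _ _ _ fun a ha b hb =>
      (hF' a b (hg a ((so_mem X g a).1 ha)) (hg b ((so_mem X g b).1 hb))).symm
  rw [key g hg, key g' hg', ps_cnt (sze_l g) (so_st X g), ps_cnt (sze_l g') (so_st X g')]
  congr 1
  · refine Finset.sum_congr rfl fun x _ => Finset.sum_congr rfl fun y _ => ?_
    split_ifs
    · rw [nsmul_eq_mul, nsmul_eq_mul]
      congr 1
      exact (ZMod.natCast_eq_natCast_iff _ _ _).2
        (((sze_ct h x).mul (sze_ct h y)).of_dvd sze_p)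
    · rfl
  · refine Finset.sum_congr rfl fun x _ => ?_
    rw [nsmul_eq_mul, nsmul_eq_mul]
    congr 1
    exact (ZMod.natCast_eq_natCast_iff _ _ _).2 (sze_ch ((sze_ct h x).of_dvd sze_2p))

theorem sze_rh [NeZero p] (hp : p.Prime) (hp2 : MOne p K) (hζ : IsPrimitiveRoot ζ p)
    {c : Gal(Ω/K) →* R} (hc : X.IsC c) {g g' : Finset X.Lb} (hg : ∀ a ∈ g, X.Gd a)
    (hg' : ∀ a ∈ g', X.Gd a) (h : pfl Gm X (me G p) g = pfl Gm X (me G p) g') :
    ∀ v ∈ X.D.S0, ∀ σ ∈ dec (K := K) (X.P.P v), rh X c g σ = rh X c g' σ := by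
  intro v hv σ hσ
  have h1 := sze_fr Gm
  have h2 := sze_fg Gm
  rw [rh_tw Gm X hp hζ hc g σ, rh_tw Gm X hp hζ hc g' σ]
  congr 2
  exact sze_sum hg hg' h (fun a => X.bt a σ) fun a b ha hb hab =>
    stt_v X hp hp2 hζ ha hb hab v hv σ hσ

theorem sze_om [Finite G] [NeZero p] (hp : p.Prime) (hp2 : MOne p K) (hζ : IsPrimitiveRoot ζ p)
    (c : Gal(Ω/K) →* R) (η : Q → Fin w → ZMod p) {g g' : Finset X.Lb} (hg : ∀ a ∈ g, X.Gd a)
    (hg' : ∀ a ∈ g', X.Gd a) (h : pfl Gm X (me G p) g = pfl Gm X (me G p) g')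
    {φ φ' : Gal(Ω/K) →* G} {v : Pl K} (hv : v ∈ X.D.S0)
    (hφ : ∀ σ ∈ dec (K := K) (X.P.P v), φ σ = φ' σ) {σ τ : Gal(Ω/K)}
    (hσ : σ ∈ dec (K := K) (X.P.P v)) (hτ : τ ∈ dec (K := K) (X.P.P v)) :
    om1 Gm X c η (so X g) φ σ τ = om1 Gm X c η (so X g') φ' σ τ := by
  unfold om1
  congr 1
  · congr 1
    unfold ff nf
    rw [hφ τ hτ, sze_prd hg hg' h (fun a => Gm.sec (Gm.M.e (X.bt a τ))) fun a b ha hb hab => by
      rw [stt_v X hp hp2 hζ ha hb hab v hv τ hτ]]
  · refine sze_ps hg hg' h _ fun a b a' b' ha hb ha' hb' haa hbb => ?_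
    rw [stt_v X hp hp2 hζ ha ha' haa v hv τ hτ, stt_bt X hp hp2 hζ hb hb' hbb v hv σ hσ]

end H51.MT
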