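import Pool.Agent.H51.MT.Loc
import Pool.Agent.H51.MT.Sze
import Pool.Agent.H51.MT.Brg
import Pool.Agent.H48.MF.Esc
import Pool.Agent.H38.BG.ABet

/-!
# [H51 MT CRA] the invariants of the cochain of one lift, summed (80-120 lines)

`AL Gm X φ₁ c g φ ε`. Let `T` be a finite set of places outside `S0` which contains all `v ∉ S0` with `φ (t v) ≠ 1` and all `un a`, `a ∈ g`; `lam` weights with `lam v = 1` for `v ∤ p` of prime norm. `∑_{v ∈ T} lam v * L v = Oe X η ε + ∑_{a, b ∈ g, olt a b} Pb b a + ∑_{a ∈ g} sl a`: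
* `v ∈ T` of norm not prime: `v` is not under `g` (`ltb_nm`), `φ (t v) = 1 = z 0` (`AL.un`; `t v ∈ inr`), `loc0`: `L v = 0`. `v` good, not under `g`: `loc0` with `ε v` (`AL.e1`), `lam v = 1` (`X.D.above`). `v = un a` (one `a`, `Ok`): `loc1` with `ε (un a)` (`AL.e2`, `AL.pw`), `lam v = 1`.
* `Oe X η ε = ∑ᶠ v, dt (η (φQ (F v))) (ε v)`; `ε v = 0` for `v ∉ T` (`AL.e0`; `v` good, not under `g`, `φ (t v) = 1` gives `z (ε v) = 1`, `ε v = 0`) and for `v` not good: `finsum_eq_sum_of_support_subset`.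
* `cra_T`: such a `T` exists: `ram_finite hp X.D X.L φ hft` and `g.image un`.
-/

set_option autoImplicit false
set_option linter.dupNamespace false

open scoped NumberField Pointwise
open IsDedekindDomain NumberField
open scoped Classical

noncomputable section

namespace H51.MT

open H63.MA H38.BB H38.BG H57.PC H57.BRA H89.BRG H1.AR H48.MF H48.MG

variable {p u w N : ℕ} {G R Q : Type} [Group G] [Group R] [Group Q] [Fintype Q]
  (Gm : GM p u w N G R Q) {K : Type} [Field K] [NumberField K] {Ω : Type} [Field Ω] [Algebra K Ω]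
  [IsAlgClosure K Ω] {ζ : K} (X : AD Gm.M K Ω ζ)

theorem cra_T (hp : p.Prime) {φ : Gal(Ω/K) →* G} [Finite G] (hft : H38.ML.FT φ)
    (g : Finset X.Lb) (hg : X.Ok g) : ∃ T : Finset (Pl K), (∀ v ∈ T, v ∉ X.D.S0) ∧
      (∀ v, v ∉ X.D.S0 → φ (X.L.t v) ≠ 1 → v ∈ T) ∧ ∀ a ∈ g, X.un a ∈ T := by
  refine ⟨(ram_finite hp X.D X.L φ hft).toFinset ∪ g.image X.un, fun v hv => ?_,
    fun v hv h => ?_, fun a ha => ?_⟩
  · rcases Finset.mem_union.1 hv with h | h
    · exact ((Set.Finite.mem_toFinset _).1 h).1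
    · obtain ⟨a, ha, rfl⟩ := Finset.mem_image.1 h
      exact un_not X (hg.1 a ha).1
  · exact Finset.mem_union_left _ ((Set.Finite.mem_toFinset _).2 ⟨hv, h⟩)
  · exact Finset.mem_union_right _ (Finset.mem_image_of_mem _ ha)

private theorem cra_z0 : Gm.z 0 = 1 := by
  have h := Gm.zadd 0 0
  rw [add_zero] at h
  exact mul_eq_left.1 h.symm

private theorem cra_inr {v : Pl K} (hv : v ∉ X.D.S0) : X.L.t v ∈ inr X.L v := by
  unfold LDs.t inr
  rw [dif_pos hv, dif_pos hv]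
  exact (X.L.ld v hv).ht

private theorem cra_dt {m : ℕ} (θ : Fin m → ZMod p) : dt θ (0 : Fin m → ZMod p) = 0 := by
  unfold dt
  exact Finset.sum_eq_zero fun k _ => mul_zero _

theorem cra [Finite G] [NeZero p] (hp : p.Prime) (hζ : IsPrimitiveRoot ζ p) (hz : Z2 p K)
    {c : Gal(Ω/K) →* R} (hc : X.IsC c) {η : Q → Fin w → ZMod p} (hη : Ea Gm.M η)
    {g : Finset X.Lb} (hg : X.Ok g) {φ₁ φ : Gal(Ω/K) →* G} {ε : Pl K → Fin w → ZMod p}
    (h : AL Gm X φ₁ c g φ ε) (T : Finset (Pl K)) (hT : ∀ v ∈ T, v ∉ X.D.S0)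
    (hT1 : ∀ v, v ∉ X.D.S0 → φ (X.L.t v) ≠ 1 → v ∈ T) (hT2 : ∀ a ∈ g, X.un a ∈ T)
    (lam : Pl K → ZMod p) (hlam : ∀ v : Pl K, ¬ Above p v → (nm v).Prime → lam v = 1) :
    ∑ v ∈ T, lam v * (om1 Gm X c η (so X g) φ (X.Fr.F v) (X.L.t v) -
      om1 Gm X c η (so X g) φ (X.L.t v) (X.Fr.F v)) =
    Oe X η ε + (∑ a ∈ g, ∑ b ∈ g, if olt X a b then Pb X η b a else 0) +
      ∑ a ∈ g, sl Gm X c η a := by
  have key : ∀ v ∈ T, lam v * (om1 Gm X c η (so X g) φ (X.Fr.F v) (X.L.t v) -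
      om1 Gm X c η (so X g) φ (X.L.t v) (X.Fr.F v)) =
      dt (η (X.φQ (X.Fr.F v))) (ε v) + ∑ a ∈ g, if X.un a = v then
        ((∑ b ∈ g, if olt X a b then Pb X η b a else 0) + sl Gm X c η a) else 0 := by
    intro v hv
    by_cases hu : ∃ a ∈ g, X.un a = v
    · obtain ⟨a, ha, rfl⟩ := hu
      have hpr : (nm (X.un a)).Prime := by
        rw [← ltb_nm X (hg.1 a ha)]
        exact (hg.1 a ha).2
      rw [hlam _ (ltb_na X (hg.1 a ha)).2 hpr, one_mul,
        loc1 Gm X hp hζ hz hc hη hg h.ft h.pr ha (h.pw _ (hT _ hv)) (h.e2 a ha),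
        Finset.sum_eq_single a (fun b hb hba => if_neg (hg.2 b hb a ha hba))
          (fun hna => absurd ha hna), if_pos rfl, add_assoc]
    · have hvg : ∀ a ∈ g, X.un a ≠ v := fun a ha hav => hu ⟨a, ha, hav⟩
      rw [Finset.sum_eq_zero fun a ha => if_neg (hvg a ha), add_zero]
      by_cases hpr : (nm v).Prime
      · have hna : ¬ Above p v := fun h' => hT v hv (X.D.above v h')
        rw [hlam v hna hpr, one_mul, loc0 Gm X hp hζ hc hη hg φ (hT v hv) hvg
          (h.e1 v ⟨hT v hv, hpr⟩ hvg)]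
      · have h1 : φ (X.L.t v) = Gm.z 0 := by
          rw [cra_z0]
          exact h.un v (hT v hv) hpr _ (cra_inr Gm X (hT v hv))
        rw [loc0 Gm X hp hζ hc hη hg φ (hT v hv) hvg h1, h.e0 v fun h' => hpr h'.2, cra_dt,
          mul_zero]
  have hO : Oe X η ε = ∑ v ∈ T, dt (η (X.φQ (X.Fr.F v))) (ε v) := by
    unfold Oe
    refine finsum_eq_sum_of_support_subset _ fun v hv => ?_
    by_contra hvT
    refine hv ?_
    have hε : ε v = 0 := by
      by_cases hG : X.D.Gd v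
      · have h1 : φ (X.L.t v) = 1 := by
          by_contra hne
          exact hvT (hT1 v hG.1 hne)
        have h2 := h.e1 v hG fun a ha hav => hvT (hav ▸ hT2 a ha)
        rw [h1, ← cra_z0 Gm] at h2
        exact (Gm.zinj h2).symm
      · exact h.e0 v hG
    show dt (η (X.φQ (X.Fr.F v))) (ε v) = 0
    rw [hε, cra_dt]
  rw [Finset.sum_congr rfl key, Finset.sum_add_distrib, ← hO, Finset.sum_comm]
  have h3 : ∀ a ∈ g, (∑ v ∈ T, if X.un a = v then
      ((∑ b ∈ g, if olt X a b then Pb X η b a else 0) + sl Gm X c η a) else 0) =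
      (∑ b ∈ g, if olt X a b then Pb X η b a else 0) + sl Gm X c η a := fun a ha => by
    rw [Finset.sum_ite_eq, if_pos (hT2 a ha)]
  rw [Finset.sum_congr rfl h3, Finset.sum_add_distrib, add_assoc]

end H51.MT
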