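import Pool.Agent.H51.MT.Cra

/-!
# [H51 MT CRB] the relation for a combination of lifts (130-190 lines)

`S` a finite set of `Ok` families with adapted lifts `φ g`, `ε g`, equal on the decomposition groups of `S0` for equal profiles; coefficients `n g` with `∑_{g ∋ a} n g = 0` for every label and `∑_{pfl g = π} n g = 0` for every profile. `E σ τ = ∑ g ∈ S, n g * om1 (so X g) (φ g) σ τ`. `brg` for `E`:
* `h1`, `h2`: `om1_one`. `hpr` of `om1_co`: `AL.pr`, `rh_tw`, `so_sum` (`bet g σ = ∑ a ∈ g, bt a σ`).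
* `hco`: by `om1_co` the coboundary is `∑_g n g * dt (η (φQ σ)) (∑_{a ∈ g} ph1 a τ υ + cr (c τ) (c υ))` (`so_sum`) `= ∑_a (∑_{g ∋ a} n g) * dt (η ..) (ph1 a τ υ) + (∑_g n g) * dt (η ..) (cr ..) = 0`: swap the sums (`a ∈ S.biUnion id`); `∑_g n g = 0` is the sum of `hn2` over the (finitely many) profiles `pfl g`, `g ∈ S`.
* `ρ`: the homomorphism to `(∀ g : S, G) × (∀ a : (S.biUnion id), V' ⋊ Q) × R`: `φ g`, `(mm a, φQ)` (see Lcp.lean), `c`; finite group (`Finite R`), finite type (a finite product of homomorphisms of finite type: take the compositum of the fields; `IntermediateField.finiteDimensional_iSup_of_finite`), exponent `p` on the inertia groups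
  outside `S0` (`AL.pw`, `par_pow` for `UX X`, `c = 1`). `hE`: `om1_fin`.
* `hS`: on `dec (P v)`, `v ∈ S0`: `E = 0`: by `sze_om` the value of `om1` depends only on the profile, so `∑_g n g * om1 = ∑_π (∑_{pfl g = π} n g) * .. = 0`. (`Kl` with the function `0`.)
* `T`: the union of the sets of `cra_T` for `g ∈ S` and of the `un a`. `hur`: outside `T`: `φ g (t v) = 1`, `mm a (t v) = 0` (`lc_0`), `φQ (t v) = 1`, `c (t v) = 1`.
* `lam` from `exists_rec_one K hp hp2 hζ`. The result of `brg` is `∑_g n g * ∑_{v ∈ T} lam v * (..) = 0`; `cra` for every `g`.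
-/

set_option autoImplicit false
set_option linter.dupNamespace false

open scoped NumberField Pointwise
open IsDedekindDomain NumberField
open scoped Classical

noncomputable section

namespace H51.MT

open H63.MA H38.BB H38.BG H57.PC H57.BRA H89.BRG H1.AR H48.MF H48.MG

variable {p u w N : ℕ} {G R Q : Type} [Group G] [Group R] [Group Q] [Fintype Q]
  (Gm : GM p u w N G R Q) {K : Type} [Field K] [NumberField K] {Ω : Type} [Field Ω] [Algebra K Ω]
  [IsAlgClosure K Ω] {ζ : K} (X : AD Gm.M K Ω ζ)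

private theorem crb_ftpi {ι : Type} [Finite ι] {H : ι → Type} [∀ i, Group (H i)]
    (f : ∀ i, Gal(Ω/K) →* H i) (h : ∀ i, H38.ML.FT (f i)) :
    H38.ML.FT (MonoidHom.pi f) := by
  choose E hE hk using h
  have := hE
  refine ⟨⨆ i, E i, IntermediateField.finiteDimensional_iSup_of_finite, fun σ hσ => ?_⟩
  rw [MonoidHom.mem_ker]
  funext i
  exact hk i (IntermediateField.fixingSubgroup_antitone (le_iSup E i) hσ)

private theorem crb_ftpr {H H' : Type} [Group H] [Group H'] (f : Gal(Ω/K) →* H)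
    (f' : Gal(Ω/K) →* H') (h : H38.ML.FT f) (h' : H38.ML.FT f') :
    H38.ML.FT (f.prod f') := by
  obtain ⟨E, hE, hk⟩ := h
  obtain ⟨E', hE', hk'⟩ := h'
  refine ⟨E ⊔ E', IntermediateField.finiteDimensional_sup E E', fun σ hσ => ?_⟩
  rw [MonoidHom.mem_ker]
  exact Prod.ext (hk (IntermediateField.fixingSubgroup_antitone le_sup_left hσ))
    (hk' (IntermediateField.fixingSubgroup_antitone le_sup_right hσ))

/-- combinations with vanishing label sums -/
private theorem crb_lab {ι k : Type} [DecidableEq ι] [CommRing k] (S : Finset (Finset ι)) (n : Finset ι → k)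
    (hn1 : ∀ a, ∑ g ∈ S, (if a ∈ g then n g else 0) = 0) (f : ι → k) :
    ∑ g ∈ S, n g * ∑ a ∈ g, f a = 0 := by
  have h1 : ∀ g ∈ S, n g * ∑ a ∈ g, f a =
      ∑ a ∈ S.biUnion id, (if a ∈ g then n g else 0) * f a := by
    intro g hg
    rw [Finset.mul_sum]
    have h2 : g ⊆ S.biUnion id := Finset.subset_biUnion_of_mem id hg
    rw [← Finset.sum_subset h2 (f := fun a => (if a ∈ g then n g else 0) * f a)]
    · refine Finset.sum_congr rfl fun a ha => ?_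
      rw [if_pos ha]
    · intro a _ ha
      rw [if_neg ha, zero_mul]
  rw [Finset.sum_congr rfl h1, Finset.sum_comm]
  refine Finset.sum_eq_zero fun a _ => ?_
  rw [← Finset.sum_mul, hn1, zero_mul]

/-- combinations with vanishing fibre sums -/
private theorem crb_fib {ι κ k : Type} [DecidableEq κ] [CommRing k] (S : Finset ι) (n : ι → k) (q : ι → κ)
    (hn2 : ∀ π, ∑ g ∈ S, (if q g = π then n g else 0) = 0) (f : ι → k)
    (hf : ∀ g ∈ S, ∀ g' ∈ S, q g = q g' → f g = f g') : ∑ g ∈ S, n g * f g = 0 := by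
  rw [← Finset.sum_fiberwise_of_maps_to (t := S.image q) (g := q)
    (fun g hg => Finset.mem_image_of_mem q hg)]
  refine Finset.sum_eq_zero fun π hπ => ?_
  obtain ⟨g0, hg0, rfl⟩ := Finset.mem_image.1 hπ
  have h1 : ∀ g ∈ S.filter (fun g => q g = q g0), n g * f g = n g * f g0 := by
    intro g hg
    rw [Finset.mem_filter] at hg
    rw [hf g hg.1 g0 hg0 hg.2]
  rw [Finset.sum_congr rfl h1, ← Finset.sum_mul, Finset.sum_filter, hn2, zero_mul]

set_option maxHeartbeats 1000000 in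
theorem crb [Finite G] [Finite R] [NeZero p] (hp : p.Prime) (hp2 : MOne p K)
    (hζ : IsPrimitiveRoot ζ p) (hz : Z2 p K) {c : Gal(Ω/K) →* R} (hc : X.IsC c)
    {η : Q → Fin w → ZMod p} (hη : Ea Gm.M η) {φ₁ : Gal(Ω/K) →* G} (S : Finset (Finset X.Lb))
    (hS : ∀ g ∈ S, X.Ok g) (φ : Finset X.Lb → Gal(Ω/K) →* G)
    (ε : Finset X.Lb → Pl K → Fin w → ZMod p) (hal : ∀ g ∈ S, AL Gm X φ₁ c g (φ g) (ε g))
    (hloc : ∀ g ∈ S, ∀ g' ∈ S, pfl Gm X (me G p) g = pfl Gm X (me G p) g' →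
      ∀ v ∈ X.D.S0, ∀ σ ∈ dec (K := K) (X.P.P v), φ g σ = φ g' σ)
    (n : Finset X.Lb → ZMod p) (hn1 : ∀ a, ∑ g ∈ S, (if a ∈ g then n g else 0) = 0)
    (hn2 : ∀ π, ∑ g ∈ S, (if pfl Gm X (me G p) g = π then n g else 0) = 0) :
    ∑ g ∈ S, n g * (Oe X η (ε g) + (∑ a ∈ g, ∑ b ∈ g, if olt X a b then Pb X η b a else 0) +
      ∑ a ∈ g, sl Gm X c η a) = 0 := by
  have := hp
  obtain ⟨lam, hrec, hone⟩ := exists_rec_one K hp hp2 hζ
  -- the sets of places
  have hTex : ∀ g : Finset X.Lb, ∃ T : Finset (Pl K), g ∈ S → (∀ v ∈ T, v ∉ X.D.S0) ∧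
      (∀ v, v ∉ X.D.S0 → φ g (X.L.t v) ≠ 1 → v ∈ T) ∧ ∀ a ∈ g, X.un a ∈ T := by
    intro g
    by_cases hg : g ∈ S
    · obtain ⟨T, hT⟩ := cra_T Gm X hp (hal g hg).ft g (hS g hg)
      exact ⟨T, fun _ => hT⟩
    · exact ⟨∅, fun h => absurd h hg⟩
  choose T hT using hTex
  obtain ⟨U, hU⟩ : ∃ U : Finset (Pl K), U = S.biUnion T := ⟨_, rfl⟩
  have hU0 : ∀ v ∈ U, v ∉ X.D.S0 := by
    intro v hv
    rw [hU, Finset.mem_biUnion] at hv
    obtain ⟨g, hg, hv⟩ := hv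
    exact (hT g hg).1 v hv
  have hUs : ∀ g ∈ S, ∀ v ∈ T g, v ∈ U := by
    intro g hg v hv
    rw [hU, Finset.mem_biUnion]
    exact ⟨g, hg, hv⟩
  -- the homomorphisms to `V' ⋊ Q`
  have hrex : ∀ a : X.Lb, ∃ ρ : Gal(Ω/K) →* UR Gm.M, (Un Gm.M).Tw (m0 X) ((UX X).bt a) ρ ∧
      (UX X).IsL ρ := fun a => tws (UX X) (m0_isC X).toIsL (bt_cy (UX X) hp hζ a)
  choose r hr hrL using hrex
  have hrv : ∀ a σ, (r a σ).v = mm X a σ := by
    intro a σ
    rw [hr a σ]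
    change mm X a σ + pe Gm.M 1 0 = mm X a σ
    rw [map_zero, add_zero]
  have hrq : ∀ a σ, (r a σ).q = X.φQ σ := by
    intro a σ
    rw [hr a σ]
    change 1 * X.φQ σ = X.φQ σ
    rw [one_mul]
  obtain ⟨A, hA⟩ : ∃ A : Finset X.Lb, A = S.biUnion id := ⟨_, rfl⟩
  have hAm : ∀ g ∈ S, ∀ a ∈ g, a ∈ A := by
    intro g hg a ha
    rw [hA, Finset.mem_biUnion]
    exact ⟨g, hg, ha⟩
  have hAg : ∀ a ∈ A, ∃ g ∈ S, a ∈ g := by
    intro a ha
    rw [hA, Finset.mem_biUnion] at ha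
    exact ha
  obtain ⟨ρ1, hρ1⟩ : ∃ ρ1 : Gal(Ω/K) →* ({g // g ∈ S} → G), ρ1 = MonoidHom.pi fun g => φ g.1 :=
    ⟨_, rfl⟩
  obtain ⟨ρ2, hρ2⟩ : ∃ ρ2 : Gal(Ω/K) →* ({a // a ∈ A} → UR Gm.M),
    ρ2 = MonoidHom.pi fun a => r a.1 := ⟨_, rfl⟩
  obtain ⟨ρ, hρ⟩ : ∃ ρ : Gal(Ω/K) →* ({g // g ∈ S} → G) × ({a // a ∈ A} → UR Gm.M) × R,
    ρ = ρ1.prod (ρ2.prod c) := ⟨_, rfl⟩
  have hft : H38.ML.FT ρ := by
    rw [hρ]
    refine crb_ftpr _ _ ?_ (crb_ftpr _ _ ?_ hc.ft)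
    · rw [hρ1]
      exact crb_ftpi _ fun g => (hal g.1 g.2).ft
    · rw [hρ2]
      exact crb_ftpi _ fun a => (hrL a.1).ft
  have hap1 : ∀ σ (g : {g // g ∈ S}), (ρ σ).1 g = φ g.1 σ := by
    intro σ g
    rw [hρ, hρ1]
    rfl
  have hap2 : ∀ σ (a : {a // a ∈ A}), (ρ σ).2.1 a = r a.1 σ := by
    intro σ a
    rw [hρ, hρ2]
    rfl
  have hap3 : ∀ σ, (ρ σ).2.2 = c σ := by
    intro σ
    rw [hρ]
    rfl
  obtain ⟨E, hE⟩ : ∃ E : Gal(Ω/K) → Gal(Ω/K) → ZMod p, ∀ σ τ, E σ τ =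
      ∑ g ∈ S, n g * om1 Gm X c η (so X g) (φ g) σ τ := ⟨_, fun _ _ => rfl⟩
  have h1 : ∀ σ, E 1 σ = 0 := by
    intro σ
    rw [hE]
    refine Finset.sum_eq_zero fun g _ => ?_
    rw [(om1_one Gm X hp hζ hη (so X g) (φ g) σ).1, mul_zero]
  have h2 : ∀ σ, E σ 1 = 0 := by
    intro σ
    rw [hE]
    refine Finset.sum_eq_zero fun g _ => ?_
    rw [(om1_one Gm X hp hζ hη (so X g) (φ g) σ).2, mul_zero]
  have hn : ∑ g ∈ S, n g = 0 := by
    have h := crb_fib S n (fun g => pfl Gm X (me G p) g) hn2 (fun _ => 1) fun _ _ _ _ _ => rfl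
    simpa using h
  have hco : ∀ σ τ υ, E τ υ + E σ (τ * υ) = E (σ * τ) υ + E σ τ := by
    intro σ τ υ
    have h3 : E τ υ + E σ (τ * υ) - E (σ * τ) υ - E σ τ = 0 := by
      rw [hE, hE, hE, hE, ← Finset.sum_add_distrib, ← Finset.sum_sub_distrib,
        ← Finset.sum_sub_distrib]
      have h4 : ∀ g ∈ S, n g * om1 Gm X c η (so X g) (φ g) τ υ +
          n g * om1 Gm X c η (so X g) (φ g) σ (τ * υ) -
          n g * om1 Gm X c η (so X g) (φ g) (σ * τ) υ -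
          n g * om1 Gm X c η (so X g) (φ g) σ τ =
          n g * (∑ a ∈ g, dt (η (X.φQ σ)) (ph1 Gm X c a τ υ)) +
            n g * dt (η (X.φQ σ)) (cr Gm (c τ) (c υ)) := by
        intro g hg
        have hpr : ∀ σ, Gm.pr (φ g σ) = Gm.M.e (((so X g).map fun a => X.bt a σ).sum) * c σ := by
          intro σ
          rw [(hal g hg).pr σ, rh_tw Gm X hp hζ hc g σ, so_sum]
          rfl
        have h5 := om1_co Gm X hp hζ hc.toIsL hη hpr σ τ υ
        rw [so_sum, dt_add', dt_sum'] at h5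
        rw [← mul_add, ← mul_sub, ← mul_sub, h5, mul_add]
      rw [Finset.sum_congr rfl h4, Finset.sum_add_distrib, crb_lab S n hn1, ← Finset.sum_mul, hn,
        zero_mul, add_zero]
    linear_combination h3
  have hEf : ∀ σ σ' τ τ', ρ σ = ρ σ' → ρ τ = ρ τ' → E σ τ = E σ' τ' := by
    intro σ σ' τ τ' hs ht
    rw [hE, hE]
    refine Finset.sum_congr rfl fun g hg => ?_
    congr 1
    have hmm : ∀ σ σ', ρ σ = ρ σ' → ∀ a ∈ so X g, mm X a σ = mm X a σ' := by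
      intro σ σ' hs a ha
      have ha' := hAm g hg a ((so_mem X g a).1 ha)
      rw [← hrv, ← hrv]
      have h5 := hap2 σ ⟨a, ha'⟩
      have h6 := hap2 σ' ⟨a, ha'⟩
      rw [hs] at h5
      rw [← h5, ← h6]
    refine om1_fin Gm X hc.toIsL η (so X g) (φ g) ?_ ?_ ?_ (hmm σ σ' hs) (hmm τ τ' ht)
    · have h5 := hap1 τ ⟨g, hg⟩
      have h6 := hap1 τ' ⟨g, hg⟩
      rw [ht] at h5
      exact h5.symm.trans h6
    · rw [← hap3, ← hap3, hs]
    · rw [← hap3, ← hap3, ht]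
  have hloc0 : ∀ v ∈ X.D.S0, Kl E (dec (K := K) (X.P.P v) : Set Gal(Ω/K)) := by
    intro v hv
    refine ⟨fun _ => 0, ⟨⊥, inferInstance, fun _ _ _ => rfl⟩, fun σ hσ τ hτ => ?_⟩
    rw [hE, zero_add, zero_add]
    symm
    refine crb_fib S n (fun g => pfl Gm X (me G p) g) hn2 _ fun g hg g' hg' h => ?_
    exact sze_om hp hp2 hζ c η (hS g hg).1 (hS g' hg').1 h hv (hloc g hg g' hg' h v hv) hσ hτ
  have htm : ∀ v, v ∉ X.D.S0 → ∀ τ ∈ inr X.L v, ρ τ ^ p = 1 := by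
    intro v hv τ hτ
    have hτ' : τ ∈ (X.L.ld v hv).P.inertia Gal(Ω/K) := by
      unfold inr at hτ
      rw [dif_pos hv] at hτ
      exact hτ
    refine Prod.ext ?_ (Prod.ext ?_ ?_)
    · funext g
      change ((ρ τ).1 g) ^ p = 1
      rw [hap1]
      exact (hal g.1 g.2).pw v hv τ hτ
    · funext a
      change ((ρ τ).2.1 a) ^ p = 1
      rw [hap2]
      refine par_pow (UX X) hp hζ (m0_isC X) (g := {a.1}) ?_ hv (X.L.ld v hv).prime
        (X.L.ld v hv).under hτ'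
      intro σ
      have h5 : (UX X).bet {a.1} σ = (UX X).bt a.1 σ :=
        Finset.sum_singleton (fun b : (UX X).Lb => (UX X).bt b σ) a.1
      rw [h5]
      exact hr a.1 σ
    · change ((ρ τ).2.2) ^ p = 1
      rw [hap3, hc.ur v hv τ hτ, one_pow]
  have htr : ∀ v, v ∉ X.D.S0 → X.L.t v ∈ inr X.L v := by
    intro v hv
    unfold inr LDs.t
    rw [dif_pos hv, dif_pos hv]
    exact (X.L.ld v hv).ht
  have hur : ∀ v, v ∉ X.D.S0 → v ∉ U → ρ (X.L.t v) = 1 := by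
    intro v hv hvU
    refine Prod.ext ?_ (Prod.ext ?_ ?_)
    · funext g
      rw [hap1]
      by_contra h
      exact hvU (hUs g.1 g.2 v ((hT g.1 g.2).2.1 v hv h))
    · funext a
      rw [hap2]
      obtain ⟨g, hg, hag⟩ := hAg a.1 a.2
      apply UR.ext
      · rw [hrv]
        refine lc_0 X hp hζ ((hS g hg).1 a.1 hag) hv ?_
        rintro rfl
        exact hvU (hUs g hg _ ((hT g hg).2.2 a.1 hag))
      · rw [hrq]
        exact lc_q X hv
    · rw [hap3]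
      exact hc.ur v hv _ (htr v hv)
  have hfin := brg hp hp2 hζ hz X.P X.Fr ρ hft E h1 h2 hco hEf hloc0 htm U hU0 hur hrec
  have h6 : ∀ g ∈ S, n g * (Oe X η (ε g) + (∑ a ∈ g, ∑ b ∈ g, if olt X a b then Pb X η b a else 0) +
      ∑ a ∈ g, sl Gm X c η a) = ∑ v ∈ U, lam v * (n g * (om1 Gm X c η (so X g) (φ g) (X.Fr.F v)
        (X.L.t v) - om1 Gm X c η (so X g) (φ g) (X.L.t v) (X.Fr.F v))) := by
    intro g hg
    rw [← cra Gm X hp hζ hz hc hη (hS g hg) (hal g hg) U hU0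
      (fun v hv h => hUs g hg v ((hT g hg).2.1 v hv h)) (fun a ha => hUs g hg _ ((hT g hg).2.2 a ha))
      lam hone, Finset.mul_sum]
    refine Finset.sum_congr rfl fun v _ => ?_
    ring
  rw [Finset.sum_congr rfl h6, Finset.sum_comm, ← hfin]
  refine Finset.sum_congr rfl fun v _ => ?_
  rw [← Finset.mul_sum, hE, hE, ← Finset.sum_sub_distrib]
  congr 1
  refine Finset.sum_congr rfl fun g _ => ?_
  ring

end H51.MT
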