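import Pool.Agent.H51.MT.Unb
import Pool.Agent.H1.AR.Lbl
import Pool.Agent.H1.AR.Ltb
import Pool.Agent.H1.AR.Res

/-!
# [H51 MT LCP] local values at the place under a label (110-160 lines)

`a` a good label, `v = un a` (`v ∉ S0`: `un_not`), `F = X.Fr.F v`, `t = X.L.t v`, `γ = ga X a` with `Cn X a hv γ` (`lbl_ex`). For the cocycle `mm X b` (values in `V'`) use the homomorphism `ρ_b = (mm b, φQ) : Γ → V' ⋊ Q` (`tws (UX X) (m0_isC X).toIsL (bt_cy (UX X) hp hζ b)`: `ρ_b σ = e (mm b σ) * m0 σ = ⟨mm b σ, φQ σ⟩`), of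
finite type (`tws_isL`), exponent `p` on the inertia groups outside `S0` (`par_pow` for `UX X`, `g = {b}`).
* `lc_q`: `φQ t = 1` (`ine_phi` or `X.ur`). `lc_0`: `mm b t = 0` for `un b ≠ un a` (`ine_bt` for `UX X`; `t` is in the inertia group of `(X.L.ld v hv).P`: `LDs.t`, `dif_pos`, `.ht`).
* `lc_1`: `lbl_t` for `ρ_a`: `ρ_a (X.t a) = ρ_a γ * ρ_a t * (ρ_a γ)⁻¹`, `ρ_a (X.t a) = ⟨y' a, 1⟩` (`ltb_y` for `UX X`), so (`V'` is abelian, `φQ t = 1`) `y' a = pe (φQ γ) (mm a t)`.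
* `lc_F`: `F`, `t` commute under `ρ_a` (Frobenius property: third component of `isFr_of hp hζ hz X.Fr v hv`, see `lt2`: `hF.2.2`): compare the `V'`-components: `pe (φQ F) (mm a t) = mm a t`.
* `lc_P`: `lbl_f` for `ρ_b`: `ρ_b (X.fb a) = ρ_b γ * ρ_b F * (ρ_b γ)⁻¹ * ρ_b (X.t a) ^ k`, `ρ_b (X.t a) = 1` (`un b ≠ un a`: `ine_bt`, `ltb_t`; `φQ (X.t a) = 1`). So `φQ (X.fb a) = φQ γ φQ F (φQ γ)⁻¹` and `mm b (fb a) = mm b γ + pe γ (mm b F) - pe (fb a) (mm b γ)`. Apply `Lm · (y a)`: `Lm (pe (fb a) m) (y a) = Lm (pe (fb a) m) (act (fb a) (y a))`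
  (`φQ (fb a) ∈ H`: `fld_phi`, `fixy`) `= Lm m (y a) + η (fb a) (om (vp m) (y a)) = Lm m (y a)` (`hη.van`, `om_neg`). `Lm (pe γ (mm b F)) (y a) = Lm (pe γ (mm b F)) (act γ (bt a t)) = Lm (mm b F) (bt a t) + η γ (om (bt b F) (bt a t))` (`lc_1` under `vp`, `vp_mm`, `Lm_act`).
* `lc_Q`: `Lm (mm a t) x`, `mm a t = pe γ⁻¹ (y' a)` (`lc_1`), `x = act γ⁻¹ (act γ x)`: `Lm_act`, `Lm_y`, `hη.inv`, `om_act`: `= - η γ (om (y a) (act γ x)) = - η γ (om (bt a t) x)`.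
-/

set_option autoImplicit false
set_option linter.dupNamespace false

open scoped NumberField Pointwise
open IsDedekindDomain NumberField
open scoped Classical

noncomputable section

namespace H51.MT

open H63.MA H38.BB H38.BG H57.PC H57.BRA H89.BRG H1.AR

variable {p u w N : ℕ} {R Q : Type} [Group R] [Group Q]
variable [Fintype Q] {Dg : MG p u w N R Q} {K : Type} [Field K] [NumberField K] {Ω : Type}
  [Field Ω] [Algebra K Ω] [IsAlgClosure K Ω] {ζ : K} (X : AD Dg K Ω ζ)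

/-- the element which maps the prime of the place to the prime of the label -/
def ga (a : X.Lb) : Gal(Ω/K) := if h : X.Gd a then
  (lbl_ex X h (un_not X h.1) rfl).choose else 1

theorem ga_cn {a : X.Lb} (h : X.Gd a) : Cn X a (un_not X h.1) (ga X a) := by
  unfold ga
  rw [dif_pos h]
  exact (lbl_ex X h (un_not X h.1) rfl).choose_spec

omit [Fintype Q] [IsAlgClosure K Ω] in
private theorem lc_t {v : Pl K} (hv : v ∉ X.D.S0) : X.L.t v = (X.L.ld v hv).t := by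
  rw [LDs.t, dif_pos hv]

/-- the homomorphism of a label -/
private theorem lc_rb (hp : p.Prime) (hζ : IsPrimitiveRoot ζ p) (b : X.Lb) :
    ∃ ρ : Gal(Ω/K) →* UR Dg, (∀ σ, ρ σ = ⟨mm X b σ, X.φQ σ⟩) ∧ H38.ML.FT ρ ∧
      ∀ v, v ∉ X.D.S0 → ∀ τ ∈ inr X.L v, ρ τ ^ p = 1 := by
  obtain ⟨ρ, h1, h2⟩ := tws (UX X) (m0_isC X).toIsL (bt_cy (UX X) hp hζ b)
  have h3 : (Un Dg).Tw (m0 X) ((UX X).bet {b}) ρ := by
    intro σ
    have h4 : (UX X).bet {b} σ = (UX X).bt b σ :=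
      Finset.sum_singleton (fun a : (UX X).Lb => (UX X).bt a σ) b
    rw [h4]
    exact h1 σ
  refine ⟨ρ, fun σ => ?_, h2.ft, fun v hv τ hτ => ?_⟩
  · rw [h1 σ]
    apply UR.ext
    · change mm X b σ + pe Dg 1 0 = mm X b σ
      rw [map_zero, add_zero]
    · change 1 * X.φQ σ = X.φQ σ
      rw [one_mul]
  · rw [inr, dif_pos hv] at hτ
    exact par_pow (UX X) hp hζ (m0_isC X) h3 hv (X.L.ld v hv).prime (X.L.ld v hv).under hτ

omit [IsAlgClosure K Ω] in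
/-- the conjugate of an element of `V' ⋊ Q` -/
private theorem lc_cj (r s : UR Dg) : (r * s * r⁻¹).v =
    r.v + pe Dg r.q s.v - pe Dg (r.q * s.q * r.q⁻¹) r.v := by
  rw [UR.mul_v, UR.mul_v, UR.mul_q, UR.inv_v, map_neg, ← pe_mul, sub_eq_add_neg]

theorem lc_q {v : Pl K} (hv : v ∉ X.D.S0) : X.φQ (X.L.t v) = 1 := by
  refine X.ur v hv _ ?_
  rw [inr, dif_pos hv, lc_t X hv]
  exact (X.L.ld v hv).ht

theorem lc_0 (hp : p.Prime) (hζ : IsPrimitiveRoot ζ p) {b : X.Lb} (hb : X.Gd b) {v : Pl K}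
    (hv : v ∉ X.D.S0) (h : X.un b ≠ v) : mm X b (X.L.t v) = 0 := by
  rw [lc_t X hv]
  exact ine_bt (UX X) hp hζ (v := v) hv (b := b) hb.1 h (X.L.ld v hv).prime (X.L.ld v hv).under
    (X.L.ld v hv).ht

theorem lc_1 (hp : p.Prime) (hζ : IsPrimitiveRoot ζ p) {a : X.Lb} (ha : X.Gd a) :
    pe Dg (X.φQ (ga X a)) (mm X a (X.L.t (X.un a))) = (Un Dg).y a.1 := by
  have : NeZero p := ⟨hp.ne_zero⟩
  have hv := un_not X ha.1
  obtain ⟨ρ, h1, h2, h3⟩ := lc_rb X hp hζ a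
  have h4 := congrArg UR.v (lbl_t X hp hζ ha hv rfl (ga_cn X ha) ρ h2 (h3 _ hv))
  rw [lc_cj, h1, h1, h1] at h4
  have h5 : mm X a (X.t a) = (Un Dg).y a.1 := ltb_y (UX X) hp hζ (a := a) ha
  change mm X a (X.t a) = mm X a (ga X a) + pe Dg (X.φQ (ga X a)) (mm X a (X.L.t (X.un a))) -
    pe Dg (X.φQ (ga X a) * X.φQ (X.L.t (X.un a)) * (X.φQ (ga X a))⁻¹) (mm X a (ga X a)) at h4
  rw [h5, lc_q X hv, mul_one, mul_inv_cancel, pe_one] at h4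
  rw [h4]
  abel

theorem lc_F (hp : p.Prime) (hζ : IsPrimitiveRoot ζ p) (hz : Z2 p K) {a : X.Lb} (ha : X.Gd a) :
    pe Dg (X.φQ (X.Fr.F (X.un a))) (mm X a (X.L.t (X.un a))) = mm X a (X.L.t (X.un a)) := by
  have : NeZero p := ⟨hp.ne_zero⟩
  have hv := un_not X ha.1
  obtain ⟨ρ, h1, h2, h3⟩ := lc_rb X hp hζ a
  have h4 := (isFr_of hp hζ hz X.Fr (X.un a) hv).2.2 (UR Dg) ρ h2 (fun τ hτ => by
    have h5 := h3 _ hv τ (by
      rw [inr, dif_pos hv]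
      exact hτ)
    rw [pow_two, pow_mul, h5, one_pow])
  have h6 := congrArg UR.v h4
  rw [← lc_t X hv, UR.mul_v, UR.mul_v, h1, h1] at h6
  change mm X a (X.Fr.F (X.un a)) + pe Dg (X.φQ (X.Fr.F (X.un a))) (mm X a (X.L.t (X.un a))) =
    mm X a (X.L.t (X.un a)) + pe Dg (X.φQ (X.L.t (X.un a))) (mm X a (X.Fr.F (X.un a))) at h6
  rw [lc_q X hv, pe_one, add_comm] at h6
  exact add_right_cancel h6

private theorem lc_y (hp : p.Prime) (hζ : IsPrimitiveRoot ζ p) {a : X.Lb} (ha : X.Gd a) :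
    Dg.act (X.φQ (ga X a)) (X.bt a (X.L.t (X.un a))) = Dg.y a.1 := by
  rw [← vp_y, ← lc_1 X hp hζ ha, vp_pe, vp_mm]

theorem lc_P (hp : p.Prime) (hζ : IsPrimitiveRoot ζ p) (hz : Z2 p K) {η : Q → Fin w → ZMod p}
    (hη : Ea Dg η) {a b : X.Lb} (ha : X.Gd a) (hb : X.Gd b) (hab : X.un b ≠ X.un a) :
    Lm Dg η (mm X b (X.Fr.F (X.un a))) (X.bt a (X.L.t (X.un a))) = Pb X η b a -
      dt (η (X.φQ (ga X a))) (Dg.om (X.bt b (X.Fr.F (X.un a))) (X.bt a (X.L.t (X.un a)))) := by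
  have : NeZero p := ⟨hp.ne_zero⟩
  have hv := un_not X ha.1
  obtain ⟨ρ, h1, h2, h3⟩ := lc_rb X hp hζ b
  obtain ⟨k, h4⟩ := lbl_f X hp hζ hz ha hv rfl (ga_cn X ha) ρ h2 (h3 _ hv)
  have h5 : ρ (X.t a) = 1 := by
    rw [h1]
    apply UR.ext
    · exact ine_bt (UX X) hp hζ (v := X.un a) hv (b := b) hb.1 hab (ltb_prime X ha)
        (ltb_under X ha) (ltb_t X ha)
    · exact ine_phi X hv (ltb_prime X ha) (ltb_under X ha) (ltb_t X ha)
  rw [h5, one_pow, mul_one] at h4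
  have h6 := congrArg UR.v h4
  have h7 := congrArg UR.q h4
  rw [lc_cj, h1, h1, h1] at h6
  rw [UR.mul_q, UR.mul_q, UR.inv_q, h1, h1, h1] at h7
  change X.φQ (X.fb a) = X.φQ (ga X a) * X.φQ (X.Fr.F (X.un a)) * (X.φQ (ga X a))⁻¹ at h7
  change mm X b (X.fb a) = mm X b (ga X a) + pe Dg (X.φQ (ga X a)) (mm X b (X.Fr.F (X.un a))) -
    pe Dg (X.φQ (ga X a) * X.φQ (X.Fr.F (X.un a)) * (X.φQ (ga X a))⁻¹) (mm X b (ga X a)) at h6
  rw [← h7] at h6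
  have h8 : X.φQ (X.fb a) ∈ Dg.H a.1 := fld_phi X a.1 _
  have h9 : Lm Dg η (pe Dg (X.φQ (X.fb a)) (mm X b (ga X a))) (Dg.y a.1) =
      Lm Dg η (mm X b (ga X a)) (Dg.y a.1) := by
    have h10 := Lm_act Dg hη (X.φQ (X.fb a)) (mm X b (ga X a)) (Dg.y a.1)
    rw [Dg.fixy a.1 _ h8, om_neg, dt_neg', hη.van a.1 _ h8, neg_zero, add_zero] at h10
    exact h10
  have h11 := Lm_act Dg hη (X.φQ (ga X a)) (mm X b (X.Fr.F (X.un a)))
    (X.bt a (X.L.t (X.un a)))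
  rw [lc_y X hp hζ ha, vp_mm] at h11
  have h12 : Pb X η b a = Lm Dg η (pe Dg (X.φQ (ga X a)) (mm X b (X.Fr.F (X.un a))))
      (Dg.y a.1) := by
    unfold Pb
    rw [h6, map_sub, map_add, LinearMap.sub_apply, LinearMap.add_apply, h9]
    ring
  rw [h12, h11]
  ring

theorem lc_Q (hp : p.Prime) (hζ : IsPrimitiveRoot ζ p) {η : Q → Fin w → ZMod p} (hη : Ea Dg η)
    {a : X.Lb} (ha : X.Gd a) (x : Fin u → ZMod p) :
    Lm Dg η (mm X a (X.L.t (X.un a))) x =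
      -dt (η (X.φQ (ga X a))) (Dg.om (X.bt a (X.L.t (X.un a))) x) := by
  have h1 := Lm_act Dg hη (X.φQ (ga X a)) (mm X a (X.L.t (X.un a))) x
  rw [lc_1 X hp hζ ha, Lm_y Dg hη, vp_mm] at h1
  exact eq_neg_of_add_eq_zero_left h1.symm

end H51.MT
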