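import Pool.Agent.H51.MT.Lsp
import Pool.Agent.H48.MF.Lfe
import Pool.Agent.H48.MG.Defs

/-!
# [H51 MT LFT] adapted lifts with prescribed restrictions to the decomposition groups of `S0` (150-220 lines)

Model: `lfe` (Pool/Agent/H48/MF/Lfe.lean). `ρ = rh X c g` (`rh_tw`: `Tw c (bet g) ρ`).
1. `φ₀` of finite type with `pr φ₀ = ρ`: `lfe_lift` with `φ₁` (`hcv`: from `hcq`, `hpr`: `pr φ₁ = pr r ρ (pr r)⁻¹`, `pr r = e x` by `gm_T`).
2. For `v ∈ S0`, `σ ∈ dec (P v)`: `φ' v σ = z (δ_v σ) * φ₀ σ` (`gm_fib`), `δ_v : dec → H38.AS.Wg p w` is a homomorphism of finite level (as in `twz_loc`, Pool/Agent/H48/MF/Cqe.lean), `hw_lock` (H63/MC/CHa.lean): `χ₁ : Γ → H38.AS.Wg p w` of finite type, `φ₂ = twz χ₁ φ₀` is equal to `φ' v` on `dec (P v)`.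
3. `T₀` = the `v ∉ S0` of norm not prime with `φ₂ (t v) ≠ 1` (finite: `ram_finite`), `φ₂ (t v) = z (b v)` there (`v` is not under `g` because `nm (un a) = nm a.2` is prime (`ltb_nm`), so `ρ (t v) = 1` by `par_ur`, `Gm.zker`). `T₁` from `lsp`. `s v = ofAdd (- b v)` on `T₀`, `s v = ofAdd (fun k => α_k v)` on `T₁` with
   `∑ v ∈ T₀, (b v k) • D.q v = ∑ v ∈ T₁, α_k v • D.q v`, `s v = 1` elsewhere. `hw_lt` (H63/MC/CHa.lean) with `T = T₀ ∪ T₁` (disjoint): `χ₂ (t v) = s v` for `v ∉ S0`, `χ₂ = 1` on `dec (P v)`, `v ∈ S0`. `φ = twz χ₂ φ₂`.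
4. Exponent `p ^ 2` on `inr X.L v`, `v ∉ S0` (`pr (φ τ ^ p) = ρ τ ^ p = 1`, `par_pow`, `gm_zpow`). `v` of norm not prime: `φ (t v) = 1`, so `φ = 1` on `inr X.L v` (`ing_inr`, third clause). `v` good, not under `g`: `φ (t v) = z (ε v)`, `p`-th power `1` (`gm_zpow`), `ing_inr`, second clause. `v = un a`: `φ (X.t a) = z (ε v) * g a.1`
   (`gm_fib`, `par_t`, `gy`), `p`-th power `1`, `lab_p`. `ε` by choice, `0` off the good places (`un` is injective on `g`); its support is in `g.image un` and `{v | φ (t v) ≠ 1}` (finite: `ram_finite`).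
* `AL.cq`: `φ₁ = r φ r⁻¹` on `dec (P v)` (`hcq`).
-/

set_option autoImplicit false
set_option linter.dupNamespace false

open scoped NumberField Pointwise
open IsDedekindDomain NumberField
open scoped Classical

noncomputable section

namespace H51.MT

open H63.MA H38.BB H38.BG H57.PC H57.BRA H89.BRG H1.AR H48.MF H48.MG

variable {p u w N : ℕ} {G R Q : Type} [Group G] [Group R] [Group Q] [Fintype Q]
  (Gm : GM p u w N G R Q) {K : Type} [Field K] [NumberField K] {Ω : Type} [Field Ω] [Algebra K Ω]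
  [IsAlgClosure K Ω] {ζ : K} (X : AD Gm.M K Ω ζ)

omit [Fintype Q] [IsAlgClosure K Ω] in
private theorem lft_delta (φ φ' : Gal(Ω/K) →* G) (hφ : H38.ML.FT φ)
    (hφ' : H38.ML.FT φ') (U : Subgroup Gal(Ω/K))
    (h : ∀ σ ∈ U, Gm.pr (φ σ) = Gm.pr (φ' σ)) :
    ∃ δ : U →* H38.AS.Wg p w,
      (∀ x : U, φ (x : Gal(Ω/K)) = Gm.z (Multiplicative.toAdd (δ x)) * φ' (x : Gal(Ω/K))) ∧
      ∃ E : IntermediateField K Ω, FiniteDimensional K E ∧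
        ∀ x : U, (x : Gal(Ω/K)) ∈ E.fixingSubgroup → δ x = 1 := by
  have h1 : ∀ x : U, ∃ a : Fin w → ZMod p,
      φ (x : Gal(Ω/K)) = Gm.z a * φ' (x : Gal(Ω/K)) :=
    fun x => gm_fib Gm (h x x.2)
  choose l hl using h1
  have hinj : ∀ (a b : Fin w → ZMod p) (g : G), Gm.z a * g = Gm.z b * g → a = b :=
    fun a b g hab => Gm.zinj (mul_right_cancel hab)
  refine ⟨MonoidHom.mk' (fun x => Multiplicative.ofAdd (l x)) ?_, fun x => hl x, ?_⟩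
  · intro x y
    rw [← ofAdd_add]
    congr 1
    apply hinj _ _ (φ' ((x * y : U) : Gal(Ω/K)))
    rw [← hl, Gm.zadd, Subgroup.coe_mul, map_mul, map_mul, hl x, hl y]
    calc Gm.z (l x) * φ' (x : Gal(Ω/K)) * (Gm.z (l y) * φ' (y : Gal(Ω/K))) =
        Gm.z (l x) * (φ' (x : Gal(Ω/K)) * Gm.z (l y)) * φ' (y : Gal(Ω/K)) := by group
      _ = Gm.z (l x) * (Gm.z (l y) * φ' (x : Gal(Ω/K))) * φ' (y : Gal(Ω/K)) := by
        rw [Gm.zcen (l y) (φ' (x : Gal(Ω/K)))]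
      _ = _ := by group
  · obtain ⟨E, hE, hle⟩ := hφ
    obtain ⟨E', hE', hle'⟩ := hφ'
    refine ⟨E ⊔ E', inferInstance, fun x hx => ?_⟩
    have h1 : (x : Gal(Ω/K)) ∈ E.fixingSubgroup :=
      IntermediateField.fixingSubgroup_antitone le_sup_left hx
    have h2 : (x : Gal(Ω/K)) ∈ E'.fixingSubgroup :=
      IntermediateField.fixingSubgroup_antitone le_sup_right hx
    have h3 := MonoidHom.mem_ker.1 (hle h1)
    have h4 := MonoidHom.mem_ker.1 (hle' h2)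
    have h5 := hl x
    rw [h3, h4, mul_one, ← gm_z0 Gm] at h5
    have h6 := Gm.zinj h5
    change Multiplicative.ofAdd (l x) = 1
    rw [← h6, ofAdd_zero]

theorem lft [Finite G] [Finite R] (hp : p.Prime) (hp2 : MOne p K) (hζ : IsPrimitiveRoot ζ p)
    (hz : Z2 p K) {c : Gal(Ω/K) →* R} (hc : X.IsC c) {g : Finset X.Lb} (hg : X.Ok g)
    (hev : ∀ a ∈ g, X.ev (rh X c g) a = 0) {φ₁ : Gal(Ω/K) →* G} (hφ₁ : H38.ML.FT φ₁)
    (φ' : Pl K → Gal(Ω/K) →* G) (hft : ∀ v ∈ X.D.S0, H38.ML.FT (φ' v))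
    (hpr : ∀ v ∈ X.D.S0, ∀ σ ∈ dec (K := K) (X.P.P v), Gm.pr (φ' v σ) = rh X c g σ)
    (hcq : ∀ v ∈ X.D.S0, ∃ r ∈ Gm.T, ∀ σ ∈ dec (K := K) (X.P.P v), φ₁ σ = r * φ' v σ * r⁻¹) :
    ∃ (φ : Gal(Ω/K) →* G) (ε : Pl K → Fin w → ZMod p), AL Gm X φ₁ c g φ ε ∧
      ∀ v ∈ X.D.S0, ∀ σ ∈ dec (K := K) (X.P.P v), φ σ = φ' v σ := by
  have hp0 : NeZero p := ⟨hp.ne_zero⟩
  have hρ : Gm.M.Tw c (X.bet g) (rh X c g) := rh_tw Gm X hp hζ hc g
  -- step 1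
  have hcv : Cv X.D.S0 X.P Gm.M (rh X c g) (Gm.pr.comp φ₁) := by
    intro v hv
    obtain ⟨r, hr, h1⟩ := hcq v hv
    obtain ⟨x, hx⟩ := (gm_T Gm r).1 hr
    refine ⟨x, fun σ hσ => ?_⟩
    rw [MonoidHom.comp_apply, h1 σ hσ, map_mul, map_mul, map_inv, hx, hpr v hv σ hσ]
  obtain ⟨φ₀, hft₀, hpr₀⟩ := lfe_lift Gm X hp hp2 hζ hz hc hg hρ hev hφ₁ hcv
  -- step 2
  have hδ : ∀ v : Pl K, ∃ δ : dec (K := K) (X.P.P v) →* H38.AS.Wg p w, v ∈ X.D.S0 →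
      (∀ x : dec (K := K) (X.P.P v), φ' v (x : Gal(Ω/K)) =
        Gm.z (Multiplicative.toAdd (δ x)) * φ₀ (x : Gal(Ω/K))) ∧
      ∃ E : IntermediateField K Ω, FiniteDimensional K E ∧
        ∀ x : dec (K := K) (X.P.P v), (x : Gal(Ω/K)) ∈ E.fixingSubgroup → δ x = 1 := by
    intro v
    by_cases hv : v ∈ X.D.S0
    · obtain ⟨δ, d1, d2⟩ := lft_delta Gm (φ' v) φ₀ (hft v hv) hft₀ (dec (K := K) (X.P.P v))
        fun σ hσ => by rw [hpr v hv σ hσ, hpr₀]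
      exact ⟨δ, fun _ => ⟨d1, d2⟩⟩
    · exact ⟨1, fun h => absurd h hv⟩
  choose δ hδ using hδ
  obtain ⟨χ₁, hχ₁, hχδ⟩ := hw_lock (W := H38.AS.Wg p w) hp hζ X.D X.P H38.AS.wg_pow δ
    (fun v hv => (hδ v hv).2)
  have hft₂ : H38.ML.FT (twz Gm χ₁ φ₀) := twz_ft Gm χ₁ φ₀ hχ₁ hft₀
  have hpr₂ : ∀ σ, Gm.pr (twz Gm χ₁ φ₀ σ) = rh X c g σ := fun σ => by rw [twz_pr, hpr₀]
  have hloc₂ : ∀ v ∈ X.D.S0, ∀ σ ∈ dec (K := K) (X.P.P v), twz Gm χ₁ φ₀ σ = φ' v σ := by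
    intro v hv σ hσ
    rw [twz_apply, hχδ v hv ⟨σ, hσ⟩]
    exact ((hδ v hv).1 ⟨σ, hσ⟩).symm
  generalize twz Gm χ₁ φ₀ = φ₂ at hft₂ hpr₂ hloc₂
  -- values of `ρ` at the generators
  have hur : ∀ v, v ∉ X.D.S0 → (∀ a ∈ g, X.un a ≠ v) → rh X c g (X.L.t v) = 1 := by
    intro v hv h
    rw [LDs.t, dif_pos hv]
    exact par_ur X hp hζ hc hg hρ hv h (X.L.ld v hv).prime (X.L.ld v hv).under (X.L.ld v hv).ht
  have hgd : ∀ a ∈ g, X.D.Gd (X.un a) := by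
    intro a ha
    have h1 := hg.1 a ha
    exact ⟨un_not X h1.1, by rw [← ltb_nm X h1]; exact h1.2⟩
  have hngd : ∀ v, ¬ X.D.Gd v → ∀ a ∈ g, X.un a ≠ v := by
    intro v hv a ha h
    exact hv (h ▸ hgd a ha)
  -- step 3
  have hb2 : ∀ v : Pl K, ∃ b : Fin w → ZMod p, v ∉ X.D.S0 → (∀ a ∈ g, X.un a ≠ v) →
      φ₂ (X.L.t v) = Gm.z b := by
    intro v
    by_cases h : v ∉ X.D.S0 ∧ ∀ a ∈ g, X.un a ≠ v
    · obtain ⟨b, hb⟩ := (Gm.zker _).1 (show Gm.pr (φ₂ (X.L.t v)) = 1 by rw [hpr₂, hur v h.1 h.2])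
      exact ⟨b, fun _ _ => hb.symm⟩
    · exact ⟨0, fun h1 h2 => absurd ⟨h1, h2⟩ h⟩
  choose b hb using hb2
  obtain ⟨T₀, hT₀⟩ : ∃ T₀ : Finset (Pl K), ∀ v, v ∈ T₀ ↔
      v ∉ X.D.S0 ∧ ¬ (nm v).Prime ∧ φ₂ (X.L.t v) ≠ 1 := by
    have hfin : {v : Pl K | v ∉ X.D.S0 ∧ ¬ (nm v).Prime ∧ φ₂ (X.L.t v) ≠ 1}.Finite :=
      (ram_finite hp X.D X.L φ₂ hft₂).subset fun v hv => ⟨hv.1, hv.2.2⟩
    exact ⟨hfin.toFinset, fun v => by rw [Set.Finite.mem_toFinset]; rfl⟩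
  obtain ⟨T₁, hT₁, hspan⟩ := lsp hp hp2 hζ X.D
  have hα : ∀ k : Fin w, ∃ α : Pl K → ZMod p,
      ∑ v ∈ T₀, b v k • X.D.q v = ∑ v ∈ T₁, α v • X.D.q v := fun k => hspan _
  choose α hα using hα
  have hdisj : Disjoint T₀ T₁ := by
    rw [Finset.disjoint_left]
    intro v h0 h1
    exact ((hT₀ v).1 h0).2.1 (hT₁ v h1).2
  set s : Pl K → H38.AS.Wg p w := fun v => if v ∈ T₀ then Multiplicative.ofAdd (-(b v)) else
    if v ∈ T₁ then Multiplicative.ofAdd (fun k => α k v) else 1 with hs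
  have hs0 : ∀ v ∈ T₀, s v = Multiplicative.ofAdd (-(b v)) := by
    intro v hv
    simp only [hs]
    rw [if_pos hv]
  have hs1 : ∀ v ∈ T₁, s v = Multiplicative.ofAdd (fun k => α k v) := by
    intro v hv
    simp only [hs]
    rw [if_neg (Finset.disjoint_right.1 hdisj hv), if_pos hv]
  have hs2 : ∀ v, v ∉ T₀ ∪ T₁ → s v = 1 := by
    intro v hv
    rw [Finset.mem_union, not_or] at hv
    simp only [hs]
    rw [if_neg hv.1, if_neg hv.2]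
  have hq : ∀ j : Fin X.D.r, ∏ v ∈ T₀ ∪ T₁, s v ^ (X.D.q v j).val = 1 := by
    intro j
    rw [Finset.prod_union hdisj]
    apply Multiplicative.toAdd.injective
    rw [toAdd_mul, toAdd_prod, toAdd_prod, toAdd_one]
    funext k
    have h1 := congrFun (hα k) j
    rw [Finset.sum_apply, Finset.sum_apply] at h1
    rw [Pi.add_apply, Finset.sum_apply, Finset.sum_apply, Pi.zero_apply]
    have h2 : ∑ v ∈ T₀, Multiplicative.toAdd (s v ^ (X.D.q v j).val) k =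
        -∑ v ∈ T₀, (b v k • X.D.q v) j := by
      rw [← Finset.sum_neg_distrib]
      refine Finset.sum_congr rfl fun v hv => ?_
      rw [hs0 v hv, toAdd_pow, toAdd_ofAdd, Pi.smul_apply, Pi.neg_apply, nsmul_eq_mul,
        ZMod.natCast_zmod_val, Pi.smul_apply, smul_eq_mul]
      ring
    have h3 : ∑ v ∈ T₁, Multiplicative.toAdd (s v ^ (X.D.q v j).val) k =
        ∑ v ∈ T₁, (α k v • X.D.q v) j := by
      refine Finset.sum_congr rfl fun v hv => ?_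
      rw [hs1 v hv, toAdd_pow, toAdd_ofAdd, Pi.smul_apply, nsmul_eq_mul,
        ZMod.natCast_zmod_val, Pi.smul_apply, smul_eq_mul]
      ring
    rw [h2, h3, h1, neg_add_cancel]
  obtain ⟨χ₂, hχ₂, hχt, hχd⟩ := hw_lt (W := H38.AS.Wg p w) hp hp2 hζ X.D X.L X.P H38.AS.wg_pow s (T₀ ∪ T₁)
    (fun v hv => by
      rcases Finset.mem_union.1 hv with h | h
      · exact ((hT₀ v).1 h).1
      · exact (hT₁ v h).1) hs2 hq
  have hftw : H38.ML.FT (twz Gm χ₂ φ₂) := twz_ft Gm χ₂ φ₂ hχ₂ hft₂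
  have hprw : ∀ σ, Gm.pr (twz Gm χ₂ φ₂ σ) = rh X c g σ := fun σ => by rw [twz_pr, hpr₂]
  have hloc : ∀ v ∈ X.D.S0, ∀ σ ∈ dec (K := K) (X.P.P v), twz Gm χ₂ φ₂ σ = φ' v σ := by
    intro v hv σ hσ
    rw [twz_apply, hχd v hv σ hσ, toAdd_one, gm_z0, one_mul, hloc₂ v hv σ hσ]
  have hnp : ∀ v, v ∉ X.D.S0 → ¬ (nm v).Prime → twz Gm χ₂ φ₂ (X.L.t v) = 1 := by
    intro v hv hn
    have hvg : ∀ a ∈ g, X.un a ≠ v := hngd v fun h => hn h.2
    rw [twz_apply, hχt v hv]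
    by_cases h : v ∈ T₀
    · rw [hs0 v h, toAdd_ofAdd, hb v hv hvg, ← Gm.zadd, neg_add_cancel, gm_z0]
    · have h1 : φ₂ (X.L.t v) = 1 := by
        by_contra h1
        exact h ((hT₀ v).2 ⟨hv, hn, h1⟩)
      have h2 : v ∉ T₀ ∪ T₁ := by
        rw [Finset.mem_union, not_or]
        exact ⟨h, fun h3 => hn (hT₁ v h3).2⟩
      rw [hs2 v h2, toAdd_one, gm_z0, one_mul, h1]
  generalize twz Gm χ₂ φ₂ = φ at hftw hprw hloc hnp
  -- step 4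
  have hI : ∀ v, v ∉ X.D.S0 → ∀ τ ∈ inr X.L v, φ τ ^ (p ^ 2) = 1 := by
    intro v hv τ hτ
    have h1 : Gm.pr (φ τ ^ p) = 1 := by
      rw [map_pow, hprw]
      rw [inr, dif_pos hv] at hτ
      exact par_pow X hp hζ hc hρ hv (X.L.ld v hv).prime (X.L.ld v hv).under hτ
    obtain ⟨d, hd⟩ := (Gm.zker _).1 h1
    rw [pow_two, pow_mul, ← hd, gm_zpow]
  have hun : ∀ v, v ∉ X.D.S0 → ¬ (nm v).Prime → ∀ τ ∈ inr X.L v, φ τ = 1 := by
    intro v hv hn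
    exact (ing_inr hp hζ X.L hv _ hftw fun τ hτ => ⟨2, hI v hv τ hτ⟩).2.2 (hnp v hv hn)
  have hd2 : ∀ v : Pl K, ∃ d : Fin w → ZMod p, v ∉ X.D.S0 → (∀ a ∈ g, X.un a ≠ v) →
      φ (X.L.t v) = Gm.z d := by
    intro v
    by_cases h : v ∉ X.D.S0 ∧ ∀ a ∈ g, X.un a ≠ v
    · obtain ⟨d, hd⟩ := (Gm.zker _).1 (show Gm.pr (φ (X.L.t v)) = 1 by rw [hprw, hur v h.1 h.2])
      exact ⟨d, fun _ _ => hd.symm⟩
    · exact ⟨0, fun h1 h2 => absurd ⟨h1, h2⟩ h⟩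
  choose d₂ hd₂ using hd2
  have hd1 : ∀ a : X.Lb, ∃ d : Fin w → ZMod p, a ∈ g → φ (X.t a) = Gm.z d * Gm.g a.1 := by
    intro a
    by_cases ha : a ∈ g
    · obtain ⟨d, hd⟩ := gm_fib Gm (x := φ (X.t a)) (y := Gm.g a.1)
        (by rw [hprw, par_t X hp hζ hc hg hρ ha, Gm.gy])
      exact ⟨d, fun _ => hd⟩
    · exact ⟨0, fun h => absurd h ha⟩
  choose d₁ hd₁ using hd1
  set ε : Pl K → Fin w → ZMod p := fun v => if h : ∃ a ∈ g, X.un a = v then d₁ h.choose else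
    if X.D.Gd v then d₂ v else 0 with hε
  have hε1 : ∀ a ∈ g, ε (X.un a) = d₁ a := by
    intro a ha
    have h : ∃ a' ∈ g, X.un a' = X.un a := ⟨a, ha, rfl⟩
    simp only [hε]
    rw [dif_pos h]
    have h1 : h.choose = a := by
      by_contra hne
      exact hg.2 _ h.choose_spec.1 a ha hne h.choose_spec.2
    rw [h1]
  have hε2 : ∀ v, X.D.Gd v → (∀ a ∈ g, X.un a ≠ v) → ε v = d₂ v := by
    intro v hv h
    have hne : ¬ ∃ a ∈ g, X.un a = v := by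
      push Not
      exact h
    simp only [hε]
    rw [dif_neg hne, if_pos hv]
  have hε0 : ∀ v, ¬ X.D.Gd v → ε v = 0 := by
    intro v hv
    have hne : ¬ ∃ a ∈ g, X.un a = v := by
      push Not
      exact hngd v hv
    simp only [hε]
    rw [dif_neg hne, if_neg hv]
  refine ⟨φ, ε, ⟨hftw, hprw, ?_, ?_, hun, ?_, hε0, ?_, ?_⟩, hloc⟩
  · intro v hv
    obtain ⟨r, hr, h1⟩ := hcq v hv
    exact ⟨r, hr, fun σ hσ => by rw [h1 σ hσ, hloc v hv σ hσ]⟩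
  · intro v hv τ hτ
    by_cases hn : (nm v).Prime
    · by_cases h : ∃ a ∈ g, X.un a = v
      · obtain ⟨a, ha, rfl⟩ := h
        refine lab_p Gm X hp hζ (hg.1 a ha) _ hftw (hI _ hv) ?_ τ hτ
        rw [hd₁ a ha, (show Commute (Gm.z (d₁ a)) (Gm.g a.1) from Gm.zcen _ _).mul_pow, gm_zpow,
          Gm.gp, one_mul]
      · push Not at h
        refine (ing_inr hp hζ X.L hv _ hftw fun τ hτ => ⟨2, hI v hv τ hτ⟩).2.1 ?_ τ hτ
        rw [hd₂ v hv h, gm_zpow]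
    · rw [hun v hv hn τ hτ, one_pow]
  · refine ((g.image X.un).finite_toSet.union (ram_finite hp X.D X.L φ hftw)).subset ?_
    intro v hv
    by_cases h : ∃ a ∈ g, X.un a = v
    · left
      obtain ⟨a, ha, rfl⟩ := h
      exact Finset.mem_coe.2 (Finset.mem_image_of_mem _ ha)
    · right
      push Not at h
      have hG : X.D.Gd v := by
        by_contra hG
        exact hv (hε0 v hG)
      refine ⟨hG.1, fun h1 => hv ?_⟩
      rw [hε2 v hG h]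
      apply Gm.zinj
      rw [← hd₂ v hG.1 h, h1, gm_z0]
  · intro v hv h
    rw [hε2 v hv h]
    exact hd₂ v hv.1 h
  · intro a ha
    rw [hε1 a ha]
    exact hd₁ a ha

end H51.MT
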