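import Pool.Agent.H63.MA.GDef

/-!
# [H51 MT LLI] lists: sums over pairs, products over sorted lists (90-140 lines)

* `ps l F = ∑_{a before b in l} F a b`.
* `ps_add`, `ps_map`, `ps_hom`: induction.
* `ps_pw`: `r` asymmetric, `l.Pairwise r` (so `l` has no duplicates): `ps l F = ∑ a ∈ l.toFinset, ∑ b ∈ l.toFinset, if r a b then F a b else 0`. Induction on `l`: for `a :: l`: `a ∉ l`, `r a b` for `b ∈ l`, not `r b a`, not `r a a`.
* `prd_eq`: a list of elements of `Fin n` sorted by `≤` is `(List.finRange n).flatMap fun x => List.replicate (l.count x) x` (both are sorted and they are permutations of each other: same counts; `List.Perm.eq_of_pairwise` / `List.eq_of_perm_of_sorted`), product of the images.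
* `ps_cnt`: with the same list: `ps l F = ∑ x, ∑ y, if x < y then (l.count x * l.count y) • F x y else 0) + ∑ x, (l.count x).choose 2 • F x x` (or induction on `l`).
* `so_ex`: for a strict total order `r` every finite set is the set of elements of a list `l` with `l.Pairwise r` (induction on the set or sorting).
-/

set_option autoImplicit false
set_option linter.dupNamespace false

open scoped NumberField Pointwise
open IsDedekindDomain NumberField
open scoped Classical

noncomputable section

namespace H51.MT

open H63.MA

/-- the sum over the pairs of a list -/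
def ps {ι A : Type} [AddCommMonoid A] : List ι → (ι → ι → A) → A
  | [], _ => 0
  | a :: l, F => (l.map (F a)).sum + ps l F

theorem ps_add {ι A : Type} [AddCommMonoid A] (l : List ι) (F F' : ι → ι → A) :
    ps l (fun a b => F a b + F' a b) = ps l F + ps l F' := by
  induction l with
  | nil => exact (add_zero _).symm
  | cons a l ih =>
    change (l.map fun b => F a b + F' a b).sum + ps l (fun a b => F a b + F' a b) =
      ((l.map (F a)).sum + ps l F) + ((l.map (F' a)).sum + ps l F')
    rw [ih, List.sum_map_add, add_add_add_comm]

theorem ps_map {ι κ A : Type} [AddCommMonoid A] (f : ι → κ) (l : List ι) (F : κ → κ → A) :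
    ps (l.map f) F = ps l (fun a b => F (f a) (f b)) := by
  induction l with
  | nil => rfl
  | cons a l ih =>
    change ((l.map f).map (F (f a))).sum + ps (l.map f) F =
      (l.map fun b => F (f a) (f b)).sum + ps l fun a b => F (f a) (f b)
    rw [ih, List.map_map]
    rfl

theorem ps_hom {ι A A' : Type} [AddCommMonoid A] [AddCommMonoid A'] (h : A →+ A') (l : List ι)
    (F : ι → ι → A) : h (ps l F) = ps l (fun a b => h (F a b)) := by
  induction l with
  | nil => exact map_zero h
  | cons a l ih =>
    change h ((l.map (F a)).sum + ps l F) = (l.map fun b => h (F a b)).sum + ps l fun a b => h (F a b)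
    rw [map_add, ih, map_list_sum, List.map_map]
    rfl

theorem ps_congr {ι A : Type} [AddCommMonoid A] (l : List ι) (F F' : ι → ι → A)
    (h : ∀ a ∈ l, ∀ b ∈ l, F a b = F' a b) : ps l F = ps l F' := by
  induction l with
  | nil => rfl
  | cons a l ih =>
    change (l.map (F a)).sum + ps l F = (l.map (F' a)).sum + ps l F'
    rw [ih fun x hx y hy => h x (List.mem_cons_of_mem _ hx) y (List.mem_cons_of_mem _ hy)]
    congr 2
    exact List.map_congr_left fun b hb => h a List.mem_cons_self b (List.mem_cons_of_mem _ hb)

theorem ps_pw {ι A : Type} [AddCommMonoid A] (r : ι → ι → Prop) (hr : ∀ a b, r a b → ¬ r b a)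
    (l : List ι) (hl : l.Pairwise r) (F : ι → ι → A) :
    ps l F = ∑ a ∈ l.toFinset, ∑ b ∈ l.toFinset, if r a b then F a b else 0 := by
  induction l with
  | nil => rfl
  | cons a l ih =>
    rw [List.pairwise_cons] at hl
    obtain ⟨h1, h2⟩ := hl
    have hna : a ∉ l := fun h => hr a a (h1 a h) (h1 a h)
    have hnd : l.Nodup := by
      refine List.Pairwise.imp (fun {x y} hxy => ?_) h2
      rintro rfl
      exact hr x x hxy hxy
    have hna' : a ∉ l.toFinset := fun h => hna (List.mem_toFinset.1 h)
    change (l.map (F a)).sum + ps l F = _
    rw [List.toFinset_cons, Finset.sum_insert hna', Finset.sum_insert hna', ih h2,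
      if_neg fun h => hr a a h h, zero_add, ← List.sum_toFinset _ hnd]
    congr 1
    · refine Finset.sum_congr rfl fun b hb => ?_
      rw [if_pos (h1 b (List.mem_toFinset.1 hb))]
    · refine Finset.sum_congr rfl fun x hx => ?_
      rw [Finset.sum_insert hna', if_neg (hr a x (h1 x (List.mem_toFinset.1 hx))), zero_add]

theorem prd_eq {M : Type} [Monoid M] {n : ℕ} (l : List (Fin n)) (hl : l.Pairwise (· ≤ ·))
    (f : Fin n → M) : (l.map f).prod = ((List.finRange n).map fun x => f x ^ l.count x).prod := by
  have h1 : l = (List.finRange n).flatMap fun x => List.replicate (l.count x) x := by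
    refine List.Perm.eq_of_pairwise' hl ?_ ?_
    · rw [List.pairwise_flatMap]
      refine ⟨fun x _ => ?_, ?_⟩
      · exact List.pairwise_replicate.2 (Or.inr le_rfl)
      · refine List.Pairwise.imp (fun {x y} hxy => ?_) (List.pairwise_lt_finRange n)
        intro u hu v hv
        rw [List.eq_of_mem_replicate hu, List.eq_of_mem_replicate hv]
        exact hxy.le
    · rw [List.perm_iff_count]
      intro x
      rw [List.count_flatMap]
      have h2 : (List.map (List.count x ∘ fun y => List.replicate (List.count y l) y) (List.finRange n)).sum =
          ∑ y : Fin n, if y = x then l.count y else 0 := by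
        rw [← List.sum_toFinset _ (List.nodup_finRange n), List.toFinset_finRange]
        refine Finset.sum_congr rfl fun y _ => ?_
        rw [Function.comp_apply, List.count_replicate]
        simp only [beq_iff_eq]
      rw [h2, Finset.sum_ite_eq' Finset.univ x, if_pos (Finset.mem_univ x)]
  conv_lhs => rw [h1]
  rw [List.map_flatMap, List.flatMap_def, List.prod_flatten, List.map_map]
  congr 2
  funext x
  rw [Function.comp_apply, List.map_replicate, List.prod_replicate]

theorem ps_cnt {A : Type} [AddCommMonoid A] {n : ℕ} (l : List (Fin n)) (hl : l.Pairwise (· ≤ ·))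
    (F : Fin n → Fin n → A) : ps l F = ∑ x, ∑ y, (if x < y then (l.count x * l.count y) • F x y else 0) +
      ∑ x, (l.count x).choose 2 • F x x := by
  induction l with
  | nil =>
    have h0 : ∀ x : Fin n, ([] : List (Fin n)).count x = 0 := fun x => rfl
    simp only [h0, mul_zero, zero_smul, ite_self, Nat.choose_zero_succ, Finset.sum_const_zero, add_zero]
    rfl
  | cons a l ih =>
    rw [List.pairwise_cons] at hl
    obtain ⟨h1, h2⟩ := hl
    change (l.map (F a)).sum + ps l F = _
    have hlt : ∀ x, x < a → l.count x = 0 := fun x hx => by
      rw [List.count_eq_zero]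
      intro h
      exact absurd (h1 x h) (not_le.2 hx)
    have hne : ∀ x, x ≠ a → (a :: l).count x = l.count x := fun x hx => by
      rw [List.count_cons_of_ne (Ne.symm hx)]
    have hself : (a :: l).count a = l.count a + 1 := List.count_cons_self
    have hE : (l.map (F a)).sum = ∑ y, (if a < y then l.count y • F a y else 0) + l.count a • F a a := by
      rw [Finset.sum_list_map_count]
      have h3 : ∑ m ∈ l.toFinset, l.count m • F a m = ∑ m, l.count m • F a m := by
        refine Finset.sum_subset (Finset.subset_univ _) fun x _ hx => ?_
        rw [List.count_eq_zero.2 fun h => hx (List.mem_toFinset.2 h), zero_smul]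
      rw [h3]
      have h4 : l.count a • F a a = ∑ y, if y = a then l.count y • F a y else 0 := by
        rw [Finset.sum_ite_eq' Finset.univ a, if_pos (Finset.mem_univ a)]
      rw [h4, ← Finset.sum_add_distrib]
      refine Finset.sum_congr rfl fun y _ => ?_
      rcases lt_trichotomy a y with h | h | h
      · rw [if_pos h, if_neg h.ne', add_zero]
      · subst h
        rw [if_neg (lt_irrefl _), if_pos rfl, zero_add]
      · rw [if_neg (not_lt.2 h.le), if_neg h.ne, hlt y h, zero_smul, add_zero]
    have hx : ∀ x, (∑ y, (if x < y then ((a :: l).count x * (a :: l).count y) • F x y else 0) +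
        ((a :: l).count x).choose 2 • F x x) =
        (∑ y, (if x < y then (l.count x * l.count y) • F x y else 0) + (l.count x).choose 2 • F x x) +
        if x = a then (l.map (F a)).sum else 0 := by
      intro x
      by_cases hxa : x = a
      · subst hxa
        rw [if_pos rfl, hself, hE]
        have h5 : ∑ y, (if x < y then ((l.count x + 1) * (x :: l).count y) • F x y else 0) =
            ∑ y, (if x < y then (l.count x * l.count y) • F x y else 0) +
              ∑ y, (if x < y then l.count y • F x y else 0) := by
          rw [← Finset.sum_add_distrib]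
          refine Finset.sum_congr rfl fun y _ => ?_
          by_cases h : x < y
          · rw [if_pos h, if_pos h, if_pos h, hne y h.ne', add_mul, one_mul, add_smul]
          · rw [if_neg h, if_neg h, if_neg h, add_zero]
        have h6 : (l.count x + 1).choose 2 = (l.count x).choose 2 + l.count x := by
          rw [Nat.choose_succ_succ' (l.count x) 1, Nat.choose_one_right, add_comm]
        rw [h5, h6, add_smul]
        rw [add_add_add_comm]
      · rw [if_neg hxa, add_zero, hne x hxa]
        congr 1
        refine Finset.sum_congr rfl fun y _ => ?_
        by_cases h : x < y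
        · rw [if_pos h, if_pos h]
          by_cases hya : y = a
          · rw [hlt x (hya ▸ h), zero_mul, zero_mul]
          · rw [hne y hya]
        · rw [if_neg h, if_neg h]
    rw [← Finset.sum_add_distrib, Finset.sum_congr rfl fun x _ => hx x, Finset.sum_add_distrib,
      Finset.sum_ite_eq' Finset.univ a, if_pos (Finset.mem_univ a), ih h2, Finset.sum_add_distrib, add_comm]

theorem so_ex {ι : Type} (r : ι → ι → Prop) (h1 : ∀ a b, r a b → ¬ r b a)
    (h2 : ∀ a b c, r a b → r b c → r a c) (h3 : ∀ a b, a ≠ b → r a b ∨ r b a) (g : Finset ι) :
    ∃ l : List ι, l.Pairwise r ∧ l.toFinset = g := by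
  induction g using Finset.induction_on with
  | empty => exact ⟨[], List.Pairwise.nil, rfl⟩
  | insert a g ha ih =>
    obtain ⟨l, hl, hg⟩ := ih
    refine ⟨(l.filter fun x => r x a) ++ a :: l.filter fun x => r a x, ?_, ?_⟩
    · rw [List.pairwise_append, List.pairwise_cons]
      refine ⟨hl.filter _, ⟨fun b hb => ?_, hl.filter _⟩, fun x hx y hy => ?_⟩
      · rw [List.mem_filter] at hb
        exact of_decide_eq_true hb.2
      · rw [List.mem_filter] at hx
        have hx' : r x a := of_decide_eq_true hx.2
        rcases List.mem_cons.1 hy with rfl | hy
        · exact hx'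
        · rw [List.mem_filter] at hy
          exact h2 x a y hx' (of_decide_eq_true hy.2)
    · ext x
      rw [List.mem_toFinset, List.mem_append, List.mem_cons, List.mem_filter, List.mem_filter,
        Finset.mem_insert, ← hg, List.mem_toFinset]
      simp only [decide_eq_true_eq]
      constructor
      · rintro (h | h | h)
        · exact Or.inr h.1
        · exact Or.inl h
        · exact Or.inr h.1
      · rintro (h | h)
        · exact Or.inr (Or.inl h)
        · have hne : x ≠ a := by
            rintro rfl
            apply ha
            rw [← hg]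
            exact List.mem_toFinset.2 h
          rcases h3 x a hne with h4 | h4
          · exact Or.inl ⟨h, h4⟩
          · exact Or.inr (Or.inr ⟨h, h4⟩)

end H51.MT
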