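import Pool.Agent.H51.MT.Nax
import Pool.Agent.H48.MG.Thx
import Pool.Agent.H48.MG.Eta
import Pool.Agent.H48.MG.Ghs
import Pool.Agent.H48.MG.Alx
import Pool.Agent.H48.MF.Tyf
import Pool.Agent.H48.MF.Any

/-!
# H51/MT: the limits of a fibre (MP_b39724_nt, stage 2 of theorem (M))

* `gal`: `κ` generic and aligned: the phase is a function of `(c, qt g)` (`alx`), so the weighted sum has a limit (`Anl.lm`).
* `lmk`: for every `κ` the weighted sum of `phz κ` has a limit (`thx`, `nax`, `gal`).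
* `syf_low`: the number of all surjective homomorphisms with labels is at least a constant times `Y (log Y)^(N-1)`.
* `lmh`: `LimH Gm X` for `Sz Gm`.
-/

set_option autoImplicit false
set_option linter.dupNamespace false

open scoped NumberField Pointwise
open IsDedekindDomain NumberField Filter Topology
open scoped Classical

noncomputable section

namespace H51.MT

open H63.MA H38.BB H38.BG H57.PC H57.BRA H89.BRG H1.AR H48.MF H48.MG

variable {p u w N : ℕ} {G R Q : Type} [Group G] [Group R] [Group Q] [Finite G] [Finite R]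
  [Fintype Q] (Gm : GM p u w N G R Q) {K : Type} [Field K] [NumberField K] {Ω : Type} [Field Ω]
  [Algebra K Ω] [IsAlgClosure K Ω] {ζ : K} (X : AD Gm.M K Ω ζ) (φ₁ : Gal(Ω/K) →* G)

omit [Finite R] in
private theorem lmh_cv {c : Gal(Ω/K) →* R} {g : Finset X.Lb} {φ : Gal(Ω/K) →* G}
    {ε : Pl K → Fin w → ZMod p} (h : AL Gm X φ₁ c g φ ε) :
    Cv X.D.S0 X.P Gm.M (rh X c g) (Gm.pr.comp φ₁) := by
  have h1 := cq_cv Gm h.cq
  have h2 : Gm.pr.comp φ = rh X c g := by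
    ext σ
    exact h.pr σ
  rw [h2] at h1
  exact h1

/-- generic aligned `κ`: the weighted sum has a limit -/
theorem gal [NeZero p] (hp : p.Prime) (hp2 : MOne p K) (hζ : IsPrimitiveRoot ζ p) (hz : Z2 p K)
    (hA : Anl Gm X) (D' : RM K p ζ) (hS : D'.S = X.D.S0) (hφ₁ : H38.ML.FT φ₁)
    {κ : Fin D'.r → Fin w → ZMod p} (hκ : κ ∈ TP Gm X D' φ₁) (hG : ∀ j, Gnk Gm X D' κ j)
    {η : Q → Fin w → ZMod p} (hη : Gnr Gm η)
    (hv : ∀ v, X.D.Gd v → ∀ k, η (X.φQ (X.Fr.F v)) k = ∑ i, κ i k * D'.q v i)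
    (hal : Algd Gm η) :
    ∃ l : ℂ, Tendsto (fun Y : ℝ => WS Gm X (phz Gm X D' φ₁ κ) Y /
      ((Y * Real.log Y ^ (N - 1) : ℝ) : ℂ)) atTop (𝓝 l) := by
  obtain ⟨h1, hh1⟩ : ∃ h1 : (Gal(Ω/K) →* R) → ((j : Fin N) → Fin (X.A j).D.r → ZMod p) → ℂ,
      ∀ c x, h1 c x = if H : ∃ (g' : Finset X.Lb) (φ : Gal(Ω/K) →* G) (ε : Pl K → Fin w → ZMod p),
        X.Ok g' ∧ (∀ j, X.qt g' j = x j) ∧ AL Gm X φ₁ c g' φ ε then
          ep p (-(Oe X η H.choose_spec.choose_spec.choose)) else 0 := ⟨_, fun _ _ => rfl⟩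
  have key : ∀ (c : Gal(Ω/K) →* R) (g : Finset X.Lb), X.IsC c → X.Ok g →
      (∀ a ∈ g, X.ev (rh X c g) a = 0) → phz Gm X D' φ₁ κ c g = h1 c (X.qt g) := by
    intro c g hc hg hev
    rw [hh1]
    by_cases hcv : Cv X.D.S0 X.P Gm.M (rh X c g) (Gm.pr.comp φ₁)
    · obtain ⟨z, hz'⟩ := dl_ex Gm X φ₁ hp hp2 hζ hz hφ₁ hc hg hev hcv
      obtain ⟨φ, ε, hAL⟩ := lfu Gm X hp hp2 hζ hz hc hg hev hφ₁ hcv
      have hex : ∃ (g' : Finset X.Lb) (φ : Gal(Ω/K) →* G) (ε : Pl K → Fin w → ZMod p),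
        X.Ok g' ∧ (∀ j, X.qt g' j = X.qt g j) ∧ AL Gm X φ₁ c g' φ ε := ⟨g, φ, ε, hg, fun _ => rfl, hAL⟩
      rw [dif_pos hex, aoe Gm X φ₁ hp hζ D' hS hκ hG hv hc hg hz' hAL]
      obtain ⟨h2, h3, h4⟩ := hex.choose_spec.choose_spec.choose_spec
      rw [alx Gm X φ₁ hp hp2 hζ hz hφ₁ D' hS hκ hG hη hv hal hc hg h2 (fun j => (h3 j).symm) hAL h4]
    · rw [dif_neg]
      · unfold phz
        rw [dif_neg]
        rintro ⟨-, -, z, hz'⟩
        exact hcv (dl_ev Gm X φ₁ hp hζ hc hg hz').2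
      · rintro ⟨g', φ, ε, hg', hq, hAL⟩
        refine hcv (cv_trans Gm (cv_symm Gm ?_) (lmh_cv Gm X φ₁ hAL))
        intro v hv'
        exact sty X hp hp2 hζ hc hg' hg hq (rh_tw Gm X hp hζ hc g')
          (rh_tw Gm X hp hζ hc g) v hv'
  obtain ⟨l1, hl1, -⟩ := hA.lm fun c x => (h1 c x).re
  obtain ⟨l2, hl2, -⟩ := hA.lm fun c x => (h1 c x).im
  refine ⟨(l1 : ℂ) + Complex.I * (l2 : ℂ), ?_⟩
  refine (hl1.add (hl2.const_mul Complex.I)).congr fun Y => ?_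
  have h2 := ws_lin Gm X hA.fc (Finset.univ : Finset Bool)
    (fun b => if b then Complex.I else 1)
    (fun b c g => if b then (((h1 c (X.qt g)).im : ℝ) : ℂ) else (((h1 c (X.qt g)).re : ℝ) : ℂ)) Y
  rw [Fintype.sum_bool] at h2
  simp only [if_true, Bool.false_eq_true, if_false, one_mul] at h2
  rw [mul_div_assoc', ← add_div, add_comm, ← h2]
  congr 1
  refine ws_congr Gm X fun c g hc hg => ?_
  by_cases hev : ∀ a ∈ g, X.ev (rh X c g) a = 0
  · rw [key c g hc hg.1 hev, Fintype.sum_bool]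
    simp only [if_true, Bool.false_eq_true, if_false, one_mul]
    congr 1
    rw [add_comm, mul_comm, Complex.re_add_im]
  · have hw : wz Gm X c g = 0 := by
      unfold wz
      rw [if_neg hev]
    rw [hw, mul_zero, mul_zero]

/-- every weighted sum of phases has a limit -/
theorem lmk [Fintype (Co X)] {d : ℕ} {D qq : ℝ} (hI : FI X d D qq) (hN : 1 ≤ N) (hSz : Sz Gm)
    (hA : Anl Gm X) (D' : RM K p ζ) (hS : D'.S = X.D.S0) (hφ₁ : H38.ML.FT φ₁)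
    (κ : Fin D'.r → Fin w → ZMod p) :
    ∃ l : ℂ, Tendsto (fun Y : ℝ => WS Gm X (phz Gm X D' φ₁ κ) Y /
      ((Y * Real.log Y ^ (N - 1) : ℝ) : ℂ)) atTop (𝓝 l) := by
  haveI : NeZero p := ⟨hI.hp.ne_zero⟩
  by_cases hκ : κ ∈ TP Gm X D' φ₁
  · by_cases hG : ∀ j, Gnk Gm X D' κ j
    · obtain ⟨η, hη, hv⟩ := eta_ex Gm X hI.hp hI.hp2 hI.hζ hI.hz hSz D' hS κ hG
      by_cases hal : Algd Gm η
      · exact gal Gm X φ₁ hI.hp hI.hp2 hI.hζ hI.hz hA D' hS hφ₁ hκ hG hη hv hal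
      · exact ⟨0, nax Gm X φ₁ hI hN D' hS hφ₁ hκ hG hη hv hal⟩
    · exact ⟨0, thx Gm X φ₁ hI hN D' hS κ hG⟩
  · refine ⟨0, ?_⟩
    have h1 : ∀ Y : ℝ, WS Gm X (phz Gm X D' φ₁ κ) Y = 0 := by
      intro Y
      have h2 := (ws_lin Gm X hA.fc (∅ : Finset Unit) (fun _ => 0) (fun _ _ _ => 0) Y).trans
        Finset.sum_empty
      refine (ws_congr Gm X fun c g hc hg => ?_).trans h2
      have h3 : phz Gm X D' φ₁ κ c g = 0 := by
        unfold phz
        rw [dif_neg (fun h => hκ h.1)]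
      rw [h3, Finset.sum_empty]
    have h2 : (fun Y : ℝ => WS Gm X (phz Gm X D' φ₁ κ) Y /
        ((Y * Real.log Y ^ (N - 1) : ℝ) : ℂ)) = fun _ => 0 := by
      funext Y
      rw [h1, zero_div]
    rw [h2]
    exact tendsto_const_nhds

/-- the number of all surjective homomorphisms with labels is large -/
theorem syf_low [NeZero p] (hp : p.Prime) (hp2 : MOne p K) (hζ : IsPrimitiveRoot ζ p) (hz : Z2 p K)
    (hA : Anl Gm X) {Y₁ : ℝ} (h₁ : φ₁ ∈ SYf Gm X Y₁) :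
    ∃ l : ℝ, 0 < l ∧ ∀ᶠ Y : ℝ in atTop,
      l * (Y * Real.log Y ^ (N - 1)) ≤ ((SYf Gm X Y).ncard : ℝ) := by
  obtain ⟨h, hh⟩ : ∃ h : (Gal(Ω/K) →* R) → ((j : Fin N) → Fin (X.A j).D.r → ZMod p) → ℝ,
      ∀ c κ, h c κ = if ∃ g', X.Ok g' ∧ (∀ j, X.qt g' j = κ j) ∧ ∃ φ : Gal(Ω/K) →* G,
        H38.ML.FT φ ∧ Cv X.D.S0 X.P Gm.M (rh X c g') (Gm.pr.comp φ) then 1 else 0 :=
    ⟨_, fun _ _ => rfl⟩
  have hh0 : ∀ c κ, 0 ≤ h c κ := by
    intro c κ
    rw [hh]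
    split_ifs
    · exact zero_le_one
    · exact le_rfl
  obtain ⟨l, hl1, hl2⟩ := hA.lm h
  obtain ⟨hl3, hl4⟩ := hl2 hh0
  have hlpos : 0 < l := by
    refine hl4 ?_
    have hne : (Lbs Gm X φ₁).Nonempty := by
      by_contra h
      rw [Set.not_nonempty_iff_eq_empty] at h
      have h1 := (lbc Gm X hp hζ hz h₁).2
      rw [h, finsum_mem_empty] at h1
      exact zero_ne_one h1
    obtain ⟨g, hg⟩ := hne
    obtain ⟨h1, c, ⟨h2, h3, h4⟩, -⟩ := syi_to Gm X hp hζ h₁ hg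
    refine ⟨c, g, h2, h1.1, ?_, fun a ha => ls_ev Gm X hp hζ h2 h1.1 (rh_tw Gm X hp hζ h2 g) h4 ha⟩
    have h5 : Gm.pr.comp φ₁ = rh X c g := by
      ext σ
      exact h4.2.1 σ
    rw [hh, if_pos]
    · exact zero_lt_one
    · refine ⟨g, h1.1, fun _ => rfl, φ₁, h₁.1, ?_⟩
      rw [h5]
      exact cv_refl Gm _ _ _
  have hre := (Complex.continuous_re.tendsto _).comp hl1
  rw [Complex.ofReal_re] at hre
  have hev : ∀ᶠ Y : ℝ in atTop, l / 2 < (WS Gm X (fun c g => ((h c (X.qt g) : ℝ) : ℂ)) Y /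
      ((Y * Real.log Y ^ (N - 1) : ℝ) : ℂ)).re := hre.eventually_const_lt (half_lt_self hlpos)
  refine ⟨l / 2, half_pos hlpos, ?_⟩
  filter_upwards [hev, eventually_gt_atTop (1 : ℝ)] with Y hY hY1
  have hlog : 0 < Real.log Y := Real.log_pos hY1
  have hD : 0 < Y * Real.log Y ^ (N - 1) := mul_pos (by linarith) (pow_pos hlog _)
  -- the weighted sum is real
  have hfc := hA.fc
  have h1 := (syi Gm X hp hζ hz hfc (fun _ => True) Y).2
  rw [finsum_mem_eq_finite_toFinset_sum _ (fm_fin Gm X Y)] at h1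
  have h2 : ((SYf Gm X Y).ncard : ℝ) = ∑ g ∈ (fm_fin Gm X Y).toFinset, ∑ c ∈ hfc.toFinset,
      if X.Sp c (g.image Sigma.fst) then
        (∏ a ∈ g, Gm.rt a.1) * ((LS Gm X (rh X c g) g).ncard : ℝ) else 0 := by
    have h3 : {φ ∈ SYf Gm X Y | True} = SYf Gm X Y := by
      ext φ
      exact ⟨fun h => h.1, fun h => ⟨h, trivial⟩⟩
    rw [h3] at h1
    refine h1.trans (Finset.sum_congr rfl fun g _ => ?_)
    rw [finsum_mem_eq_finite_toFinset_sum _ hfc]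
    refine Finset.sum_congr rfl fun c _ => ?_
    have h4 : {φ ∈ LS Gm X (rh X c g) g | True} = LS Gm X (rh X c g) g := by
      ext φ
      exact ⟨fun h => h.1, fun h => ⟨h, trivial⟩⟩
    rw [h4]
  have h3 : WS Gm X (fun c g => ((h c (X.qt g) : ℝ) : ℂ)) Y =
      ((∑ g ∈ (fm_fin Gm X Y).toFinset, ∑ c ∈ hfc.toFinset, if X.Sp c (g.image Sigma.fst) then
        h c (X.qt g) * (if ∀ a ∈ g, X.ev (rh X c g) a = 0 then
          ((∏ a ∈ g, Nat.card (Gm.Zj a.1) : ℕ) : ℝ) else 0) else 0 : ℝ) : ℂ) := by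
    unfold WS
    rw [finsum_mem_eq_finite_toFinset_sum _ (fm_fin Gm X Y), Complex.ofReal_sum]
    refine Finset.sum_congr rfl fun g _ => ?_
    rw [finsum_mem_eq_finite_toFinset_sum _ hfc, Complex.ofReal_sum]
    refine Finset.sum_congr rfl fun c _ => ?_
    unfold wz
    split_ifs
    · push_cast
      ring
    · push_cast
      ring
    · push_cast
      ring
  have h4 : (WS Gm X (fun c g => ((h c (X.qt g) : ℝ) : ℂ)) Y).re ≤ ((SYf Gm X Y).ncard : ℝ) := by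
    rw [h3, Complex.ofReal_re, h2]
    refine Finset.sum_le_sum fun g hg => Finset.sum_le_sum fun c hc => ?_
    rw [Set.Finite.mem_toFinset] at hg hc
    have hc' : X.IsC c := hc
    have hrt : ∀ i, 0 ≤ Gm.rt i := fun i => by
      unfold GM.rt
      positivity
    by_cases hs : X.Sp c (g.image Sigma.fst)
    · rw [if_pos hs, if_pos hs]
      have h0 : 0 ≤ (∏ a ∈ g, Gm.rt a.1) * ((LS Gm X (rh X c g) g).ncard : ℝ) :=
        mul_nonneg (Finset.prod_nonneg fun a _ => hrt _) (Nat.cast_nonneg _)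
      by_cases hev : ∀ a ∈ g, X.ev (rh X c g) a = 0
      · rw [if_pos hev]
        by_cases hex : ∃ g', X.Ok g' ∧ (∀ j, X.qt g' j = X.qt g j) ∧ ∃ φ : Gal(Ω/K) →* G,
            H38.ML.FT φ ∧ Cv X.D.S0 X.P Gm.M (rh X c g') (Gm.pr.comp φ)
        · rw [hh, if_pos hex, one_mul]
          obtain ⟨g', hg', hq, φ, hft, hcv⟩ := hex
          have hcv' : Cv X.D.S0 X.P Gm.M (rh X c g) (Gm.pr.comp φ) := by
            refine cv_trans Gm (cv_symm Gm ?_) hcv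
            intro v hv'
            exact sty X hp hp2 hζ hc' hg' hg.1 hq (rh_tw Gm X hp hζ hc' g')
              (rh_tw Gm X hp hζ hc' g) v hv'
          have hne := lfe Gm X hp hp2 hζ hz hc' hg.1 (rh_tw Gm X hp hζ hc' g) hev hft hcv'
          have h5 := (lst Gm X hp hζ hc' hg.1 (rh_tw Gm X hp hζ hc' g)).2 hne
          have hy : 1 ≤ y0 Gm X := by
            by_contra hlt
            have h6 : y0 Gm X = 0 := by omega
            rw [h6, zero_mul] at h5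
            have h7 := (Set.ncard_eq_zero
              (lst Gm X hp hζ hc' hg.1 (rh_tw Gm X hp hζ hc' g)).1).1 h5
            rw [h7] at hne
            exact Set.not_nonempty_empty hne
          have hpos : (0 : ℝ) < ((∏ a ∈ g, Nat.card (Gm.Del a.1) : ℕ) : ℝ) := by
            have h5 : 0 < ∏ a ∈ g, Nat.card (Gm.Del a.1) :=
              Finset.prod_pos fun a _ => (rt_pos Gm a.1).2.2.1
            exact_mod_cast h5
          have h6 : (∏ a ∈ g, Gm.rt a.1 : ℝ) = ((∏ a ∈ g, Nat.card (Gm.Zj a.1) : ℕ) : ℝ) /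
              ((∏ a ∈ g, Nat.card (Gm.Del a.1) : ℕ) : ℝ) := by
            unfold GM.rt
            rw [Finset.prod_div_distrib]
            push_cast
            rfl
          rw [h5, h6, Nat.cast_mul]
          obtain ⟨dd, hdd⟩ : ∃ dd : ℝ, dd = ((∏ a ∈ g, Nat.card (Gm.Del a.1) : ℕ) : ℝ) := ⟨_, rfl⟩
          obtain ⟨zz, hzz⟩ : ∃ zz : ℝ, zz = ((∏ a ∈ g, Nat.card (Gm.Zj a.1) : ℕ) : ℝ) := ⟨_, rfl⟩
          have hzz0 : 0 ≤ zz := by
            rw [hzz]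
            exact Nat.cast_nonneg _
          rw [← hdd] at hpos ⊢
          rw [← hzz]
          have h8 : (1 : ℝ) ≤ (y0 Gm X : ℝ) := by exact_mod_cast hy
          have h9 : zz / dd * ((y0 Gm X : ℝ) * dd) = zz * (y0 Gm X : ℝ) := by
            field_simp
          rw [h9]
          exact le_mul_of_one_le_right hzz0 h8
        · rw [hh, if_neg hex, zero_mul]
          exact h0
      · rw [if_neg hev, mul_zero]
        exact h0
    · rw [if_neg hs, if_neg hs]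
  refine le_trans ?_ h4
  have h5 : (WS Gm X (fun c g => ((h c (X.qt g) : ℝ) : ℂ)) Y /
      ((Y * Real.log Y ^ (N - 1) : ℝ) : ℂ)).re =
      (WS Gm X (fun c g => ((h c (X.qt g) : ℝ) : ℂ)) Y).re / (Y * Real.log Y ^ (N - 1)) :=
    Complex.div_ofReal_re _ _
  rw [h5, lt_div_iff₀ hD] at hY
  exact hY.le

/-- the limits of the fibre, with a positive one -/
theorem lmh [Fintype (Co X)] {d : ℕ} {D qq : ℝ} (hI : FI X d D qq) (hN : 1 ≤ N) (hSz : Sz Gm)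
    (hA : Anl Gm X) (D' : RM K p ζ) (hS : D'.S = X.D.S0) : LimH Gm X := by
  haveI : NeZero p := ⟨hI.hp.ne_zero⟩
  have hlim : ∀ φ₁ : Gal(Ω/K) →* G, H38.ML.FT φ₁ → ∃ l : ℝ, 0 ≤ l ∧
      Tendsto (fun Y : ℝ => ((SYm Gm X φ₁ Y).ncard : ℝ) / (Y * Real.log Y ^ (N - 1)))
        atTop (𝓝 l) := by
    intro φ₁ hφ₁
    choose l hl using lmk Gm X φ₁ hI hN hSz hA D' hS hφ₁
    have h1 := (tendsto_finsetSum (Finset.univ : Finset (Fin D'.r → Fin w → ZMod p))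
      fun κ _ => hl κ).const_mul (c0 Gm X φ₁ D' : ℂ)
    have h2 : Tendsto (fun Y : ℝ => ((((SYm Gm X φ₁ Y).ncard : ℝ) /
        (Y * Real.log Y ^ (N - 1)) : ℝ) : ℂ)) atTop
        (𝓝 ((c0 Gm X φ₁ D' : ℂ) * ∑ κ : Fin D'.r → Fin w → ZMod p, l κ)) := by
      refine h1.congr fun Y => ?_
      rw [← Finset.sum_div, ← mul_div_assoc, ← ghs Gm X φ₁ hI.hp hI.hp2 hI.hζ hI.hz hA.fc D' hS Y]
      push_cast
      rfl
    have h3 := (Complex.continuous_re.tendsto _).comp h2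
    have h4 : Tendsto (fun Y : ℝ => ((SYm Gm X φ₁ Y).ncard : ℝ) / (Y * Real.log Y ^ (N - 1)))
        atTop (𝓝 ((c0 Gm X φ₁ D' : ℂ) * ∑ κ : Fin D'.r → Fin w → ZMod p, l κ).re) := by
      refine h3.congr fun Y => ?_
      rw [Function.comp_apply, Complex.ofReal_re]
    refine ⟨_, ge_of_tendsto h4 ?_, h4⟩
    filter_upwards [eventually_gt_atTop (1 : ℝ)] with Y hY
    have hlog : 0 < Real.log Y := Real.log_pos hY
    exact div_nonneg (Nat.cast_nonneg _) (mul_pos (by linarith) (pow_pos hlog _)).le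
  refine ⟨hA.fc, hlim, fun φ₁ Y₁ h₁ => ?_⟩
  by_contra hcon
  obtain ⟨l₀, hl₀, hlow⟩ := syf_low Gm X φ₁ hI.hp hI.hp2 hI.hζ hI.hz hA h₁
  obtain ⟨Rs, hR1, hR2, -⟩ := tyf Gm X hI.hp hI.hp2 hI.hζ hI.hz hA.fc
  have h0 : ∀ φ ∈ Rs, Tendsto (fun Y : ℝ => ((SYm Gm X φ Y).ncard : ℝ) /
      (Y * Real.log Y ^ (N - 1))) atTop (𝓝 0) := by
    intro φ hφ
    obtain ⟨Y₂, hY₂⟩ := hR1 φ hφ
    obtain ⟨l, hl0, hl⟩ := hlim φ hY₂.1
    rcases hl0.eq_or_lt with h | h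
    · rw [h]
      exact hl
    · exact absurd ⟨φ, Y₂, hY₂, l, h, hl⟩ hcon
  have h1 := tendsto_finsetSum Rs h0
  rw [Finset.sum_const_zero] at h1
  have h2 : ∀ᶠ Y : ℝ in atTop, ∑ φ ∈ Rs, ((SYm Gm X φ Y).ncard : ℝ) /
      (Y * Real.log Y ^ (N - 1)) < l₀ := h1.eventually_lt_const hl₀
  have h3 : ∀ᶠ Y : ℝ in atTop, False := by
    filter_upwards [h2, hlow, eventually_gt_atTop (1 : ℝ)] with Y hY hY' hY1
    have hlog : 0 < Real.log Y := Real.log_pos hY1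
    have hD : 0 < Y * Real.log Y ^ (N - 1) := mul_pos (by linarith) (pow_pos hlog _)
    rw [← Finset.sum_div, div_lt_iff₀ hD] at hY
    have hfin : (SYf Gm X Y).Finite := (syi Gm X hI.hp hI.hζ hI.hz hA.fc (fun _ => True) Y).1
    have h4 : SYf Gm X Y ⊆ ⋃ φ ∈ Rs, SYm Gm X φ Y := by
      intro ψ hψ
      obtain ⟨φ, hφ, hc⟩ := hR2 ψ Y hψ
      exact Set.mem_biUnion hφ ⟨hψ, hc⟩
    have h5 : (SYf Gm X Y).ncard ≤ ∑ φ ∈ Rs, (SYm Gm X φ Y).ncard := by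
      refine (Set.ncard_le_ncard h4 ?_).trans (Finset.set_ncard_biUnion_le Rs fun φ => SYm Gm X φ Y)
      exact Rs.finite_toSet.biUnion fun φ _ => hfin.subset fun x hx => hx.1
    have h6 : ((SYf Gm X Y).ncard : ℝ) ≤ ∑ φ ∈ Rs, ((SYm Gm X φ Y).ncard : ℝ) := by
      exact_mod_cast h5
    linarith
  obtain ⟨Y, hY⟩ := h3.exists
  exact hY

end H51.MT
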