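import Pool.Agent.H51.MT.Sta
import Pool.Agent.H51.MT.Lli

/-!
# [H51 MT STO] the order of the labels, families as lists (50-90 lines)

`olt a b`: the state of `a` is before the state of `b` in a numbering of the states, or the states are equal and `WellOrderingRel a b`. `so X g` is the list of the elements of `g` in this order (`so_ex`).
* `olt_asym`, `olt_trans`, `olt_tri`: see `orx` (Pool/Agent/H51/MS/Orx.lean).
* `so_mem` is proved (the set of the elements of `so X g` is `g`; mind the decidability instances in `ps_pw`). `so_nd`: `olt_asym` (a pairwise asymmetric list has no duplicates). `so_sum`: `List.sum_toFinset` (no duplicates). `so_st`, `so_cnt`: count in a list without duplicates.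
* `so_ps`: `ps_pw`.
-/

set_option autoImplicit false
set_option linter.dupNamespace false

open scoped NumberField Pointwise
open IsDedekindDomain NumberField
open scoped Classical

noncomputable section

namespace H51.MT

open H63.MA H38.BB H38.BG H57.PC H57.BRA H89.BRG H1.AR

variable {p u w N : ℕ} {R Q : Type} [Group R] [Group Q]
variable [Fintype Q] {Dg : MG p u w N R Q} {K : Type} [Field K] [NumberField K] {Ω : Type}
  [Field Ω] [Algebra K Ω] [IsAlgClosure K Ω] {ζ : K} (X : AD Dg K Ω ζ)

/-- the numbering of the states -/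
def ns [NeZero p] : Stt X ≃ Fin (Fintype.card (Stt X)) := Fintype.equivFin (Stt X)

/-- the order of the labels -/
def olt [NeZero p] (a b : X.Lb) : Prop := ns X (stt X a) < ns X (stt X b) ∨
  (ns X (stt X a) = ns X (stt X b) ∧ WellOrderingRel a b)

theorem olt_asym [NeZero p] (a b : X.Lb) (h : olt X a b) : ¬ olt X b a := by
  rintro (h2 | ⟨h2, h3⟩)
  · rcases h with h | ⟨h, -⟩
    · exact lt_asymm h h2
    · exact absurd h h2.ne'
  · rcases h with h | ⟨-, h⟩
    · exact absurd h2 h.ne'
    · exact asymm_of WellOrderingRel h h3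

theorem olt_trans [NeZero p] (a b c : X.Lb) (h : olt X a b) (h' : olt X b c) : olt X a c := by
  rcases h with h | ⟨h, h1⟩
  · rcases h' with h' | ⟨h', -⟩
    · exact Or.inl (h.trans h')
    · exact Or.inl (h' ▸ h)
  · rcases h' with h' | ⟨h', h2⟩
    · exact Or.inl (h ▸ h')
    · exact Or.inr ⟨h.trans h', trans_of WellOrderingRel h1 h2⟩

theorem olt_tri [NeZero p] (a b : X.Lb) (h : a ≠ b) : olt X a b ∨ olt X b a := by
  rcases lt_trichotomy (ns X (stt X a)) (ns X (stt X b)) with h1 | h1 | h1
  · exact Or.inl (Or.inl h1)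
  · rcases trichotomous_of WellOrderingRel a b with h2 | h2 | h2
    · exact Or.inl (Or.inr ⟨h1, h2⟩)
    · exact absurd h2 h
    · exact Or.inr (Or.inr ⟨h1.symm, h2⟩)
  · exact Or.inr (Or.inl h1)

/-- the list of the elements of a family -/
def so [NeZero p] (g : Finset X.Lb) : List X.Lb :=
  (so_ex (olt X) (olt_asym X) (olt_trans X) (olt_tri X) g).choose

theorem so_pw [NeZero p] (g : Finset X.Lb) : (so X g).Pairwise (olt X) :=
  (so_ex (olt X) (olt_asym X) (olt_trans X) (olt_tri X) g).choose_spec.1

theorem so_mem [NeZero p] (g : Finset X.Lb) (a : X.Lb) : a ∈ so X g ↔ a ∈ g := by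
  have h := (so_ex (olt X) (olt_asym X) (olt_trans X) (olt_tri X) g).choose_spec.2
  exact (@List.mem_toFinset X.Lb (fun a b => Classical.propDecidable (a = b)) _ a).symm.trans
    (iff_of_eq (congrArg (fun s : Finset X.Lb => a ∈ s) h))

theorem so_nd [NeZero p] (g : Finset X.Lb) : (so X g).Nodup := by
  refine List.Pairwise.imp (fun {x y} hxy => ?_) (so_pw X g)
  rintro rfl
  exact olt_asym X x x hxy hxy

theorem so_fs [NeZero p] (g : Finset X.Lb) [DecidableEq X.Lb] : (so X g).toFinset = g := by
  ext a
  rw [List.mem_toFinset, so_mem]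

theorem so_sum [NeZero p] {A : Type} [AddCommMonoid A] (g : Finset X.Lb) (f : X.Lb → A) :
    ((so X g).map f).sum = ∑ a ∈ g, f a := by
  rw [← List.sum_toFinset _ (so_nd X g), so_fs]

theorem so_ps [NeZero p] {A : Type} [AddCommMonoid A] (g : Finset X.Lb) (F : X.Lb → X.Lb → A) :
    ps (so X g) F = ∑ a ∈ g, ∑ b ∈ g, if olt X a b then F a b else 0 := by
  rw [ps_pw (olt X) (olt_asym X) _ (so_pw X g), so_fs]

theorem so_st [NeZero p] (g : Finset X.Lb) :
    ((so X g).map fun a => ns X (stt X a)).Pairwise (· ≤ ·) := by
  rw [List.pairwise_map]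
  refine List.Pairwise.imp (fun {x y} hxy => ?_) (so_pw X g)
  rcases hxy with h | ⟨h, -⟩
  · exact h.le
  · exact h.le

theorem so_cnt [NeZero p] (g : Finset X.Lb) (x : Stt X) :
    ((so X g).map fun a => ns X (stt X a)).count (ns X x) =
      (g.filter fun a => stt X a = x).card := by
  have h1 : (g.filter fun a => stt X a = x) = ((so X g).filter fun a => stt X a = x).toFinset := by
    ext a
    rw [Finset.mem_filter, List.mem_toFinset, List.mem_filter, so_mem, decide_eq_true_eq]
  rw [h1, List.toFinset_card_of_nodup ((so_nd X g).filter _), List.count, List.countP_map,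
    List.countP_eq_length_filter]
  congr 1
  refine List.filter_congr fun a _ => ?_
  rw [Function.comp_apply, Bool.eq_iff_iff, beq_iff_eq, decide_eq_true_eq]
  exact (ns X).injective.eq_iff

end H51.MT
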