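import Pool.Agent.H51.MT.Lcp
import Pool.Agent.H51.MT.Oma
import Pool.Agent.H51.MT.Sto
import Pool.Agent.H48.MG.Defs

/-!
# [H51 MT LOC] the local invariants of the cochain of a lift (130-190 lines)

`φ` a lift over `e (bet) c` for the list `l = so X g`, `g` an `Ok` family. Put `L v = om1 (F v) (t v) - om1 (t v) (F v)`, `F v = X.Fr.F v`, `t v = X.L.t v`. `η (φQ (t v)) = η 1 = 0` (`lc_q`).
* `loc0`: `v ∉ S0` not under `g`: all `mm b (t v) = 0`, `bt a (t v) = 0` (`lc_0`, `vp_mm`): no pairs; `c (t v) = 1` (`hc.ur`), `nf l 0 1 = 1` (`sec_one`, `gm_e0`), so `ff (t v) = zz (φ (t v)) = ε`.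
* `loc_ff`: `v = un a`, `a ∈ g`: the other `bt b (t v)` are `0`, so `nf = sec (e (bt a (t v)))` (a list product with one factor `≠ 1`; `c (t v) = 1`). `lbl_t` for `φ`: `φ (X.t a) = φ γ * φ (t v) * (φ γ)⁻¹`, so `φ (t v) = (φ γ)⁻¹ * z ε * g a * φ γ = z ε * (φ γ)⁻¹ g a φ γ`. `φ γ = z * P * sec (c γ)` with `P = ∏ sec (e (bt b γ))`,
  `P⁻¹ g a P = z (- om (bet γ) (y a)) * g a` (`gm_comm`, `gy`, `iv_om`), so `φ (t v) = z (ε - om (bet γ) (y a)) * (sec (c γ))⁻¹ * g a * sec (c γ)` and `ff (t v) = ε - om (bet γ) (y a) + zz ((sec (c γ))⁻¹ * g a * sec (c γ) * (sec (e (bt a (t v))))⁻¹)` (the last element is in the image of `z`: its image under `pr` is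
  `(c γ)⁻¹ e (y a) c γ (e (bt a (t v)))⁻¹ = 1`: `Gm.M.conj`, `lc_1` under `vp`). Apply `η (φQ (F v))`: it is equal to `η (φQ (fb a))` (`lbl_f` with `ρ = φQ`: conjugate up to inertia, `η` additive), `φQ (fb a) ∈ H` (`fld_phi`), so `η (om (bet γ) (y a)) = 0` (`hη.van`, `om_neg`).
* `loc_c`: `φ (F v)`, `φ (t v)` commute (Frobenius property `(isFr_of ..).2.2`, exponent `p`), `gm_comm` and `zinj`: `iv (c k) (pr φ (F v)) (pr φ (t v)) = 0`, `pr φ (F v) = e (bet (F v)) * c (F v)`, `pr φ (t v) = e (bt a (t v))` `(= e (y*))`; `e (y*)` commutes with `e (bet (F v))` and with `c (F v)` (`lc_F` under `vp`), `iv_mul_left`: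
  `om (bet (F v)) y* + (iv (c k) (c (F v)) (e y*))_k = 0`.
* `loc1`: `so_ps` for the pairs: only the pairs `(a, b)` and `(b, a)` contribute. `(a, b)`, `olt a b`: `Lm (mm b F) (act F y*) - Lm (mm b t) _ = Lm (mm b F) y*` (`lc_F`, `lc_0`) `= Pb b a - η γ (om (bt b F) y*)` (`lc_P`). `(b, a)`, `olt b a`: `Lm (mm a F) (act F (bt b t)) - Lm (mm a t) (act t (bt b F)) = 0 - Lm (mm a t) (bt b F)
  = η γ (om y* (bt b F)) = - η γ (om (bt b F) y*)` (`lc_Q`). Every `b ∈ g`, `b ≠ a` is in exactly one of the cases. Sum: `loc_ff`, and `∑_{b ≠ a} om (bt b F) y* = om (bet F) y* - om (bt a F) y*` with `loc_c`. `sl a` is the sum of the remaining terms.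
-/

set_option autoImplicit false
set_option linter.dupNamespace false

open scoped NumberField Pointwise
open IsDedekindDomain NumberField
open scoped Classical

noncomputable section

namespace H51.MT

open H63.MA H38.BB H38.BG H57.PC H57.BRA H89.BRG H1.AR H48.MF H48.MG

variable {p u w N : ℕ} {G R Q : Type} [Group G] [Group R] [Group Q] [Fintype Q]
  (Gm : GM p u w N G R Q) {K : Type} [Field K] [NumberField K] {Ω : Type} [Field Ω] [Algebra K Ω]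
  [IsAlgClosure K Ω] {ζ : K} (X : AD Gm.M K Ω ζ)

/-- the contribution of a label -/
def sl (c : Gal(Ω/K) →* R) (η : Q → Fin w → ZMod p) (a : X.Lb) : ZMod p :=
  dt (η (X.φQ (X.Fr.F (X.un a)))) (zz Gm ((Gm.sec (c (ga X a)))⁻¹ * Gm.g a.1 * Gm.sec (c (ga X a)) *
    (Gm.sec (Gm.M.e (X.bt a (X.L.t (X.un a)))))⁻¹)) +
  dt (η (X.φQ (ga X a))) ((fun k => iv (Gm.M.c k) (c (X.Fr.F (X.un a)))
    (Gm.M.e (X.bt a (X.L.t (X.un a))))) +
    Gm.M.om (X.bt a (X.Fr.F (X.un a))) (X.bt a (X.L.t (X.un a))))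

section priv

variable {Dg : MG p u w N R Q} (Y : AD Dg K Ω ζ)

omit [Fintype Q] [IsAlgClosure K Ω] in
private theorem lo_inr {v : Pl K} (hv : v ∉ Y.D.S0) : Y.L.t v ∈ inr Y.L v := by
  have h1 : Y.L.t v = (Y.L.ld v hv).t := dif_pos hv
  have h2 : inr Y.L v = (Y.L.ld v hv).P.inertia Gal(Ω/K) := dif_pos hv
  rw [h1, h2]
  exact (Y.L.ld v hv).ht

private theorem lo_b0 (hp : p.Prime) (hζ : IsPrimitiveRoot ζ p) {b : Y.Lb} (hb : Y.Gd b)
    {v : Pl K} (hv : v ∉ Y.D.S0) (h : Y.un b ≠ v) : Y.bt b (Y.L.t v) = 0 := by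
  rw [← vp_mm, lc_0 Y hp hζ hb hv h, map_zero]

private theorem lo_y (hp : p.Prime) (hζ : IsPrimitiveRoot ζ p) {a : Y.Lb} (ha : Y.Gd a) :
    Dg.act (Y.φQ (ga Y a)) (Y.bt a (Y.L.t (Y.un a))) = Dg.y a.1 := by
  have h1 := congrArg (vp Dg) (lc_1 Y hp hζ ha)
  rwa [vp_pe, vp_mm, vp_y] at h1

private theorem lo_F (hp : p.Prime) (hζ : IsPrimitiveRoot ζ p) (hz : Z2 p K) {a : Y.Lb}
    (ha : Y.Gd a) : Dg.act (Y.φQ (Y.Fr.F (Y.un a))) (Y.bt a (Y.L.t (Y.un a))) =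
      Y.bt a (Y.L.t (Y.un a)) := by
  have h1 := congrArg (vp Dg) (lc_F Y hp hζ hz ha)
  rwa [vp_pe, vp_mm] at h1

omit [IsAlgClosure K Ω] in
private theorem lo_bet {g : Finset Y.Lb} {a : Y.Lb} (ha : a ∈ g) {σ : Gal(Ω/K)}
    (h : ∀ b ∈ g, b ≠ a → Y.bt b σ = 0) : Y.bet g σ = Y.bt a σ :=
  Finset.sum_eq_single a h fun h' => absurd ha h'

/-- `η` of the two Frobenius elements -/
private theorem lo_eta (hp : p.Prime) (hζ : IsPrimitiveRoot ζ p) (hz : Z2 p K)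
    {η : Q → Fin w → ZMod p} (hη : Ea Dg η) {a : Y.Lb} (ha : Y.Gd a) :
    η (Y.φQ (Y.Fr.F (Y.un a))) = η (Y.φQ (Y.fb a)) := by
  have hv : Y.un a ∉ Y.D.S0 := un_not Y ha.1
  have hpw : ∀ τ ∈ inr Y.L (Y.un a), Y.φQ τ ^ p = 1 := fun τ hτ => by
    rw [Y.ur _ hv τ hτ, one_pow]
  have ht : Y.φQ (Y.t a) = 1 := by
    rw [lbl_t Y hp hζ ha hv rfl (ga_cn Y ha) Y.φQ Y.ft hpw, lc_q Y hv, mul_one, mul_inv_cancel]
  obtain ⟨k, hk⟩ := lbl_f Y hp hζ hz ha hv rfl (ga_cn Y ha) Y.φQ Y.ft hpw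
  rw [hk, ht, one_pow, mul_one, hη.mul, hη.mul, hη.inv]
  abel

end priv

private theorem lo_prod {ι M : Type} [Monoid M] {l : List ι} (hl : l.Nodup) {a : ι} (ha : a ∈ l)
    (f : ι → M) (h : ∀ b ∈ l, b ≠ a → f b = 1) : (l.map f).prod = f a := by
  induction l with
  | nil => exact absurd ha List.not_mem_nil
  | cons x l ih =>
    rw [List.map_cons, List.prod_cons]
    rcases List.mem_cons.1 ha with h1 | h1
    · have h2 : (l.map f).prod = 1 := by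
        refine List.prod_eq_one fun y hy => ?_
        obtain ⟨b, hb, rfl⟩ := List.mem_map.1 hy
        refine h b (List.mem_cons_of_mem _ hb) fun hba => ?_
        rw [h1] at hba
        rw [hba] at hb
        exact (List.nodup_cons.1 hl).1 hb
      rw [h2, mul_one, h1]
    · have h2 : x ≠ a := fun hx => (List.nodup_cons.1 hl).1 (by rw [hx]; exact h1)
      rw [h x List.mem_cons_self h2, one_mul]
      exact ih (List.nodup_cons.1 hl).2 h1 fun b hb => h b (List.mem_cons_of_mem _ hb)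

/-- the word at an inertia generator -/
private theorem lo_nf [NeZero p] (hp : p.Prime) (hζ : IsPrimitiveRoot ζ p) {c : Gal(Ω/K) →* R}
    (hc : X.IsC c) {g : Finset X.Lb} (hg : X.Ok g) {a : X.Lb} (ha : a ∈ g) :
    nf Gm (so X g) (fun b => X.bt b (X.L.t (X.un a))) (c (X.L.t (X.un a))) =
      Gm.sec (Gm.M.e (X.bt a (X.L.t (X.un a)))) := by
  have hv : X.un a ∉ X.D.S0 := un_not X (hg.1 a ha).1
  unfold nf
  rw [hc.ur _ hv _ (lo_inr X hv), sec_one, mul_one]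
  refine lo_prod (so_nd X g) ((so_mem X g a).2 ha)
    (fun b => Gm.sec (Gm.M.e (X.bt b (X.L.t (X.un a))))) fun b hb hba => ?_
  have hb' : b ∈ g := (so_mem X g b).1 hb
  change Gm.sec (Gm.M.e (X.bt b (X.L.t (X.un a)))) = 1
  rw [lo_b0 X hp hζ (hg.1 b hb') hv (hg.2 b hb' a ha hba), gm_e0, sec_one]

private theorem lo_grp {zd ze zm g P S : G} (cd : ∀ y, zd * y = y * zd)
    (ce : ∀ y, ze * y = y * ze) (cm : ∀ y, zm * y = y * zm) (h : g * P = zm * (P * g)) :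
    (zd * (P * S))⁻¹ * (ze * g) * (zd * (P * S)) = ze * zm * (S⁻¹ * g * S) := by
  have hzz : ∀ y, ze * zm * y = y * (ze * zm) := fun y => by
    rw [mul_assoc, cm y, ← mul_assoc, ce y, mul_assoc]
  rw [mul_assoc, inv_mul_eq_iff_eq_mul]
  calc ze * g * (zd * (P * S)) = ze * (g * zd) * P * S := by simp only [mul_assoc]
    _ = ze * (zd * g) * P * S := by rw [cd g]
    _ = (ze * zd) * (g * P) * S := by simp only [mul_assoc]
    _ = (zd * ze) * (zm * (P * g)) * S := by rw [h, cd ze]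
    _ = zd * (ze * zm * (P * (S * S⁻¹) * g)) * S := by
      rw [mul_inv_cancel, mul_one]
      simp only [mul_assoc]
    _ = zd * ((ze * zm) * (P * S)) * (S⁻¹ * g * S) := by simp only [mul_assoc]
    _ = zd * ((P * S) * (ze * zm)) * (S⁻¹ * g * S) := by rw [hzz]
    _ = zd * (P * S) * (ze * zm * (S⁻¹ * g * S)) := by simp only [mul_assoc]

theorem loc0 [NeZero p] (hp : p.Prime) (hζ : IsPrimitiveRoot ζ p) {c : Gal(Ω/K) →* R}
    (hc : X.IsC c) {η : Q → Fin w → ZMod p} (hη : Ea Gm.M η) {g : Finset X.Lb} (hg : X.Ok g)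
    (φ : Gal(Ω/K) →* G) {v : Pl K} (hv : v ∉ X.D.S0) (hvg : ∀ a ∈ g, X.un a ≠ v)
    {ε : Fin w → ZMod p} (hε : φ (X.L.t v) = Gm.z ε) :
    om1 Gm X c η (so X g) φ (X.Fr.F v) (X.L.t v) - om1 Gm X c η (so X g) φ (X.L.t v) (X.Fr.F v) =
      dt (η (X.φQ (X.Fr.F v))) ε := by
  have hm : ∀ b ∈ g, mm X b (X.L.t v) = 0 := fun b hb =>
    lc_0 X hp hζ (hg.1 b hb) hv (hvg b hb)
  have hb0 : ∀ b ∈ g, X.bt b (X.L.t v) = 0 := fun b hb =>
    lo_b0 X hp hζ (hg.1 b hb) hv (hvg b hb)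
  have h1 : nf Gm (so X g) (fun b => X.bt b (X.L.t v)) (c (X.L.t v)) = 1 := by
    unfold nf
    rw [hc.ur _ hv _ (lo_inr X hv), sec_one, mul_one]
    refine List.prod_eq_one fun y hy => ?_
    obtain ⟨b, hb, rfl⟩ := List.mem_map.1 hy
    change Gm.sec (Gm.M.e (X.bt b (X.L.t v))) = 1
    rw [hb0 b ((so_mem X g b).1 hb), gm_e0, sec_one]
  have h2 : ff Gm X c (so X g) φ (X.L.t v) = ε := by
    unfold ff
    rw [h1, inv_one, mul_one, hε, zz_z]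
  have h3 : ps (so X g) (fun a b => Lm Gm.M η (mm X b (X.Fr.F v))
      (Gm.M.act (X.φQ (X.Fr.F v)) (X.bt a (X.L.t v)))) = 0 := by
    rw [so_ps]
    refine Finset.sum_eq_zero fun a ha => Finset.sum_eq_zero fun b _ => ?_
    rw [hb0 a ha, map_zero, map_zero, ite_self]
  have h4 : ps (so X g) (fun a b => Lm Gm.M η (mm X b (X.L.t v))
      (Gm.M.act (X.φQ (X.L.t v)) (X.bt a (X.Fr.F v)))) = 0 := by
    rw [so_ps]
    refine Finset.sum_eq_zero fun a _ => Finset.sum_eq_zero fun b hb => ?_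
    rw [hm b hb, map_zero, LinearMap.zero_apply, ite_self]
  unfold om1
  rw [h3, h4, h2, lc_q X hv, hη.one, dt_lzero, add_zero, add_zero, sub_zero]

theorem loc_ff [Finite G] [NeZero p] (hp : p.Prime) (hζ : IsPrimitiveRoot ζ p) (hz : Z2 p K)
    {c : Gal(Ω/K) →* R} (hc : X.IsC c) {η : Q → Fin w → ZMod p} (hη : Ea Gm.M η)
    {g : Finset X.Lb} (hg : X.Ok g) {φ : Gal(Ω/K) →* G} (hft : H38.ML.FT φ)
    (hpr : ∀ σ, Gm.pr (φ σ) = rh X c g σ) {a : X.Lb} (ha : a ∈ g)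
    (hpw : ∀ τ ∈ inr X.L (X.un a), φ τ ^ p = 1) {ε : Fin w → ZMod p}
    (hε : φ (X.t a) = Gm.z ε * Gm.g a.1) :
    dt (η (X.φQ (X.Fr.F (X.un a)))) (ff Gm X c (so X g) φ (X.L.t (X.un a))) =
      dt (η (X.φQ (X.Fr.F (X.un a)))) ε + dt (η (X.φQ (X.Fr.F (X.un a))))
        (zz Gm ((Gm.sec (c (ga X a)))⁻¹ * Gm.g a.1 * Gm.sec (c (ga X a)) *
          (Gm.sec (Gm.M.e (X.bt a (X.L.t (X.un a)))))⁻¹)) := by
  have : Finite R := Finite.of_surjective Gm.pr Gm.prs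
  have hGd : X.Gd a := hg.1 a ha
  have hv : X.un a ∉ X.D.S0 := un_not X hGd.1
  have h1 : φ (X.t a) = φ (ga X a) * φ (X.L.t (X.un a)) * (φ (ga X a))⁻¹ :=
    lbl_t X hp hζ hGd hv rfl (ga_cn X hGd) φ hft hpw
  have h2 : Gm.pr (φ (ga X a)) =
      Gm.pr (Gm.sec (Gm.M.e (X.bet g (ga X a))) * Gm.sec (c (ga X a))) := by
    rw [hpr, rh_tw Gm X hp hζ hc g (ga X a), map_mul, Gm.sec_pr, Gm.sec_pr]
  obtain ⟨d, hd⟩ := gm_fib Gm h2
  have hy := lo_y X hp hζ hGd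
  have hcy : Gm.M.e (Gm.M.y a.1) =
      c (ga X a) * Gm.M.e (X.bt a (X.L.t (X.un a))) * (c (ga X a))⁻¹ := by
    rw [Gm.M.conj, hc.pi, hy]
  have hcm : Gm.g a.1 * Gm.sec (Gm.M.e (X.bet g (ga X a))) =
      Gm.z (Gm.M.om (Gm.M.y a.1) (X.bet g (ga X a))) *
        (Gm.sec (Gm.M.e (X.bet g (ga X a))) * Gm.g a.1) := by
    have h3 : Gm.pr (Gm.g a.1) * Gm.pr (Gm.sec (Gm.M.e (X.bet g (ga X a)))) =
        Gm.pr (Gm.sec (Gm.M.e (X.bet g (ga X a)))) * Gm.pr (Gm.g a.1) := by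
      rw [Gm.gy, Gm.sec_pr, ← Gm.M.eadd, ← Gm.M.eadd, add_comm]
    have h4 := gm_comm Gm h3
    rw [Gm.gy, Gm.sec_pr] at h4
    have h5 : (fun k => iv (Gm.M.c k) (Gm.M.e (Gm.M.y a.1)) (Gm.M.e (X.bet g (ga X a)))) =
        Gm.M.om (Gm.M.y a.1) (X.bet g (ga X a)) := by
      funext k
      exact Gm.M.iv_om k _ _
    rw [h5] at h4
    exact h4
  obtain ⟨x, hx⟩ := (Gm.zker ((Gm.sec (c (ga X a)))⁻¹ * Gm.g a.1 * Gm.sec (c (ga X a)) *
      (Gm.sec (Gm.M.e (X.bt a (X.L.t (X.un a)))))⁻¹)).1 (by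
    rw [map_mul, map_mul, map_mul, map_inv, map_inv, Gm.sec_pr, Gm.sec_pr, Gm.gy, hcy]
    group)
  have h6 : φ (X.L.t (X.un a)) = (φ (ga X a))⁻¹ * (Gm.z ε * Gm.g a.1) * φ (ga X a) := by
    rw [← hε, h1]
    group
  have h7 : φ (X.L.t (X.un a)) =
      Gm.z ε * Gm.z (Gm.M.om (Gm.M.y a.1) (X.bet g (ga X a))) *
        ((Gm.sec (c (ga X a)))⁻¹ * Gm.g a.1 * Gm.sec (c (ga X a))) := by
    rw [h6, hd]
    exact lo_grp (Gm.zcen d) (Gm.zcen ε) (Gm.zcen _) hcm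
  have h8 : ff Gm X c (so X g) φ (X.L.t (X.un a)) =
      ε + Gm.M.om (Gm.M.y a.1) (X.bet g (ga X a)) + x := by
    unfold ff
    rw [lo_nf Gm X hp hζ hc hg ha, h7, mul_assoc, ← hx, ← Gm.zadd, ← Gm.zadd, zz_z]
  have h9 : dt (η (X.φQ (X.Fr.F (X.un a)))) (Gm.M.om (Gm.M.y a.1) (X.bet g (ga X a))) = 0 := by
    rw [lo_eta X hp hζ hz hη hGd]
    exact hη.van a.1 _ (fld_phi X a.1 _) _
  rw [h8, dt_add', dt_add', h9, add_zero, ← hx, zz_z]

theorem loc_c [Finite G] (hp : p.Prime) (hζ : IsPrimitiveRoot ζ p) (hz : Z2 p K)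
    {c : Gal(Ω/K) →* R} (hc : X.IsC c) {g : Finset X.Lb} (hg : X.Ok g) {φ : Gal(Ω/K) →* G}
    (hft : H38.ML.FT φ) (hpr : ∀ σ, Gm.pr (φ σ) = rh X c g σ) {a : X.Lb} (ha : a ∈ g)
    (hpw : ∀ τ ∈ inr X.L (X.un a), φ τ ^ p = 1) :
    Gm.M.om (X.bet g (X.Fr.F (X.un a))) (X.bt a (X.L.t (X.un a))) +
      (fun k => iv (Gm.M.c k) (c (X.Fr.F (X.un a))) (Gm.M.e (X.bt a (X.L.t (X.un a))))) = 0 := by
  have : Finite R := Finite.of_surjective Gm.pr Gm.prs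
  have hGd : X.Gd a := hg.1 a ha
  have hv : X.un a ∉ X.D.S0 := un_not X hGd.1
  have hcom := X.Fr.com _ hv G φ hft hpw
  have h1 : Gm.pr (φ (X.Fr.F (X.un a))) * Gm.pr (φ (X.L.t (X.un a))) =
      Gm.pr (φ (X.L.t (X.un a))) * Gm.pr (φ (X.Fr.F (X.un a))) := by
    rw [← map_mul Gm.pr, hcom, map_mul Gm.pr]
  have h2 := gm_comm Gm h1
  rw [hcom] at h2
  have h3 := Gm.zinj ((gm_z0 Gm).trans (right_eq_mul.1 h2).symm)
  have h4 : Gm.pr (φ (X.Fr.F (X.un a))) =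
      Gm.M.e (X.bet g (X.Fr.F (X.un a))) * c (X.Fr.F (X.un a)) := by
    rw [hpr, rh_tw Gm X hp hζ hc g (X.Fr.F (X.un a))]
  have h5 : Gm.pr (φ (X.L.t (X.un a))) = Gm.M.e (X.bt a (X.L.t (X.un a))) := by
    rw [hpr, rh_tw Gm X hp hζ hc g (X.L.t (X.un a)), hc.ur _ hv _ (lo_inr X hv), mul_one,
      lo_bet X ha fun b hb hba => lo_b0 X hp hζ (hg.1 b hb) hv (hg.2 b hb a ha hba)]
  have h6 : Gm.M.e (X.bet g (X.Fr.F (X.un a))) * Gm.M.e (X.bt a (X.L.t (X.un a))) =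
      Gm.M.e (X.bt a (X.L.t (X.un a))) * Gm.M.e (X.bet g (X.Fr.F (X.un a))) := by
    rw [← Gm.M.eadd, ← Gm.M.eadd, add_comm]
  have h7 : c (X.Fr.F (X.un a)) * Gm.M.e (X.bt a (X.L.t (X.un a))) =
      Gm.M.e (X.bt a (X.L.t (X.un a))) * c (X.Fr.F (X.un a)) := by
    rw [← mul_inv_eq_iff_eq_mul, Gm.M.conj, hc.pi, lo_F X hp hζ hz hGd]
  rw [h4, h5] at h3
  funext k
  have h8 := congrFun h3 k
  change (0 : ZMod p) = iv (Gm.M.c k) (Gm.M.e (X.bet g (X.Fr.F (X.un a))) *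
    c (X.Fr.F (X.un a))) (Gm.M.e (X.bt a (X.L.t (X.un a)))) at h8
  rw [iv_mul_left (Gm.M.coc k) h6 h7, Gm.M.iv_om] at h8
  exact h8.symm

theorem loc1 [Finite G] [NeZero p] (hp : p.Prime) (hζ : IsPrimitiveRoot ζ p) (hz : Z2 p K)
    {c : Gal(Ω/K) →* R} (hc : X.IsC c) {η : Q → Fin w → ZMod p} (hη : Ea Gm.M η)
    {g : Finset X.Lb} (hg : X.Ok g) {φ : Gal(Ω/K) →* G} (hft : H38.ML.FT φ)
    (hpr : ∀ σ, Gm.pr (φ σ) = rh X c g σ) {a : X.Lb} (ha : a ∈ g)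
    (hpw : ∀ τ ∈ inr X.L (X.un a), φ τ ^ p = 1) {ε : Fin w → ZMod p}
    (hε : φ (X.t a) = Gm.z ε * Gm.g a.1) :
    om1 Gm X c η (so X g) φ (X.Fr.F (X.un a)) (X.L.t (X.un a)) -
      om1 Gm X c η (so X g) φ (X.L.t (X.un a)) (X.Fr.F (X.un a)) =
      dt (η (X.φQ (X.Fr.F (X.un a)))) ε + (∑ b ∈ g, if olt X a b then Pb X η b a else 0) +
        sl Gm X c η a := by
  have hGd : X.Gd a := hg.1 a ha
  have hv : X.un a ∉ X.D.S0 := un_not X hGd.1
  have hm : ∀ b ∈ g, b ≠ a → mm X b (X.L.t (X.un a)) = 0 := fun b hb hba =>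
    lc_0 X hp hζ (hg.1 b hb) hv (hg.2 b hb a ha hba)
  have hb0 : ∀ b ∈ g, b ≠ a → X.bt b (X.L.t (X.un a)) = 0 := fun b hb hba =>
    lo_b0 X hp hζ (hg.1 b hb) hv (hg.2 b hb a ha hba)
  have h1 : ps (so X g) (fun x b => Lm Gm.M η (mm X b (X.Fr.F (X.un a)))
      (Gm.M.act (X.φQ (X.Fr.F (X.un a))) (X.bt x (X.L.t (X.un a))))) =
      ∑ b ∈ g, if olt X a b then Lm Gm.M η (mm X b (X.Fr.F (X.un a)))
        (X.bt a (X.L.t (X.un a))) else 0 := by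
    rw [so_ps, Finset.sum_eq_single a (fun x hx hxa => Finset.sum_eq_zero fun b _ => by
      rw [hb0 x hx hxa, map_zero, map_zero, ite_self]) fun h => absurd ha h,
      lo_F X hp hζ hz hGd]
  have h2 : ps (so X g) (fun x b => Lm Gm.M η (mm X b (X.L.t (X.un a)))
      (Gm.M.act (X.φQ (X.L.t (X.un a))) (X.bt x (X.Fr.F (X.un a))))) =
      ∑ b ∈ g, if olt X b a then Lm Gm.M η (mm X a (X.L.t (X.un a)))
        (X.bt b (X.Fr.F (X.un a))) else 0 := by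
    rw [so_ps]
    refine Finset.sum_congr rfl fun x _ => ?_
    rw [Finset.sum_eq_single a (fun b hb hba => by
      rw [hm b hb hba, map_zero, LinearMap.zero_apply, ite_self]) fun h => absurd ha h,
      lc_q X hv, Gm.M.act_one]
  have h3 : ∀ b ∈ g, (if olt X a b then Lm Gm.M η (mm X b (X.Fr.F (X.un a)))
      (X.bt a (X.L.t (X.un a))) else 0) = (if olt X b a then Lm Gm.M η (mm X a (X.L.t (X.un a)))
        (X.bt b (X.Fr.F (X.un a))) else 0) + ((if olt X a b then Pb X η b a else 0) -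
      (if b = a then 0 else dt (η (X.φQ (ga X a)))
        (Gm.M.om (X.bt b (X.Fr.F (X.un a))) (X.bt a (X.L.t (X.un a)))))) := by
    intro b hb
    by_cases hba : b = a
    · subst hba
      have h4 : ¬ olt X b b := fun h => olt_asym X b b h h
      rw [if_neg h4, if_neg h4, if_neg h4, if_pos rfl, sub_zero, add_zero]
    · rw [if_neg hba]
      rcases olt_tri X b a hba with h | h
      · rw [if_neg (olt_asym X b a h), if_pos h, if_neg (olt_asym X b a h), lc_Q X hp hζ hη hGd,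
          om_neg Gm.M (X.bt a (X.L.t (X.un a))), dt_neg']
        ring
      · rw [if_pos h, if_neg (olt_asym X a b h), if_pos h,
          lc_P X hp hζ hz hη hGd (hg.1 b hb) (hg.2 b hb a ha hba)]
        ring
  have h4 : ∑ b ∈ g, (if b = a then 0 else dt (η (X.φQ (ga X a)))
      (Gm.M.om (X.bt b (X.Fr.F (X.un a))) (X.bt a (X.L.t (X.un a))))) =
      dt (η (X.φQ (ga X a))) (Gm.M.om (X.bet g (X.Fr.F (X.un a))) (X.bt a (X.L.t (X.un a)))) -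
      dt (η (X.φQ (ga X a))) (Gm.M.om (X.bt a (X.Fr.F (X.un a))) (X.bt a (X.L.t (X.un a)))) := by
    have h5 : dt (η (X.φQ (ga X a))) (Gm.M.om (X.bet g (X.Fr.F (X.un a)))
        (X.bt a (X.L.t (X.un a)))) = ∑ b ∈ g, dt (η (X.φQ (ga X a)))
        (Gm.M.om (X.bt b (X.Fr.F (X.un a))) (X.bt a (X.L.t (X.un a)))) := by
      unfold AD.bet
      rw [map_sum, LinearMap.sum_apply, dt_sum']
    rw [h5, ← Finset.add_sum_erase g (fun b => dt (η (X.φQ (ga X a)))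
      (Gm.M.om (X.bt b (X.Fr.F (X.un a))) (X.bt a (X.L.t (X.un a))))) ha, add_sub_cancel_left,
      ← Finset.add_sum_erase g (fun b => if b = a then 0 else dt (η (X.φQ (ga X a)))
      (Gm.M.om (X.bt b (X.Fr.F (X.un a))) (X.bt a (X.L.t (X.un a))))) ha]
    rw [if_pos rfl, zero_add]
    exact Finset.sum_congr rfl fun b hb => if_neg (Finset.ne_of_mem_erase hb)
  have h6 := congrArg (dt (η (X.φQ (ga X a)))) (loc_c Gm X hp hζ hz hc hg hft hpr ha hpw)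
  rw [dt_add', dt_zero'] at h6
  unfold om1 sl
  rw [h1, h2, Finset.sum_congr rfl h3, Finset.sum_add_distrib, Finset.sum_sub_distrib, h4,
    lc_q X hv, hη.one, dt_lzero, loc_ff Gm X hp hζ hz hc hη hg hft hpr ha hpw hε, dt_add']
  linear_combination -h6

end H51.MT
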