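import Pool.Agent.H51.MT.Blx
import Pool.Agent.H51.MT.Lfs
import Pool.Agent.H51.MS.Nal
import Pool.Agent.H48.MG.Aoe
import Pool.Agent.H48.MG.Phe
import Pool.Agent.H48.MF.Anx
import Pool.Agent.H1.AR.Sty

/-!
# H51/MT: generic, not aligned `κ`: no contribution (MP_b39724_nt, stage 2 of theorem (M))

For `κ` generic the phase is `-Oe X η ε` for any adapted lift (`aoe`), by the structure theorem `stm` it is a function of the profile plus a sum over the labels minus the phases of the pairs: `nal`.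
-/

set_option autoImplicit false
set_option linter.dupNamespace false

open scoped NumberField Pointwise
open IsDedekindDomain NumberField Filter Topology
open scoped Classical

noncomputable section

namespace H51.MT

open H63.MA H38.BB H38.BG H57.PC H57.BRA H89.BRG H1.AR H48.MF H48.MG

variable {p u w N : ℕ} {G R Q : Type} [Group G] [Group R] [Group Q] [Finite G] [Finite R]
  [Fintype Q] (Gm : GM p u w N G R Q) {K : Type} [Field K] [NumberField K] {Ω : Type} [Field Ω]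
  [Algebra K Ω] [IsAlgClosure K Ω] {ζ : K} (X : AD Gm.M K Ω ζ) (φ₁ : Gal(Ω/K) →* G)
  [Fintype (Co X)] {d : ℕ} {D qq : ℝ}

omit [Fintype (Co X)] in
/-- the phase of a generic `κ` does not depend on the adapted lift -/
theorem nax_ind [NeZero p] (hp : p.Prime) (hp2 : MOne p K) (hζ : IsPrimitiveRoot ζ p) (hz : Z2 p K)
    (D' : RM K p ζ) (hS : D'.S = X.D.S0) (hφ₁ : H38.ML.FT φ₁)
    {κ : Fin D'.r → Fin w → ZMod p} (hκ : κ ∈ TP Gm X D' φ₁) (hG : ∀ j, Gnk Gm X D' κ j)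
    {η : Q → Fin w → ZMod p}
    (hv : ∀ v, X.D.Gd v → ∀ k, η (X.φQ (X.Fr.F v)) k = ∑ i, κ i k * D'.q v i)
    {c : Gal(Ω/K) →* R} (hc : X.IsC c) {g : Finset X.Lb} (hg : X.Ok g)
    {φ φ' : Gal(Ω/K) →* G} {ε ε' : Pl K → Fin w → ZMod p}
    (h : AL Gm X φ₁ c g φ ε) (h' : AL Gm X φ₁ c g φ' ε') : Oe X η ε = Oe X η ε' := by
  have hcv : Cv X.D.S0 X.P Gm.M (rh X c g) (Gm.pr.comp φ₁) := by
    have h1 := cq_cv Gm h.cq
    have h2 : Gm.pr.comp φ = rh X c g := by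
      ext σ
      exact h.pr σ
    rw [h2] at h1
    exact h1
  obtain ⟨z, hz'⟩ := dl_ex Gm X φ₁ hp hp2 hζ hz hφ₁ hc hg (al_ev Gm X hp hζ hc hg h) hcv
  have hk : Kc Gm X D' κ g := fun a ha d hd => hG a.1 a.2 (hg.1 a ha) d hd
  rw [aoe1 Gm X D' hv h.fi h.e0, aoe1 Gm X D' hv h'.fi h'.e0,
    aoe0 Gm X φ₁ hp hζ D' hS hκ hc hg hk hz' h, aoe0 Gm X φ₁ hp hζ D' hS hκ hc hg hk hz' h']

theorem nax (hI : FI X d D qq) (hN : 1 ≤ N) (D' : RM K p ζ) (hS : D'.S = X.D.S0)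
    (hφ₁ : H38.ML.FT φ₁) {κ : Fin D'.r → Fin w → ZMod p} (hκ : κ ∈ TP Gm X D' φ₁)
    (hG : ∀ j, Gnk Gm X D' κ j) {η : Q → Fin w → ZMod p} (hη : Gnr Gm η)
    (hv : ∀ v, X.D.Gd v → ∀ k, η (X.φQ (X.Fr.F v)) k = ∑ i, κ i k * D'.q v i)
    (hna : ¬ Algd Gm η) :
    Tendsto (fun Y : ℝ => WS Gm X (phz Gm X D' φ₁ κ) Y /
      ((Y * Real.log Y ^ (N - 1) : ℝ) : ℂ)) atTop (𝓝 0) := by
  haveI : NeZero p := ⟨hI.hp.ne_zero⟩
  have hp := hI.hp
  have hp2 := hI.hp2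
  have hζ := hI.hζ
  have hz := hI.hz
  obtain ⟨B, O, m, hm, hlk, hst⟩ := stm Gm X hI hη hφ₁
  have hc := fun c : Co X => hst c fun g hg φ φ' ε ε' h h' =>
    nax_ind Gm X φ₁ hp hp2 hζ hz D' hS hφ₁ hκ hG hv c.2 hg h h'
  choose Fc s hFs using hc
  have hal : ¬ B.Al := by
    rintro ⟨f, -, hf⟩
    refine hna ⟨f, fun i j q => ?_⟩
    have h1 := hf i j
    rw [hlk] at h1
    push Not at h1
    exact h1 q
  obtain ⟨H, hH⟩ : ∃ H : Co X → ((Σ j : Fin N, Fin (X.A j).D.r) → ZMod p) → (B.St → ZMod m) → ℂ,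
      ∀ c x y, H c x y = if ∃ g', X.Ok g' ∧ (frm X hI).tot g' = x ∧
        Cv X.D.S0 X.P Gm.M (rh X c.1 g') (Gm.pr.comp φ₁) then ep p (-(Fc c y)) else 0 :=
    ⟨_, fun _ _ _ => rfl⟩
  have hcase : ∀ (c : Co X) (g : Finset X.Lb), X.Ok g → (frm X hI).wt c g ≠ 0 →
      phz Gm X D' φ₁ κ c.1 g = H c ((frm X hI).tot g) (H51.MS.prf B m g) *
        ep p ((show ZMod p from H51.MS.pph B O g) + ∑ a ∈ g, -(s c a)) := by
    intro c g hg' hw
    have hev : ∀ a ∈ g, X.ev (rh X c.1 g) a = 0 := by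
      by_contra hne
      apply hw
      have h1 : (frm X hI).wt c g = wz Gm X c.1 g := anx_wt Gm X hp hζ c hg'
      have h2 : wz Gm X c.1 g = 0 := if_neg hne
      exact h1.trans h2
    by_cases hcv : Cv X.D.S0 X.P Gm.M (rh X c.1 g) (Gm.pr.comp φ₁)
    · have h0 : H c ((frm X hI).tot g) (H51.MS.prf B m g) = ep p (-(Fc c (H51.MS.prf B m g))) := by
        rw [hH, if_pos ⟨g, hg', rfl, hcv⟩]
      obtain ⟨z, hz'⟩ := dl_ex Gm X φ₁ hp hp2 hζ hz hφ₁ c.2 hg' hev hcv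
      obtain ⟨φ, ε, hA⟩ := lfu Gm X hp hp2 hζ hz c.2 hg' hev hφ₁ hcv
      rw [h0, aoe Gm X φ₁ hp hζ D' hS hκ hG hv c.2 hg' hz' hA, hFs c g hg' φ ε hA, ← ep_add hp,
        Finset.sum_neg_distrib]
      congr 1
      ring
    · have h0 : H c ((frm X hI).tot g) (H51.MS.prf B m g) = 0 := by
        rw [hH, if_neg]
        rintro ⟨g', hg1, hq, hcv'⟩
        refine hcv (cv_trans Gm (cv_symm Gm ?_) hcv')
        intro v hv'
        exact sty X hp hp2 hζ c.2 hg1 hg' (frm_tot X hp hq) (rh_tw Gm X hp hζ c.2 g')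
          (rh_tw Gm X hp hζ c.2 g) v hv'
      rw [h0, zero_mul]
      unfold phz
      rw [dif_neg]
      rintro ⟨-, -, z, hz'⟩
      exact hcv (dl_ev Gm X φ₁ hp hζ c.2 hg' hz').2
  have key := H51.MS.nal (frm X hI) B hal O hN (cl_univ Gm.M hp) m (fun c a => -(s c a)) H
    (fun c x y => by
      rw [hH]
      split_ifs
      · exact (ep_norm p _).le
      · rw [norm_zero]
        exact zero_le_one)
    (fun c g => phz Gm X D' φ₁ κ c.1 g) (fun c g => phz_le Gm X φ₁ D' κ c.1 g)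
    (fun c g hg hw => hcase c g ((frm_ok X hp g).1 hg) hw)
  refine key.congr fun Y => ?_
  rw [ws_fs Gm X (d := d) (D := D) (qq := qq) hp hζ]
  rfl

end H51.MT
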