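import Mathlib

set_option autoImplicit false

namespace Pool.Agent.H51.MT

/-- the determinant after the two divisions -/
theorem det_id {S : Type} [CommRing S] (U V : Fin 4 → S) (h1 h2 h3 k2 k3 : S)
    (e1 : U 1 = U 0 + (V 1 - V 0) * h1) (e2 : U 2 = U 0 + (V 2 - V 0) * h2) (e3 : U 3 = U 0 + (V 3 - V 0) * h3)
    (f2 : h2 = h1 + (V 2 - V 1) * k2) (f3 : h3 = h1 + (V 3 - V 1) * k3) :
    Matrix.det (Matrix.of fun i : Fin 4 => ![U i * V i, U i, V i, 1]) =
      -((V 1 - V 0) * (V 2 - V 0) * (V 3 - V 0) * (V 2 - V 1) * (V 3 - V 1) *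
        (h1 * (k3 - k2) + (V 2 - V 3) * k2 * k3)) := by
  rw [Matrix.det_succ_row_zero]
  simp only [Fin.sum_univ_succ, Matrix.det_fin_three, Matrix.submatrix_apply, Matrix.of_apply]
  simp [Fin.succAbove]
  rw [e1, e2, e3, f2, f3]
  ring

theorem ring_det {S : Type} [CommRing S] (p : S) (hp : p ^ 6 = 0) (h2 : IsUnit (2 : S))
    (U V : Fin 4 → S) (A B A' B' : S) (hU : ∀ i, IsUnit (U i))
    (hD : ∀ i, IsUnit (A * V i ^ 4 + B))
    (hrel : ∀ i, U i ^ 4 * (A * V i ^ 4 + B) = A' + B' * V i ^ 4)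
    (hUc : ∀ i j, p ∣ U i - U j) (hVc : ∀ i j, p ∣ V i - V j) :
    Matrix.det (Matrix.of fun i : Fin 4 => ![U i * V i, U i, V i, 1]) = 0 := by
  -- inverses
  choose d hd using fun i => (hD i).exists_right_inv
  have hs : ∀ i j, IsUnit (U i ^ 3 + U i ^ 2 * U j + U i * U j ^ 2 + U j ^ 3) := by
    intro i j
    obtain ⟨x, hx⟩ := hUc i j
    have h3 : U i ^ 3 + U i ^ 2 * U j + U i * U j ^ 2 + U j ^ 3 =
        2 * 2 * U j ^ 3 + p * (x * (U i ^ 2 + 2 * U i * U j + 3 * U j ^ 2)) := by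
      linear_combination (U i ^ 2 + 2 * U i * U j + 3 * U j ^ 2) * hx
    rw [h3]
    apply IsNilpotent.isUnit_add_left_of_commute
    · exact ⟨6, by rw [mul_pow, hp, zero_mul]⟩
    · exact (h2.mul h2).mul ((hU j).pow 3)
    · exact Commute.all _ _
  choose s hs' using fun i j => (hs i j).exists_right_inv
  -- first and second differences
  obtain ⟨c, hc⟩ : ∃ c, c = B * B' - A * A' := ⟨_, rfl⟩
  obtain ⟨t, ht⟩ : ∃ t : Fin 4 → Fin 4 → S, ∀ i j, t i j = V i ^ 3 + V i ^ 2 * V j + V i * V j ^ 2 + V j ^ 3 :=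
    ⟨_, fun _ _ => rfl⟩
  obtain ⟨h, hh⟩ : ∃ h : Fin 4 → Fin 4 → S, ∀ i j, h i j = c * t i j * d i * d j * s i j := ⟨_, fun _ _ => rfl⟩
  have hfirst : ∀ i j, U i - U j = (V i - V j) * h i j := by
    intro i j
    have h5 : U i ^ 4 = (A' + B' * V i ^ 4) * d i := by
      linear_combination (d i) * hrel i - (U i ^ 4) * hd i
    have h6 : U j ^ 4 = (A' + B' * V j ^ 4) * d j := by
      linear_combination (d j) * hrel j - (U j ^ 4) * hd j
    have h7 : (U i - U j) * (U i ^ 3 + U i ^ 2 * U j + U i * U j ^ 2 + U j ^ 3) =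
        (V i - V j) * (c * t i j * d i * d j) := by
      have h8 : (U i - U j) * (U i ^ 3 + U i ^ 2 * U j + U i * U j ^ 2 + U j ^ 3) = U i ^ 4 - U j ^ 4 := by ring
      rw [h8, h5, h6, hc, ht]
      linear_combination (-(A' + B' * V i ^ 4) * d i) * hd j + ((A' + B' * V j ^ 4) * d j) * hd i
    rw [hh]
    linear_combination (s i j) * h7 - (U i - U j) * hs' i j
  -- second differences with first index 0 and second index 1
  obtain ⟨k, hk⟩ : ∃ k : Fin 4 → S, ∀ j, k j = c * d 0 * ((V 0 ^ 2 + V 0 * (V j + V 1) + (V j ^ 2 + V j * V 1 + V 1 ^ 2)) *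
      d j * s 0 j - t 0 1 * d j * d 1 * A * t j 1 * s 0 j - t 0 1 * d 1 * s 0 j * s 0 1 * h j 1 *
      (U 0 ^ 2 + U 0 * (U j + U 1) + (U j ^ 2 + U j * U 1 + U 1 ^ 2))) := ⟨_, fun _ => rfl⟩
  have hsecond : ∀ j, h 0 j - h 0 1 = (V j - V 1) * k j := by
    intro j
    have h5 : d j - d 1 = -(d j * d 1 * A * (V j - V 1) * t j 1) := by
      rw [ht]
      linear_combination (d 1) * hd j - (d j) * hd 1
    have h6 : s 0 j - s 0 1 = -(s 0 j * s 0 1 * (V j - V 1) * h j 1 *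
        (U 0 ^ 2 + U 0 * (U j + U 1) + (U j ^ 2 + U j * U 1 + U 1 ^ 2))) := by
      linear_combination (s 0 1) * hs' 0 j - (s 0 j) * hs' 0 1 - (s 0 j * s 0 1 *
        (U 0 ^ 2 + U 0 * (U j + U 1) + (U j ^ 2 + U j * U 1 + U 1 ^ 2))) * hfirst j 1
    have h7 : t 0 j - t 0 1 = (V j - V 1) * (V 0 ^ 2 + V 0 * (V j + V 1) + (V j ^ 2 + V j * V 1 + V 1 ^ 2)) := by
      rw [ht, ht]
      ring
    rw [hh, hh, hk]
    linear_combination (c * d 0 * d j * s 0 j) * h7 + (c * d 0 * t 0 1 * s 0 j) * h5 + (c * d 0 * t 0 1 * d 1) * h6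
  -- everything modulo `p`
  have hkp : p ∣ k 3 - k 2 := by
    rw [← Ideal.mem_span_singleton, ← Ideal.Quotient.eq]
    obtain ⟨f, hf⟩ : ∃ f : S →+* S ⧸ Ideal.span {p}, f = Ideal.Quotient.mk (Ideal.span {p}) := ⟨_, rfl⟩
    have fU : ∀ i, f (U i) = f (U 1) := by
      intro i
      rw [hf, Ideal.Quotient.eq, Ideal.mem_span_singleton]
      exact hUc i 1
    have fV : ∀ i, f (V i) = f (V 1) := by
      intro i
      rw [hf, Ideal.Quotient.eq, Ideal.mem_span_singleton]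
      exact hVc i 1
    have fd : ∀ i, f (d i) = f (d 1) := by
      intro i
      have h5 := congrArg f (hd i)
      have h6 := congrArg f (hd 1)
      simp only [map_mul, map_add, map_pow, map_one] at h5 h6
      rw [fV i] at h5
      linear_combination (f (d 1)) * h5 - (f (d i)) * h6
    have fs : ∀ i j, f (s i j) = f (s 1 1) := by
      intro i j
      have h5 := congrArg f (hs' i j)
      have h6 := congrArg f (hs' 1 1)
      simp only [map_mul, map_add, map_pow, map_one] at h5 h6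
      rw [fU i, fU j] at h5
      linear_combination (f (s 1 1)) * h5 - (f (s i j)) * h6
    have ft : ∀ i j, f (t i j) = f (t 1 1) := by
      intro i j
      rw [ht, ht]
      simp only [map_mul, map_add, map_pow]
      rw [fV i, fV j]
    have fh : ∀ i j, f (h i j) = f (h 1 1) := by
      intro i j
      rw [hh, hh]
      simp only [map_mul]
      rw [fd i, fd j, fs i j, ft i j]
    rw [← hf, hk, hk]
    simp only [map_mul, map_add, map_pow, map_sub]
    rw [fV 3, fV 2, fU 3, fU 2, fd 3, fd 2, fs 0 3, fs 0 2, ft 3 1, ft 2 1, fh 3 1, fh 2 1]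
  obtain ⟨a, ha⟩ := hkp
  obtain ⟨v10, g10⟩ := hVc 1 0
  obtain ⟨v20, g20⟩ := hVc 2 0
  obtain ⟨v30, g30⟩ := hVc 3 0
  obtain ⟨v21, g21⟩ := hVc 2 1
  obtain ⟨v31, g31⟩ := hVc 3 1
  obtain ⟨v23, g23⟩ := hVc 2 3

  have f10 : U 1 = U 0 + (V 1 - V 0) * h 0 1 := by linear_combination -(hfirst 0 1)
  have f20 : U 2 = U 0 + (V 2 - V 0) * h 0 2 := by linear_combination -(hfirst 0 2)
  have f30 : U 3 = U 0 + (V 3 - V 0) * h 0 3 := by linear_combination -(hfirst 0 3)
  have s2 : h 0 2 = h 0 1 + (V 2 - V 1) * k 2 := by linear_combination hsecond 2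
  have s3 : h 0 3 = h 0 1 + (V 3 - V 1) * k 3 := by linear_combination hsecond 3
  rw [det_id U V (h 0 1) (h 0 2) (h 0 3) (k 2) (k 3) f10 f20 f30 s2 s3, g10, g20, g30, g21, g31, g23, ha]
  have h9 : -(p * v10 * (p * v20) * (p * v30) * (p * v21) * (p * v31) *
      (h 0 1 * (p * a) + p * v23 * k 2 * k 3)) =
      -(p ^ 6 * (v10 * v20 * v30 * v21 * v31 * (h 0 1 * a + v23 * k 2 * k 3))) := by ring
  rw [h9, hp, zero_mul, neg_zero]

end Pool.Agent.H51.MT
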