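import Pool.Agent.H51.MT.Unb
import Pool.Agent.H1.AR.ChE

/-!
# [H51 MT TBA] bilinear symbols as Kummer characters (80-120 lines)

`B` an invariant form on `V` (`Iv`), `h σ = ∑ b ∈ h, κ b * B (y i) (bt b σ)`.
* `tba`: copy of `chb_hom`, `chb_ex` (Pool/Agent/H1/AR/ChB.lean; its private lemmas on `Lev` must be copied): for `γ, δ ∈ Gal(Ω/F i)`: `bt b (γ δ) = bt b γ + act (φQ γ) (bt b δ)` (`(bt_cy X hp hζ b).co`), `φQ (rsK γ) ∈ H i` (`fld_phi`), and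
  `B (y i) (act q x) = B (act q (y i)) (act q x) = B (y i) x` for `q ∈ H i` (`Dg.fixy`, `hB`).
* `tba_ord`: copy of `chb_ord` (Pool/Agent/H1/AR/ChE.lean) without `φ`: `bt b = 0` on the inertia generator (`ine_bt`).
* `tba_val`: `chb_fr` (`X.fb ⟨i, z⟩ = rsK ((X.A i).Fr z)` by `rfl`).
-/

set_option autoImplicit false
set_option linter.dupNamespace false

open scoped NumberField Pointwise
open IsDedekindDomain NumberField
open scoped Classical

noncomputable section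

namespace H51.MT

open H63.MA H38.BB H38.BG H57.PC H57.BRA H89.BRG H1.AR

variable {p u w N : ℕ} {R Q : Type} [Group R] [Group Q]
variable [Fintype Q] {Dg : MG p u w N R Q} {K : Type} [Field K] [NumberField K] {Ω : Type}
  [Field Ω] [Algebra K Ω] [IsAlgClosure K Ω] {ζ : K} (X : AD Dg K Ω ζ)

section lev

variable {K' : Type} [Field K'] {Ω' : Type} [Field Ω'] [Algebra K' Ω']

private theorem lev_comp {X Y : Type} {f : Gal(Ω'/K') → X} (hf : Lev f) (F : X → Y) :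
    Lev (fun σ => F (f σ)) := by
  obtain ⟨E, hE, h⟩ := hf
  exact ⟨E, hE, fun σ u hu => congrArg F (h σ u hu)⟩

private theorem lev_add {f g : Gal(Ω'/K') → ZMod p} (hf : Lev f) (hg : Lev g) :
    Lev (fun σ => f σ + g σ) := by
  obtain ⟨E, hE, h⟩ := hf
  obtain ⟨E', hE', h'⟩ := hg
  refine ⟨E ⊔ E', IntermediateField.finiteDimensional_sup E E', fun σ u hu => ?_⟩
  have h1 : f (σ * u) = f σ := h σ u (IntermediateField.fixingSubgroup_antitone le_sup_left hu)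
  have h2 : g (σ * u) = g σ := h' σ u (IntermediateField.fixingSubgroup_antitone le_sup_right hu)
  show f (σ * u) + g (σ * u) = f σ + g σ
  rw [h1, h2]

private theorem lev_const {X : Type} (c : X) : Lev (fun _ : Gal(Ω'/K') => c) :=
  ⟨⊥, inferInstance, fun _ _ _ => rfl⟩

private theorem lev_sum {ι : Type} (s : Finset ι) (f : ι → Gal(Ω'/K') → ZMod p)
    (hf : ∀ i ∈ s, Lev (f i)) : Lev (fun σ => ∑ i ∈ s, f i σ) := by
  induction s using Finset.induction_on with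
  | empty =>
    simp only [Finset.sum_empty]
    exact lev_const 0
  | insert a s ha ih =>
    simp only [Finset.sum_insert ha]
    exact lev_add (hf a (Finset.mem_insert_self _ _)) (ih fun i hi => hf i (Finset.mem_insert_of_mem hi))

private theorem ft_lev {G : Type} [Group G] {φ : Gal(Ω'/K') →* G} (hφ : Lev (fun σ => φ σ)) :
    H38.ML.FT φ := by
  obtain ⟨E, hE, h⟩ := hφ
  refine ⟨E, hE, fun u hu => ?_⟩
  have h1 : φ (1 * u) = φ 1 := h 1 u hu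
  rw [one_mul, map_one] at h1
  exact h1

end lev

theorem tba (hp : p.Prime) (hζ : IsPrimitiveRoot ζ p)
    {B : (Fin u → ZMod p) →ₗ[ZMod p] (Fin u → ZMod p) →ₗ[ZMod p] ZMod p} (hB : Iv Dg B) (i : Fin N)
    (h : Finset X.Lb) (κ : X.Lb → ZMod p) :
    ∃ y : (X.F i)ˣ, ∀ γ : Gal(Ω/(X.F i)), kk p (algebraMap K (X.F i) ζ) y γ =
      ∑ b ∈ h, κ b * B (Dg.y i) (X.bt b (rsK K (X.F i) Ω γ)) := by
  have hclo : IsAlgClosure (X.F i) Ω := fld_clo X i
  obtain ⟨g, hg⟩ : ∃ g : Gal(Ω/K) → ZMod p, g = fun γ => ∑ b ∈ h, κ b * B (Dg.y i) (X.bt b γ) :=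
    ⟨_, rfl⟩
  have hlev : Lev g := by
    rw [hg]
    refine lev_sum h _ fun b _ => ?_
    exact lev_comp (bt_cy X hp hζ b).lev (fun z => κ b * B (Dg.y i) z)
  have hlev2 := bca_lev (K := K) (L := X.F i) (Ω := Ω) hlev
  have hmul : ∀ γ δ : Gal(Ω/(X.F i)), g (rsK K (X.F i) Ω (γ * δ)) =
      g (rsK K (X.F i) Ω γ) + g (rsK K (X.F i) Ω δ) := by
    intro γ δ
    have hγ := fld_phi X i γ
    rw [hg]
    change ∑ b ∈ h, κ b * B (Dg.y i) (X.bt b (rsK K (X.F i) Ω (γ * δ))) =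
      ∑ b ∈ h, κ b * B (Dg.y i) (X.bt b (rsK K (X.F i) Ω γ)) +
        ∑ b ∈ h, κ b * B (Dg.y i) (X.bt b (rsK K (X.F i) Ω δ))
    rw [map_mul, ← Finset.sum_add_distrib]
    refine Finset.sum_congr rfl fun b _ => ?_
    have h5 := hB (X.φQ (rsK K (X.F i) Ω γ)) (Dg.y i) (X.bt b (rsK K (X.F i) Ω δ))
    rw [Dg.fixy i _ hγ] at h5
    rw [(bt_cy X hp hζ b).co, map_add, h5, mul_add]
  obtain ⟨χ, hχ⟩ : ∃ χ : Gal(Ω/(X.F i)) →* Multiplicative (ZMod p), ∀ γ,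
      χ γ = Multiplicative.ofAdd (g (rsK K (X.F i) Ω γ)) := by
    refine ⟨MonoidHom.mk' (fun γ => Multiplicative.ofAdd (g (rsK K (X.F i) Ω γ))) ?_, fun γ => rfl⟩
    intro γ δ
    rw [hmul γ δ, ofAdd_add]
  have hft : H38.ML.FT χ := by
    apply ft_lev
    have h1 : (fun γ => χ γ) = fun γ => Multiplicative.ofAdd (g (rsK K (X.F i) Ω γ)) :=
      funext hχ
    rw [h1]
    exact lev_comp hlev2 Multiplicative.ofAdd
  obtain ⟨a, ha⟩ := kc_all (K := X.F i) (Ω := Ω) hp (fld_zeta X hζ i) χ hft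
  refine ⟨a, fun γ => ?_⟩
  unfold kk
  rw [← ha, hχ, hg]
  rfl

theorem tba_ord (hp : p.Prime) (hζ : IsPrimitiveRoot ζ p)
    {B : (Fin u → ZMod p) →ₗ[ZMod p] (Fin u → ZMod p) →ₗ[ZMod p] ZMod p} (i : Fin N)
    (h : Finset X.Lb) (hh : ∀ b ∈ h, X.Gd b) (κ : X.Lb → ZMod p) {y : (X.F i)ˣ}
    (hy : ∀ γ : Gal(Ω/(X.F i)), kk p (algebraMap K (X.F i) ζ) y γ =
      ∑ b ∈ h, κ b * B (Dg.y i) (X.bt b (rsK K (X.F i) Ω γ))) {z : Pl (X.F i)}
    (hz : z ∉ (X.A i).D.S) (hzh : ∀ b ∈ h, ¬ Over z (X.un b)) : ((ord z y : ℤ) : ZMod p) = 0 := by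
  have := fld_clo X i
  have hna : ¬ Above p z := fun h => hz ((X.A i).D.above z h)
  obtain ⟨v, hzv⟩ := exists_below (K := K) z
  have hv : v ∉ X.D.S0 := fun h => hz (((X.A i).hS z).2 ⟨v, h, hzv⟩)
  have hP := ((X.A i).ld z hz).prime
  have hPv : ((X.A i).ld z hz).P.under (𝓞 K) = v.asIdeal := bcp_under hzv ((X.A i).ld z hz).under
  have hin : rsK K (X.F i) Ω ((X.A i).ld z hz).t ∈ ((X.A i).ld z hz).P.inertia Gal(Ω/K) :=
    bcp_inertia ((X.A i).ld z hz).ht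
  have h1 := hy ((X.A i).ld z hz).t
  rw [ld_kk_t hp (fld_zeta X hζ i) hna ((X.A i).D.pi_self z hz)] at h1
  rw [h1]
  refine Finset.sum_eq_zero fun b hb => ?_
  rw [ine_bt X hp hζ hv (hh b hb).1 (fun h => hzh b hb (by rw [h]; exact hzv)) hP hPv hin, map_zero,
    mul_zero]

theorem tba_val (B : (Fin u → ZMod p) →ₗ[ZMod p] (Fin u → ZMod p) →ₗ[ZMod p] ZMod p) (i : Fin N)
    (h : Finset X.Lb) (κ : X.Lb → ZMod p) {y : (X.F i)ˣ}
    (hy : ∀ γ : Gal(Ω/(X.F i)), kk p (algebraMap K (X.F i) ζ) y γ =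
      ∑ b ∈ h, κ b * B (Dg.y i) (X.bt b (rsK K (X.F i) Ω γ))) {z : Pl (X.F i)}
    (hz : z ∉ (X.A i).D.S) : ∑ b ∈ h, κ b * tb X B ⟨i, z⟩ b =
      lgv p (algebraMap K (X.F i) ζ) z ((X.A i).D.pi z) y := by
  rw [← chb_fr X i y hz, hy ((X.A i).Fr z)]
  rfl

end H51.MT
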