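import Pool.Agent.H51.MT.Tba
import Pool.Agent.H1.AR.ChD

/-!
# [H51 MT TBB] bilinear symbols are ray class characters (40-70 lines)

Copy of the proof of `chd` (Pool/Agent/H1/AR/ChD.lean) with `tba`, `tba_ord`, `tba_val` (`κ = 1`) instead of `chc`, `chb_ord` (no `z`): `cha` with `B = (X.A i).D.S ∪ ovf (X.F i) (h.image X.un)`.
-/

set_option autoImplicit false
set_option linter.dupNamespace false

open scoped NumberField Pointwise
open IsDedekindDomain NumberField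
open scoped Classical

noncomputable section

namespace H51.MT

open H63.MA H38.BB H38.BG H57.PC H57.BRA H89.BRG H1.AR

variable {p u w N : ℕ} {R Q : Type} [Group R] [Group Q]
variable [Fintype Q] {Dg : MG p u w N R Q} {K : Type} [Field K] [NumberField K] {Ω : Type}
  [Field Ω] [Algebra K Ω] [IsAlgClosure K Ω] {ζ : K} (X : AD Dg K Ω ζ)

theorem tbb (hp : p.Prime) (hp2 : MOne p K) (hζ : IsPrimitiveRoot ζ p)
    {B : (Fin u → ZMod p) →ₗ[ZMod p] (Fin u → ZMod p) →ₗ[ZMod p] ZMod p} (hB : Iv Dg B) (i : Fin N)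
    (h : Finset X.Lb) (hh : ∀ b ∈ h, X.Gd b) (d : ℕ) (hd : Module.finrank K (X.F i) ≤ d) :
    ∃ (𝔣 : Ideal (𝓞 (X.F i))) (χ : RC (X.F i) 𝔣), 𝔣 ≠ ⊥ ∧
      Ideal.absNorm 𝔣 ≤ p ^ (3 * (d * Module.finrank ℚ K)) * (∏ v ∈ X.D.S0, nm v) ^ d *
        (∏ v ∈ h.image X.un, nm v) ^ d ∧
      ∀ x : Pl (X.F i), X.Gd ⟨i, x⟩ → X.un ⟨i, x⟩ ∉ h.image X.un →
        χ.χ x.asIdeal = ep p (∑ b ∈ h, tb X B ⟨i, x⟩ b) := by
  obtain ⟨y, hy⟩ := tba X hp hζ hB i h (fun _ => 1)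
  obtain ⟨χ, hχ⟩ := cha (L := X.F i) hp (fld_mone X hp2 i) (fld_zeta X hζ i)
    (B := (X.A i).D.S ∪ ovf (X.F i) (h.image X.un))
    (fun x hx => Finset.mem_union_left _ ((X.A i).D.above x hx)) (y := y) (fun x hx => by
      rw [Finset.mem_union, not_or, mem_ovf] at hx
      exact tba_ord X hp hζ i h hh (fun _ => 1) hy hx.1
        (fun b hb h1 => hx.2 ⟨X.un b, Finset.mem_image_of_mem _ hb, h1⟩))
  have hD : (X.A i).D.S = ovf (X.F i) X.D.S0 := by
    ext x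
    rw [mem_ovf]
    exact (X.A i).hS x
  have hn1 : ∀ T : Finset (Pl K), 1 ≤ ∏ v ∈ T, nm v := fun T =>
    Nat.one_le_iff_ne_zero.2 (Finset.prod_ne_zero_iff.2 fun v _ => by
      have := one_lt_nm v
      omega)
  have hn2 : ∀ T : Finset (Pl K), ∏ x ∈ ovf (X.F i) T, nm x ≤ (∏ v ∈ T, nm v) ^ d := fun T =>
    (ovf_nm (X.F i) T).trans (Nat.pow_le_pow_right (hn1 T) hd)
  refine ⟨_, χ, cha_ne hp _, ?_, fun x hx hxs => ?_⟩
  · rw [map_mul, map_pow, map_prod, Ideal.absNorm_span_natCast, ← pow_mul]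
    have h3 : Module.finrank ℤ (𝓞 (X.F i)) * 3 ≤ 3 * (d * Module.finrank ℚ K) := by
      rw [NumberField.RingOfIntegers.rank, ← Module.finrank_mul_finrank ℚ K (X.F i), mul_comm _ 3,
        mul_comm (Module.finrank ℚ K)]
      exact Nat.mul_le_mul_left _ (Nat.mul_le_mul_right _ hd)
    have h4 : ∏ x ∈ (X.A i).D.S ∪ ovf (X.F i) (h.image X.un), Ideal.absNorm x.asIdeal ≤
        (∏ x ∈ (X.A i).D.S, nm x) * ∏ x ∈ ovf (X.F i) (h.image X.un), nm x := by
      rw [← Finset.prod_union_inter]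
      refine Nat.le_mul_of_pos_right _ (Nat.pos_of_ne_zero (Finset.prod_ne_zero_iff.2 fun x _ => ?_))
      have := one_lt_nm x
      omega
    rw [mul_assoc]
    refine Nat.mul_le_mul (Nat.pow_le_pow_right hp.pos h3) (h4.trans ?_)
    rw [hD]
    exact Nat.mul_le_mul (hn2 _) (hn2 _)
  · have h5 := tba_val X B i h (fun _ => 1) hy (z := x) hx.1
    simp only [one_mul] at h5
    rw [h5]
    refine hχ x ?_ hx.2 _ ((X.A i).D.pi_self x hx.1)
    rw [Finset.mem_union, not_or, mem_ovf]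
    refine ⟨hx.1, ?_⟩
    rintro ⟨v, hv, hxv⟩
    rw [below_unique hxv (X.un_over ⟨i, x⟩)] at hv
    exact hxs hv

end H51.MT
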