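import Pool.Agent.H51.MT.Unb
import Pool.Agent.H51.MT.Brg
import Pool.Agent.H1.AR.Res
import Pool.Agent.H48.MF.Ing

/-!
# [H51 MT TBD] the cochain `B (bt a σ, σ bt b τ)`: local values (100-150 lines)

`Eb X B a b σ τ = B (bt a σ) (act (φQ σ) (bt b τ))`. `c` unramified outside `S0` (`IsC`), `ρ a` the twist of `c` by `bt a = bet {a}` (`tws`).
* `eb_co`, `eb_one`: `bt_cy`, `Dg.act_mul`, `hB`: `E τ υ + E σ (τ υ) = E (σ τ) υ + E σ τ`: all terms bilinear: `B (bt a (σ τ)) (στ bt b υ) = B (bt a σ) (στ bt b υ) + B (σ bt a τ) (στ bt b υ)`.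
* `eb_fin`: the homomorphism `σ ↦ (ρ a σ, ρ b σ, c σ)` to `R × R × R`: finite type (`tws_isL`), exponent `p` on the inertia groups outside `S0` (`par_pow`; `c = 1` there: `isc_all`), `= 1` on `t v` for `v ≠ un a, un b` (`par_ur`); it determines `bt a σ`, `bt b σ` (`Tw`: `ρ a σ = e (bt a σ) * c σ`, `e`
  injective) and `φQ σ = π (c σ)` (`IsL.pi`), so `Eb`. (`LDs.t`, `inr` by `dif_pos`.)
* `eb_loc1`: at `v = un a`: `Eb (F v) (t v) - Eb (t v) (F v) = - tb X B a b`. Use `lt2` (Pool/Agent/H1/AR/Lt2.lean) as in `res_loc` (Pool/Agent/H1/AR/Res.lean) with `brg_lt` instead of `lt2`, the homomorphism of `eb_fin`, `F' = fb a`, `τ' = t a` (`kk (D.pi v) (t a) = 1`: `ltb_pik`):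
  `Eb (F v) (t v) - Eb (t v) (F v) = Eb (fb a) (t a) - Eb (t a) (fb a)`, and `bt b (t a) = 0` (`ine_bt`), `bt a (t a) = y a` (`ltb_y`), `φQ (t a) = 1` (`ine_phi`): `= 0 - B (y a) (bt b (fb a))`.
* `eb_loc2`: the same at `v = un b`: `Eb (fb b) (t b) - Eb (t b) (fb b) = B (bt a (fb b)) (act (φQ (fb b)) (y b)) - 0`, `φQ (fb b) ∈ H b.1` (`fld_phi`) fixes `y b`: `= B.flip (y b) (bt a (fb b)) = tb X B.flip b a`.
-/

set_option autoImplicit false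
set_option linter.dupNamespace false

open scoped NumberField Pointwise
open IsDedekindDomain NumberField
open scoped Classical

noncomputable section

namespace H51.MT

open H63.MA H38.BB H38.BG H57.PC H57.BRA H89.BRG H1.AR

variable {p u w N : ℕ} {R Q : Type} [Group R] [Group Q]
variable [Fintype Q] {Dg : MG p u w N R Q} {K : Type} [Field K] [NumberField K] {Ω : Type}
  [Field Ω] [Algebra K Ω] [IsAlgClosure K Ω] {ζ : K} (X : AD Dg K Ω ζ)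

/-- the cochain -/
def Eb (B : (Fin u → ZMod p) →ₗ[ZMod p] (Fin u → ZMod p) →ₗ[ZMod p] ZMod p) (a b : X.Lb)
    (σ τ : Gal(Ω/K)) : ZMod p := B (X.bt a σ) (Dg.act (X.φQ σ) (X.bt b τ))

omit [Fintype Q] [IsAlgClosure K Ω] in
theorem eb_cy1 {b : Gal(Ω/K) → Fin u → ZMod p} (hb : X.Cy b) : b 1 = 0 := by
  have h := hb.co 1 1
  rw [mul_one, map_one, Dg.act_one] at h
  exact (left_eq_add.1 h)

omit [NumberField K] [IsAlgClosure K Ω] in
theorem eb_prod {H H' : Type} [Group H] [Group H'] {f : Gal(Ω/K) →* H} {g : Gal(Ω/K) →* H'}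
    (hf : H38.ML.FT f) (hg : H38.ML.FT g) : H38.ML.FT (f.prod g) := by
  obtain ⟨E, hE, h1⟩ := hf
  obtain ⟨E', hE', h2⟩ := hg
  refine ⟨E ⊔ E', inferInstance, fun σ hσ => ?_⟩
  have h3 : σ ∈ E.fixingSubgroup := IntermediateField.fixingSubgroup_antitone le_sup_left hσ
  have h4 : σ ∈ E'.fixingSubgroup := IntermediateField.fixingSubgroup_antitone le_sup_right hσ
  rw [MonoidHom.mem_ker, MonoidHom.prod_apply, MonoidHom.mem_ker.1 (h1 h3),
    MonoidHom.mem_ker.1 (h2 h4)]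
  rfl

omit [Fintype Q] [IsAlgClosure K Ω] in
theorem eb_ok {a : X.Lb} (ha : X.Gd a) : X.Ok {a} := by
  refine ⟨fun b hb => ?_, fun b hb b' hb' h => ?_⟩
  · rw [Finset.mem_singleton.1 hb]
    exact ha
  · exact absurd ((Finset.mem_singleton.1 hb).trans (Finset.mem_singleton.1 hb').symm) h

omit [IsAlgClosure K Ω] in
theorem eb_bet (a : X.Lb) : X.bet {a} = X.bt a := by
  funext σ
  unfold AD.bet
  exact Finset.sum_singleton _ _

theorem eb_co (hp : p.Prime) (hζ : IsPrimitiveRoot ζ p)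
    {B : (Fin u → ZMod p) →ₗ[ZMod p] (Fin u → ZMod p) →ₗ[ZMod p] ZMod p} (hB : Iv Dg B) (a b : X.Lb)
    (σ τ υ : Gal(Ω/K)) : Eb X B a b τ υ + Eb X B a b σ (τ * υ) =
      Eb X B a b (σ * τ) υ + Eb X B a b σ τ := by
  unfold Eb
  rw [(bt_cy X hp hζ b).co τ υ, (bt_cy X hp hζ a).co σ τ, map_mul, Dg.act_mul, map_add, map_add,
    map_add, LinearMap.add_apply, hB]
  ring

theorem eb_one (hp : p.Prime) (hζ : IsPrimitiveRoot ζ p)
    (B : (Fin u → ZMod p) →ₗ[ZMod p] (Fin u → ZMod p) →ₗ[ZMod p] ZMod p) (a b : X.Lb)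
    (σ : Gal(Ω/K)) : Eb X B a b 1 σ = 0 ∧ Eb X B a b σ 1 = 0 := by
  unfold Eb
  rw [eb_cy1 X (bt_cy X hp hζ a), eb_cy1 X (bt_cy X hp hζ b), map_zero, map_zero, map_zero]
  exact ⟨rfl, rfl⟩

theorem eb_fin (hp : p.Prime) (hζ : IsPrimitiveRoot ζ p) {c : Gal(Ω/K) →* R} (hc : X.IsC c)
    (B : (Fin u → ZMod p) →ₗ[ZMod p] (Fin u → ZMod p) →ₗ[ZMod p] ZMod p) {a b : X.Lb}
    (ha : X.Gd a) (hb : X.Gd b) :
    ∃ ρ : Gal(Ω/K) →* R × R × R, H38.ML.FT ρ ∧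
      (∀ σ σ' τ τ', ρ σ = ρ σ' → ρ τ = ρ τ' → Eb X B a b σ τ = Eb X B a b σ' τ') ∧
      (∀ v, v ∉ X.D.S0 → ∀ τ ∈ inr X.L v, ρ τ ^ p = 1) ∧
      ∀ v, v ∉ X.D.S0 → X.un a ≠ v → X.un b ≠ v → ρ (X.L.t v) = 1 := by
  obtain ⟨ρa, ha1, ha2⟩ := tws X hc.toIsL (bt_cy X hp hζ a)
  obtain ⟨ρb, hb1, hb2⟩ := tws X hc.toIsL (bt_cy X hp hζ b)
  have ha3 : Dg.Tw c (X.bet {a}) ρa := by
    rw [eb_bet]
    exact ha1
  have hb3 : Dg.Tw c (X.bet {b}) ρb := by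
    rw [eb_bet]
    exact hb1
  refine ⟨ρa.prod (ρb.prod c), eb_prod ha2.ft (eb_prod hb2.ft hc.ft), ?_, ?_, ?_⟩
  · intro σ σ' τ τ' h h'
    have h1 : ρa σ = ρa σ' := congrArg Prod.fst h
    have h2 : c σ = c σ' := congrArg (fun z : R × R × R => z.2.2) h
    have h3 : ρb τ = ρb τ' := congrArg (fun z : R × R × R => z.2.1) h'
    have h4 : c τ = c τ' := congrArg (fun z : R × R × R => z.2.2) h'
    have h5 : X.bt a σ = X.bt a σ' := by
      rw [ha1 σ, ha1 σ', h2] at h1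
      exact Dg.einj (mul_right_cancel h1)
    have h6 : X.bt b τ = X.bt b τ' := by
      rw [hb1 τ, hb1 τ', h4] at h3
      exact Dg.einj (mul_right_cancel h3)
    have h7 : X.φQ σ = X.φQ σ' := by
      rw [← hc.pi σ, ← hc.pi σ', h2]
    unfold Eb
    rw [h5, h6, h7]
  · intro v hv τ hτ
    have h1 := hτ
    rw [inr, dif_pos hv] at h1
    have h2 : ρa τ ^ p = 1 := par_pow X hp hζ hc ha3 hv (X.L.ld v hv).prime (X.L.ld v hv).under h1
    have h3 : ρb τ ^ p = 1 := par_pow X hp hζ hc hb3 hv (X.L.ld v hv).prime (X.L.ld v hv).under h1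
    have h4 : c τ = 1 := hc.ur v hv τ hτ
    change (ρa τ ^ p, ρb τ ^ p, c τ ^ p) = 1
    rw [h2, h3, h4, one_pow]
    rfl
  · intro v hv hav hbv
    have h1 : X.L.t v = (X.L.ld v hv).t := by
      rw [LDs.t, dif_pos hv]
    rw [h1]
    have h2 : ρa (X.L.ld v hv).t = 1 := par_ur X hp hζ hc (eb_ok X ha) ha3 hv
      (fun x hx => by rw [Finset.mem_singleton.1 hx]; exact hav)
      (X.L.ld v hv).prime (X.L.ld v hv).under (X.L.ld v hv).ht
    have h3 : ρb (X.L.ld v hv).t = 1 := par_ur X hp hζ hc (eb_ok X hb) hb3 hv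
      (fun x hx => by rw [Finset.mem_singleton.1 hx]; exact hbv)
      (X.L.ld v hv).prime (X.L.ld v hv).under (X.L.ld v hv).ht
    have h4 : c (X.L.ld v hv).t = 1 :=
      isc_all X hc hv (X.L.ld v hv).prime (X.L.ld v hv).under (X.L.ld v hv).ht
    change (ρa (X.L.ld v hv).t, ρb (X.L.ld v hv).t, c (X.L.ld v hv).t) = 1
    rw [h2, h3, h4]
    rfl

/-- the value at the place of a label -/
theorem eb_at [Finite R] (hp : p.Prime) (hζ : IsPrimitiveRoot ζ p) (hz : Z2 p K)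
    {c : Gal(Ω/K) →* R} (hc : X.IsC c)
    {B : (Fin u → ZMod p) →ₗ[ZMod p] (Fin u → ZMod p) →ₗ[ZMod p] ZMod p} (hB : Iv Dg B) {a b : X.Lb}
    (ha : X.Gd a) (hb : X.Gd b) {d : X.Lb} (hd : X.Gd d) :
    Eb X B a b (X.Fr.F (X.un d)) (X.L.t (X.un d)) - Eb X B a b (X.L.t (X.un d)) (X.Fr.F (X.un d)) =
      Eb X B a b (X.fb d) (X.t d) - Eb X B a b (X.t d) (X.fb d) := by
  have hv := un_not X hd.1
  obtain ⟨ρ, h1, h2, h3, -⟩ := eb_fin X hp hζ hc B ha hb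
  have h4 := brg_lt hp hζ ρ h1 (Eb X B a b) (fun σ => (eb_one X hp hζ B a b σ).1)
    (fun σ => (eb_one X hp hζ B a b σ).2) (eb_co X hp hζ hB a b) h2 (ltb_na X hd).2
    (X.D.pi_self _ hv) (X.L.ld (X.un d) hv) (isFr_of hp hζ hz X.Fr _ hv)
    (fun τ hτ => h3 _ hv τ (by rw [inr, dif_pos hv]; exact hτ)) (ltb_prime X hd) (ltb_under X hd)
    (ltb_fb X hd) (ltb_t X hd)
  rw [ltb_pik X hp hζ hd, X.D.pi_self _ hv, Int.cast_one, one_mul] at h4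
  rw [h4, LDs.t, dif_pos hv]

theorem eb_loc1 [Finite R] (hp : p.Prime) (hζ : IsPrimitiveRoot ζ p) (hz : Z2 p K)
    {c : Gal(Ω/K) →* R} (hc : X.IsC c)
    {B : (Fin u → ZMod p) →ₗ[ZMod p] (Fin u → ZMod p) →ₗ[ZMod p] ZMod p} (hB : Iv Dg B) {a b : X.Lb}
    (ha : X.Gd a) (hb : X.Gd b) (hab : X.un a ≠ X.un b) :
    Eb X B a b (X.Fr.F (X.un a)) (X.L.t (X.un a)) - Eb X B a b (X.L.t (X.un a)) (X.Fr.F (X.un a)) =
      -tb X B a b := by
  have hv := un_not X ha.1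
  rw [eb_at X hp hζ hz hc hB ha hb ha]
  unfold Eb tb
  rw [ine_bt X hp hζ hv hb.1 (Ne.symm hab) (ltb_prime X ha) (ltb_under X ha) (ltb_t X ha),
    ine_phi X hv (ltb_prime X ha) (ltb_under X ha) (ltb_t X ha), ltb_y X hp hζ ha, Dg.act_one,
    map_zero, map_zero, zero_sub]

theorem eb_loc2 [Finite R] (hp : p.Prime) (hζ : IsPrimitiveRoot ζ p) (hz : Z2 p K)
    {c : Gal(Ω/K) →* R} (hc : X.IsC c)
    {B : (Fin u → ZMod p) →ₗ[ZMod p] (Fin u → ZMod p) →ₗ[ZMod p] ZMod p} (hB : Iv Dg B) {a b : X.Lb}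
    (ha : X.Gd a) (hb : X.Gd b) (hab : X.un a ≠ X.un b) :
    Eb X B a b (X.Fr.F (X.un b)) (X.L.t (X.un b)) - Eb X B a b (X.L.t (X.un b)) (X.Fr.F (X.un b)) =
      tb X B.flip b a := by
  have hv := un_not X hb.1
  have h1 : X.φQ (X.fb b) ∈ Dg.H b.1 := fld_phi X b.1 _
  rw [eb_at X hp hζ hz hc hB ha hb hb]
  unfold Eb tb
  rw [ine_bt X hp hζ hv ha.1 hab (ltb_prime X hb) (ltb_under X hb) (ltb_t X hb),
    ltb_y X hp hζ hb, Dg.fixy b.1 _ h1, map_zero, LinearMap.zero_apply, sub_zero,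
    LinearMap.flip_apply]

end H51.MT
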