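import Pool.Agent.H1.AR.Defs

/-!
# H51/MT: the permutation group data of `Dg` (structure theorem (ST), MP_b39724_nt)

`Ei Dg` the disjoint union of the `Q / H j`, `uE Dg` its number of elements, `ix : Ei Dg ≃ Fin (uE Dg)`. `Un Dg` are the group data with `V' = F_p[Ei Dg]`, `Z' = 0`, `R' = V' ⋊ Q`, `y' j` the base
point of `Q / H j`, the same `H j`. `pe` is the action.
-/

set_option autoImplicit false
set_option linter.dupNamespace false

open scoped NumberField
open IsDedekindDomain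
open scoped Classical

noncomputable section

namespace H51.MT

open H63.MA H38.BB H38.BG H57.PC H57.BRA H89.BRG H1.AR

variable {p u w N : ℕ} {R Q : Type} [Group R] [Group Q] [Fintype Q]

/-- the disjoint union of the coset spaces -/
abbrev Ei (Dg : MG p u w N R Q) : Type := Σ j : Fin N, Q ⧸ Dg.H j

/-- its number of elements -/
def uE (Dg : MG p u w N R Q) : ℕ := Fintype.card (Ei Dg)

/-- the numbering -/
def ix (Dg : MG p u w N R Q) : Ei Dg ≃ Fin (uE Dg) := Fintype.equivFin (Ei Dg)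

/-- the action on the coset spaces -/
def em (Dg : MG p u w N R Q) (q : Q) (e : Ei Dg) : Ei Dg := ⟨e.1, q • e.2⟩

theorem em_one (Dg : MG p u w N R Q) (e : Ei Dg) : em Dg 1 e = e := by
  unfold em
  rw [one_smul]

theorem em_mul (Dg : MG p u w N R Q) (q q' : Q) (e : Ei Dg) :
    em Dg (q * q') e = em Dg q (em Dg q' e) := by
  unfold em
  rw [mul_smul]

theorem em_inv (Dg : MG p u w N R Q) (q : Q) (e : Ei Dg) : em Dg q⁻¹ (em Dg q e) = e := by
  rw [← em_mul, inv_mul_cancel, em_one]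

/-- the permutation action -/
def pe (Dg : MG p u w N R Q) (q : Q) :
    (Fin (uE Dg) → ZMod p) →ₗ[ZMod p] (Fin (uE Dg) → ZMod p) :=
  LinearMap.funLeft (ZMod p) (ZMod p) fun k => ix Dg (em Dg q⁻¹ ((ix Dg).symm k))

theorem pe_apply (Dg : MG p u w N R Q) (q : Q) (x : Fin (uE Dg) → ZMod p) (k : Fin (uE Dg)) :
    pe Dg q x k = x (ix Dg (em Dg q⁻¹ ((ix Dg).symm k))) := rfl

theorem pe_one (Dg : MG p u w N R Q) (x : Fin (uE Dg) → ZMod p) : pe Dg 1 x = x := by
  funext k
  rw [pe_apply, inv_one, em_one, Equiv.apply_symm_apply]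

theorem pe_mul (Dg : MG p u w N R Q) (q q' : Q) (x : Fin (uE Dg) → ZMod p) :
    pe Dg (q * q') x = pe Dg q (pe Dg q' x) := by
  funext k
  rw [pe_apply, pe_apply, pe_apply, mul_inv_rev, em_mul, Equiv.symm_apply_apply]

/-- the basis vector of a point -/
def bs (Dg : MG p u w N R Q) (e : Ei Dg) : Fin (uE Dg) → ZMod p := Pi.single (ix Dg e) 1

theorem pe_bs (Dg : MG p u w N R Q) (q : Q) (e : Ei Dg) : pe Dg q (bs Dg e) = bs Dg (em Dg q e) := by
  funext k
  rw [pe_apply]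
  unfold bs
  by_cases h : k = ix Dg (em Dg q e)
  · rw [h, Pi.single_eq_same, Equiv.symm_apply_apply, em_inv, Pi.single_eq_same]
  · rw [Pi.single_eq_of_ne h, Pi.single_eq_of_ne]
    intro h'
    apply h
    have h1 := (ix Dg).injective h'
    rw [← h1, ← em_mul, mul_inv_cancel, em_one, Equiv.apply_symm_apply]

/-- the semidirect product -/
@[ext] structure UR (Dg : MG p u w N R Q) where
  v : Fin (uE Dg) → ZMod p
  q : Q

instance (Dg : MG p u w N R Q) : Group (UR Dg) where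
  mul x y := ⟨x.v + pe Dg x.q y.v, x.q * y.q⟩
  one := ⟨0, 1⟩
  inv x := ⟨-pe Dg x.q⁻¹ x.v, x.q⁻¹⟩
  mul_assoc x y z := by
    change (⟨x.v + pe Dg x.q y.v + pe Dg (x.q * y.q) z.v, x.q * y.q * z.q⟩ : UR Dg) =
      ⟨x.v + pe Dg x.q (y.v + pe Dg y.q z.v), x.q * (y.q * z.q)⟩
    rw [pe_mul, map_add, add_assoc, mul_assoc]
  one_mul x := by
    change (⟨0 + pe Dg 1 x.v, 1 * x.q⟩ : UR Dg) = x
    rw [pe_one, zero_add, one_mul]
  mul_one x := by
    change (⟨x.v + pe Dg x.q 0, x.q * 1⟩ : UR Dg) = x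
    rw [map_zero, add_zero, mul_one]
  inv_mul_cancel x := by
    change (⟨-pe Dg x.q⁻¹ x.v + pe Dg x.q⁻¹ x.v, x.q⁻¹ * x.q⟩ : UR Dg) = ⟨0, 1⟩
    rw [neg_add_cancel, inv_mul_cancel]

theorem UR.mul_v (Dg : MG p u w N R Q) (x y : UR Dg) : (x * y).v = x.v + pe Dg x.q y.v := rfl

theorem UR.mul_q (Dg : MG p u w N R Q) (x y : UR Dg) : (x * y).q = x.q * y.q := rfl

theorem UR.one_v (Dg : MG p u w N R Q) : (1 : UR Dg).v = 0 := rfl

theorem UR.one_q (Dg : MG p u w N R Q) : (1 : UR Dg).q = 1 := rfl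

theorem UR.inv_v (Dg : MG p u w N R Q) (x : UR Dg) : x⁻¹.v = -pe Dg x.q⁻¹ x.v := rfl

theorem UR.inv_q (Dg : MG p u w N R Q) (x : UR Dg) : x⁻¹.q = x.q⁻¹ := rfl

instance (Dg : MG p u w N R Q) [NeZero p] : Finite (UR Dg) :=
  Finite.of_injective (fun x : UR Dg => (x.v, x.q)) fun x y h =>
    UR.ext (congrArg Prod.fst h) (congrArg Prod.snd h)

/-- the permutation group data -/
def Un (Dg : MG p u w N R Q) : MG p (uE Dg) 0 N (UR Dg) Q where
  π := { toFun := fun x => x.q, map_one' := rfl, map_mul' := fun _ _ => rfl }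
  πs := fun q => ⟨⟨0, q⟩, rfl⟩
  e x := ⟨x, 1⟩
  einj := fun x y h => congrArg UR.v h
  eadd x y := by
    apply UR.ext
    · rw [UR.mul_v, pe_one]
    · rw [UR.mul_q, one_mul]
  eker r := ⟨fun h => ⟨r.v, UR.ext rfl h.symm⟩, fun ⟨x, hx⟩ => by rw [← hx]; rfl⟩
  act := pe Dg
  act_one := pe_one Dg
  act_mul := pe_mul Dg
  conj r x := by
    apply UR.ext
    · change (r * (⟨x, 1⟩ : UR Dg) * r⁻¹).v = pe Dg r.q x
      rw [UR.mul_v, UR.mul_v, UR.mul_q, UR.inv_v, mul_one, map_neg, ← pe_mul, mul_inv_cancel, pe_one]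
      abel
    · change (r * (⟨x, 1⟩ : UR Dg) * r⁻¹).q = 1
      rw [UR.mul_q, UR.mul_q, UR.inv_q, mul_one, mul_inv_cancel]
  c := fun k => k.elim0
  coc := fun k => k.elim0
  om := 0
  iv_om := fun k => k.elim0
  y j := bs Dg ⟨j, QuotientGroup.mk 1⟩
  H := Dg.H
  fixy j q hq := by
    rw [pe_bs]
    congr 1
    unfold em
    congr 1
    change (QuotientGroup.mk (q * 1) : Q ⧸ Dg.H j) = _
    rw [mul_one]
    exact QuotientGroup.eq.2 (by rw [mul_one]; exact inv_mem hq)
  mem_om _ _ _ := ⟨0, fun k => k.elim0⟩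
  gen M hM hy := by
    rw [eq_top_iff]
    have h1 : ∀ e : Ei Dg, bs Dg e ∈ M := by
      rintro ⟨j, c⟩
      induction c using QuotientGroup.induction_on with
      | H q =>
        have h2 := hM q _ (hy j)
        rw [pe_bs] at h2
        have h3 : em Dg q ⟨j, (QuotientGroup.mk 1 : Q ⧸ Dg.H j)⟩ = ⟨j, QuotientGroup.mk q⟩ := by
          unfold em
          congr 1
          change (QuotientGroup.mk (q * 1) : Q ⧸ Dg.H j) = _
          rw [mul_one]
        rwa [h3] at h2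
    intro x _
    have h4 : x = ∑ k, x k • bs Dg ((ix Dg).symm k) := by
      have h5 : ∀ k, bs Dg ((ix Dg).symm k) = Pi.single k 1 := fun k => by
        unfold bs
        rw [Equiv.apply_symm_apply]
      funext i
      rw [Finset.sum_apply]
      simp only [h5, Pi.smul_apply, smul_eq_mul]
      rw [Finset.sum_eq_single i]
      · rw [Pi.single_eq_same, mul_one]
      · intro k _ hk
        rw [Pi.single_eq_of_ne (Ne.symm hk), mul_zero]
      · intro h
        exact absurd (Finset.mem_univ i) h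
    rw [h4]
    exact M.sum_mem fun k _ => M.smul_mem _ (h1 _)

variable {Dg : MG p u w N R Q} {K : Type} [Field K] [NumberField K] {Ω : Type} [Field Ω]
  [Algebra K Ω] {ζ : K}

/-- the arithmetic data with the permutation group data -/
def UX (X : AD Dg K Ω ζ) : AD (Un Dg) K Ω ζ where
  φQ := X.φQ
  ft := X.ft
  sur := X.sur
  D := X.D
  L := X.L
  Fr := X.Fr
  P := X.P
  ur := X.ur
  F := X.F
  nf := X.nf
  fix := X.fix
  A := X.A
  rep := X.rep
  rep_mk := X.rep_mk
  rep_one := X.rep_one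

/-- the cocycle of a label with values in the permutation module -/
def mm (X : AD Dg K Ω ζ) (a : X.Lb) (σ : Gal(Ω/K)) : Fin (uE Dg) → ZMod p := (UX X).bt a σ

/-- the homomorphism `(0, φQ)` to `V' ⋊ Q` -/
def m0 (X : AD Dg K Ω ζ) : Gal(Ω/K) →* UR Dg where
  toFun σ := ⟨0, X.φQ σ⟩
  map_one' := by
    apply UR.ext
    · rfl
    · exact map_one _
  map_mul' σ τ := by
    apply UR.ext
    · rw [UR.mul_v, map_zero, add_zero]
    · exact map_mul _ _ _

theorem m0_isC (X : AD Dg K Ω ζ) : (UX X).IsC (m0 X) where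
  ft := by
    obtain ⟨E, hE, h⟩ := X.ft
    refine ⟨E, hE, fun σ hσ => ?_⟩
    have h1 := MonoidHom.mem_ker.1 (h hσ)
    rw [MonoidHom.mem_ker]
    exact UR.ext rfl h1
  pi := fun _ => rfl
  ur := fun v hv τ hτ => UR.ext rfl (X.ur v hv τ hτ)

end H51.MT
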